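import Pool.Agent.LCC.GDefs

set_option linter.unusedVariables false

open Set Filter Topology
open scoped ContDiff


namespace LCC



theorem A1_shear_inv (l : V2 →L[ℂ] ℂ) (v : V2) (a : ℂ) (h : l v = 0) (p : V2) :
    shearFun l v (-a) (shearFun l v a p) = p := by
  have hl : l (shearFun l v a p) = l p := by
    simp [shearFun, h]
  unfold shearFun at hl ⊢
  rw [hl, add_assoc, ← add_smul]
  simp

theorem A1_over_l (l m : V2 →L[ℂ] ℂ) (v : V2) (a : ℂ) (h : l v = 0) (p : V2) :
    l (overFun l m v a p) = l p := by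
  simp [overFun, h]

theorem A1_over_m (l m : V2 →L[ℂ] ℂ) (v : V2) (a : ℂ) (hm : m v = 1) (p : V2) :
    m (overFun l m v a p) = Complex.exp (a * Complex.exp (l p)) * m p := by
  simp only [overFun, map_add, map_smul, hm, smul_eq_mul]
  ring

theorem A1_over_inv (l m : V2 →L[ℂ] ℂ) (v : V2) (a : ℂ) (h : l v = 0) (hm : m v = 1) (p : V2) :
    overFun l m v (-a) (overFun l m v a p) = p := by
  have hl := A1_over_l l m v a h p
  have hmm := A1_over_m l m v a hm p
  have hx : overFun l m v (-a) (overFun l m v a p) = overFun l m v a p +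
      ((Complex.exp (-a * Complex.exp (l (overFun l m v a p))) - 1) *
        m (overFun l m v a p)) • v := rfl
  rw [hx, hl, hmm]
  have hy : overFun l m v a p = p + ((Complex.exp (a * Complex.exp (l p)) - 1) * m p) • v := rfl
  rw [hy, add_assoc, ← add_smul]
  have hz : (Complex.exp (a * Complex.exp (l p)) - 1) * m p +
      (Complex.exp (-a * Complex.exp (l p)) - 1) * (Complex.exp (a * Complex.exp (l p)) * m p)
      = 0 := by
    have he : Complex.exp (-a * Complex.exp (l p)) * Complex.exp (a * Complex.exp (l p)) = 1 := by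
      rw [← Complex.exp_add]
      simp
    linear_combination (m p) * he
  rw [hz]
  simp

/-- A1a. The shear is a permutation in `Aut`. -/
theorem A1_shear (l : V2 →L[ℂ] ℂ) (v : V2) (a : ℂ) (h : l v = 0) :
    ∃ e ∈ Aut, ∀ p, e p = shearFun l v a p := by
  refine ⟨⟨shearFun l v a, shearFun l v (-a), fun p => A1_shear_inv l v a h p, fun p => ?_⟩, ?_,
    fun p => rfl⟩
  · have := A1_shear_inv l v (-a) h p
    rwa [neg_neg] at this
  · exact Subgroup.subset_closure (Or.inl ⟨l, v, a, h, fun p => rfl⟩)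

/-- A1b. The overshear is a permutation in `Aut`. -/
theorem A1_over (l m : V2 →L[ℂ] ℂ) (v : V2) (a : ℂ) (h : l v = 0) (hm : m v = 1) :
    ∃ e ∈ Aut, ∀ p, e p = overFun l m v a p := by
  refine ⟨⟨overFun l m v a, overFun l m v (-a), fun p => A1_over_inv l m v a h hm p,
    fun p => ?_⟩, ?_, fun p => rfl⟩
  · have := A1_over_inv l m v (-a) h hm p
    rwa [neg_neg] at this
  · exact Subgroup.subset_closure (Or.inr ⟨l, m, v, a, h, hm, fun p => rfl⟩)

/-- A1c. The inverse of a generator is a generator. -/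
theorem A1_inv (e : Equiv.Perm V2) (he : IsGen e) : IsGen e⁻¹ := by
  rcases he with ⟨l, v, a, h, hp⟩ | ⟨l, m, v, a, h, hm, hp⟩
  · refine Or.inl ⟨l, v, -a, h, fun p => ?_⟩
    rw [Equiv.Perm.inv_eq_iff_eq, hp]
    have := A1_shear_inv l v (-a) h p
    rw [neg_neg] at this
    exact this.symm
  · refine Or.inr ⟨l, m, v, -a, h, hm, fun p => ?_⟩
    rw [Equiv.Perm.inv_eq_iff_eq, hp]
    have := A1_over_inv l m v (-a) h hm p
    rw [neg_neg] at this
    exact this.symm

end LCC
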