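import Pool.Agent.LCC.GDefs
import Pool.Agent.LCC.A1

set_option linter.unusedVariables false

open Set Filter Topology
open scoped ContDiff


namespace LCC



theorem A2_gen (e : Equiv.Perm V2) (he : IsGen e) : ContDiff ℂ ∞ (fun p : V2 => e p) := by
  rcases he with ⟨l, v, a, -, h⟩ | ⟨l, m, v, a, -, -, h⟩
  · have h1 : (fun p : V2 => e p) = fun p => p + (a * Complex.exp (l p)) • v := by
      funext p
      rw [h p]
      rfl
    rw [h1]
    exact contDiff_id.add ((contDiff_const.mul l.contDiff.cexp).smul contDiff_const)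
  · have h1 : (fun p : V2 => e p)
        = fun p => p + ((Complex.exp (a * Complex.exp (l p)) - 1) * m p) • v := by
      funext p
      rw [h p]
      rfl
    rw [h1]
    exact contDiff_id.add ((((contDiff_const.mul l.contDiff.cexp).cexp.sub contDiff_const).mul
      m.contDiff).smul contDiff_const)

theorem A2_both (e : Equiv.Perm V2) (he : e ∈ Aut) :
    ContDiff ℂ ∞ (fun p : V2 => e p) ∧ ContDiff ℂ ∞ (fun p : V2 => e⁻¹ p) := by
  unfold Aut at he
  induction he using Subgroup.closure_induction with
  | mem x hx => exact ⟨A2_gen x hx, A2_gen x⁻¹ (A1_inv x hx)⟩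
  | one => exact ⟨contDiff_id, by rw [inv_one]; exact contDiff_id⟩
  | mul x y _ _ hx hy =>
    refine ⟨hx.1.comp hy.1, ?_⟩
    rw [mul_inv_rev]
    exact hy.2.comp hx.2
  | inv x _ hx =>
    refine ⟨hx.2, ?_⟩
    rw [inv_inv]
    exact hx.1

/-- A2. Elements of `Aut` are entire.
PROOF. `Subgroup.closure_induction` with the predicate
`ContDiff ℂ ∞ (fun p => e p) ∧ ContDiff ℂ ∞ (fun p => e⁻¹ p)`. Generators: `shearFun l v a` and
`overFun l m v a` are built from continuous linear maps, `Complex.exp`, products and `smul`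
(`l.contDiff`, `Complex.contDiff_exp`, `ContDiff.cexp`, `ContDiff.smul`, `fun_prop` may help); the
inverse of a generator is a generator by `A1_inv`. `one`: identity. `mul`: compositions
(`Equiv.Perm.mul_apply`, `mul_inv_rev`). `inv`: swap. -/
theorem A2_contDiff (e : Equiv.Perm V2) (he : e ∈ Aut) : ContDiff ℂ ∞ (fun p : V2 => e p) :=
  (A2_both e he).1

end LCC
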