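import Pool.Agent.LCC.GDefs

set_option linter.unusedVariables false

open Set Filter Topology
open scoped ContDiff


namespace LCC



/-- D1. Composition of many short time maps.
PROOF. `Good V` with `R, A, η` gives `τ₀`. Choose `M ≥ 1` with `T/M < τ₀` and `T/M ≤ 1`, and for
every `k` an element `e_k ∈ Aut` for `τ = T/M` and the complex number `a (k * (T/M))`. Let
`x 0 = q`, `x (k+1) = e_k (x k)`, and `e = e_{M-1} * ... * e_0` (by recursion: `E 0 = 1`,
`E (k+1) = e_k * E k`, `E k ∈ Aut`, `E k q = x k`). -/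
theorem D1_euler (V : V2 → V2) (hV : Good V) (a : ℝ → ℂ) (A : ℝ) (hA : 0 < A)
    (ha : ∀ s, ‖a s‖ ≤ A) (T R η : ℝ) (hT : 0 < T) (hR : 0 < R) (hη : 0 < η) :
    ∃ M : ℕ, 0 < M ∧ T / M ≤ 1 ∧ ∃ e ∈ Aut, ∀ q : V2, ∃ x : ℕ → V2, x 0 = q ∧ x M = e q ∧
      ∀ k < M, ‖x k‖ ≤ R →
        ‖x (k + 1) - x k - (((T / M : ℝ) : ℂ) * a (k * (T / M))) • V (x k)‖ ≤ (T / M) * η := by
  obtain ⟨τ₀, hτ₀, H⟩ := hV R A η hR hA hη
  obtain ⟨M, hM⟩ := exists_nat_gt (max (T / τ₀) T)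
  have hM1 : T / τ₀ < M := lt_of_le_of_lt (le_max_left _ _) hM
  have hM2 : T < M := lt_of_le_of_lt (le_max_right _ _) hM
  have hMpos : (0 : ℝ) < M := lt_trans hT hM2
  have hMn : 0 < M := by exact_mod_cast hMpos
  have hlt : T / M < τ₀ := by
    rw [div_lt_iff₀ hMpos]
    rw [div_lt_iff₀ hτ₀] at hM1
    linarith [mul_comm (M : ℝ) τ₀]
  have hle : T / M ≤ 1 := by
    rw [div_le_one hMpos]; exact hM2.le
  have hpos : 0 < T / M := div_pos hT hMpos
  choose e heA he using fun k : ℕ => H (T / M) hpos hlt (a (k * (T / M))) (ha _)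
  let E : ℕ → Equiv.Perm V2 := fun n => Nat.rec 1 (fun k E => e k * E) n
  have hE0 : E 0 = 1 := rfl
  have hE1 : ∀ k, E (k + 1) = e k * E k := fun k => rfl
  have hEA : ∀ k, E k ∈ Aut := by
    intro k
    induction k with
    | zero => rw [hE0]; exact Aut.one_mem
    | succ k ih => rw [hE1]; exact Aut.mul_mem (heA k) ih
  refine ⟨M, hMn, hle, E M, hEA M, fun q => ⟨fun k => E k q, ?_, rfl, ?_⟩⟩
  · show E 0 q = q
    rw [hE0]; rfl
  · intro k _ hk
    have h1 := he k (E k q) hk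
    simpa only [hE1, Equiv.Perm.mul_apply] using h1

end LCC
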