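import Pool.Agent.LCC.GDefs

set_option linter.unusedVariables false

open Set Filter Topology
open scoped ContDiff


namespace LCC



/-- D2. Where the field is small, the discrete flow moves little.
PROOF. By induction on `k ≤ M`: `‖x k - x 0‖ ≤ k τ (A ε' + η)`. Step: this is `≤ δ`, so by `hV`
`‖x k‖ ≤ R`, `‖V (x k)‖ ≤ ε'`, and `‖x (k+1) - x k‖ ≤ τ η + τ A ε'`. -/
theorem D2_small (V : V2 → V2) (x : ℕ → V2) (b : ℕ → ℂ) (τ A R η δ ε' : ℝ) (M : ℕ)
    (hτ : 0 ≤ τ) (hA : 0 ≤ A) (hη : 0 ≤ η) (hε : 0 ≤ ε') (hb : ∀ k, ‖b k‖ ≤ A)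
    (hx : ∀ k < M, ‖x k‖ ≤ R → ‖x (k + 1) - x k - ((τ : ℂ) * b k) • V (x k)‖ ≤ τ * η)
    (hV : ∀ q, ‖q - x 0‖ ≤ δ → ‖q‖ ≤ R ∧ ‖V q‖ ≤ ε')
    (hδ : M * τ * (A * ε' + η) ≤ δ) :
    ‖x M - x 0‖ ≤ M * τ * (A * ε' + η) := by
  have hc : 0 ≤ A * ε' + η := by positivity
  have key : ∀ k ≤ M, ‖x k - x 0‖ ≤ k * τ * (A * ε' + η) := by
    intro k
    induction k with
    | zero => intro _; simp
    | succ k ih =>
      intro hk
      have hk' : k < M := hk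
      have ih' := ih hk'.le
      have hkM : (k : ℝ) ≤ M := by exact_mod_cast hk'.le
      have h1 : ‖x k - x 0‖ ≤ δ := by
        refine ih'.trans (le_trans ?_ hδ)
        have : (k : ℝ) * τ ≤ M * τ := mul_le_mul_of_nonneg_right hkM hτ
        exact mul_le_mul_of_nonneg_right this hc
      obtain ⟨hR, hVe⟩ := hV (x k) h1
      have h2 := hx k hk' hR
      have h3 : ‖((τ : ℂ) * b k) • V (x k)‖ ≤ τ * (A * ε') := by
        rw [norm_smul, norm_mul, Complex.norm_real, Real.norm_eq_abs, abs_of_nonneg hτ, mul_assoc]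
        exact mul_le_mul_of_nonneg_left (mul_le_mul (hb k) hVe (norm_nonneg _) hA) hτ
      have h4 : x (k + 1) - x 0 = (x (k + 1) - x k - ((τ : ℂ) * b k) • V (x k))
          + ((τ : ℂ) * b k) • V (x k) + (x k - x 0) := by abel
      rw [h4]
      refine (norm_add_le _ _).trans ?_
      have h5 := norm_add_le (x (k + 1) - x k - ((τ : ℂ) * b k) • V (x k))
        (((τ : ℂ) * b k) • V (x k))
      push_cast
      nlinarith [h2, h3, h5, ih']
  exact key M le_rfl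

/-- D4. Discrete flow of the contracting field `-χ(q) (q - pst)` on the polydisc.
PROOF. Let `d k = ‖x k - pst‖`. Claim: for `k ≤ M`, `d k ≤ 1` and
`d k ≤ (1 - (3/4) τ)^k + (4/3) η`. Step: `‖pst‖ = 100`, so `‖x k‖ ≤ 101 ≤ R`;
`x (k+1) - pst = (1 - τ χ(x k)) • (x k - pst) + (error ≤ τ η)` and
`‖1 - τ χ‖ ≤ (1 - τ) + τ ‖χ - 1‖ ≤ 1 - (3/4) τ`; so `d (k+1) ≤ (1 - (3/4) τ) d k + τ η`, which is
`≤ 1` since `η ≤ 3/4`, and `(1 - (3/4)τ) (4/3) η + τ η = (4/3) η`. Finally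
`(1 - y)^M ≤ exp (-y M)` (`Real.one_sub_le_exp_neg` / `Real.add_one_le_exp`). -/
theorem D4_contract (χ : V2 → ℂ) (x : ℕ → V2) (τ R η : ℝ) (M : ℕ)
    (hτ : 0 ≤ τ) (hτ1 : τ ≤ 1) (hη : 0 ≤ η) (hη1 : η ≤ 3 / 4) (hR : 101 ≤ R)
    (hx : ∀ k < M, ‖x k‖ ≤ R →
      ‖x (k + 1) - x k - ((τ : ℂ) * 1) • (-(χ (x k)) • (x k - pst))‖ ≤ τ * η)
    (hχ : ∀ q, ‖q - pst‖ ≤ 1 → ‖χ q - 1‖ ≤ 1 / 4) (h0 : ‖x 0 - pst‖ ≤ 1) :
    ‖x M - pst‖ ≤ Real.exp (-(3 / 4) * (M * τ)) + (4 / 3) * η := by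
  have hpst : ‖pst‖ = 100 := by
    unfold pst
    simp [Prod.norm_def]
  have hq0 : 0 ≤ 1 - (3 / 4) * τ := by linarith
  have hq1 : 1 - (3 / 4) * τ ≤ 1 := by linarith
  have key : ∀ k ≤ M, ‖x k - pst‖ ≤ 1 ∧ ‖x k - pst‖ ≤ (1 - (3 / 4) * τ) ^ k + (4 / 3) * η := by
    intro k
    induction k with
    | zero =>
      intro _
      refine ⟨h0, ?_⟩
      rw [pow_zero]; linarith
    | succ k ih =>
      intro hk
      have hk' : k < M := hk
      obtain ⟨ih1, ih2⟩ := ih hk'.le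
      have hn : ‖x k‖ ≤ R := by
        have : ‖x k‖ ≤ ‖x k - pst‖ + ‖pst‖ := by
          simpa using norm_add_le (x k - pst) pst
        linarith
      have h2 := hx k hk' hn
      have h3 := hχ (x k) ih1
      have h4 : x (k + 1) - pst = (x (k + 1) - x k - ((τ : ℂ) * 1) • (-(χ (x k)) • (x k - pst)))
          + (1 - (τ : ℂ) * χ (x k)) • (x k - pst) := by
        rw [sub_smul, one_smul, mul_one, smul_smul, mul_neg, neg_smul]
        abel
      have h5 : ‖(1 : ℂ) - (τ : ℂ) * χ (x k)‖ ≤ 1 - (3 / 4) * τ := by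
        have e1 : (1 : ℂ) - (τ : ℂ) * χ (x k) = ((1 - τ : ℝ) : ℂ) - (τ : ℂ) * (χ (x k) - 1) := by
          push_cast; ring
        rw [e1]
        refine (norm_sub_le _ _).trans ?_
        rw [norm_mul, Complex.norm_real, Complex.norm_real, Real.norm_eq_abs, Real.norm_eq_abs,
          abs_of_nonneg hτ, abs_of_nonneg (by linarith : 0 ≤ 1 - τ)]
        nlinarith [mul_le_mul_of_nonneg_left h3 hτ]
      have h6 : ‖x (k + 1) - pst‖ ≤ (1 - (3 / 4) * τ) * ‖x k - pst‖ + τ * η := by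
        rw [h4]
        refine (norm_add_le _ _).trans ?_
        rw [norm_smul]
        have := mul_le_mul_of_nonneg_right h5 (norm_nonneg (x k - pst))
        linarith
      constructor
      · have : (1 - (3 / 4) * τ) * ‖x k - pst‖ ≤ (1 - (3 / 4) * τ) * 1 :=
          mul_le_mul_of_nonneg_left ih1 hq0
        nlinarith
      · have : (1 - (3 / 4) * τ) * ‖x k - pst‖
            ≤ (1 - (3 / 4) * τ) * ((1 - (3 / 4) * τ) ^ k + (4 / 3) * η) :=
          mul_le_mul_of_nonneg_left ih2 hq0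
        rw [pow_succ]
        nlinarith
  have hM := (key M le_rfl).2
  have h7 : (1 - (3 / 4) * τ) ^ M ≤ Real.exp (-(3 / 4) * (M * τ)) := by
    have h8 : 1 - (3 / 4) * τ ≤ Real.exp (-((3 / 4) * τ)) := Real.one_sub_le_exp_neg _
    have h9 := pow_le_pow_left₀ hq0 h8 M
    rw [← Real.exp_nat_mul] at h9
    refine h9.trans (le_of_eq ?_)
    congr 1
    ring
  linarith

end LCC
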