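import Pool.Agent.LCC.GDefs

set_option linter.unusedVariables false

open Set Filter Topology
open scoped ContDiff


namespace LCC



/-- D3. If `y` is an exact discrete orbit of the field, the approximate orbit `x` stays near it.
PROOF. Let `d k = ‖x k - y k‖` and `C = d 0 + M τ η`. By induction on `k ≤ M`:
`d k ≤ (d 0 + k τ η) exp (A L k τ)`, which is `≤ C exp (A L M τ) ≤ 1`, hence `‖x k‖ ≤ R`. Step:
`x (k+1) - y (k+1) = (x k - y k) + τ b_k (V (x k) - V (y k)) + error`, so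
`d (k+1) ≤ (1 + τ A L) d k + τ η ≤ exp(τ A L) (d k) + τ η
≤ (d 0 + k τ η) exp(A L (k+1) τ) + τ η exp (A L (k+1) τ)`. -/
theorem D3_track (V : V2 → V2) (x y : ℕ → V2) (b : ℕ → ℂ) (τ A R L η : ℝ) (M : ℕ)
    (hτ : 0 ≤ τ) (hA : 0 ≤ A) (hL0 : 0 ≤ L) (hη : 0 ≤ η) (hb : ∀ k, ‖b k‖ ≤ A)
    (hx : ∀ k < M, ‖x k‖ ≤ R → ‖x (k + 1) - x k - ((τ : ℂ) * b k) • V (x k)‖ ≤ τ * η)
    (hy : ∀ k < M, y (k + 1) = y k + ((τ : ℂ) * b k) • V (y k))
    (hyR : ∀ k ≤ M, ‖y k‖ ≤ R - 1)
    (hL : ∀ p q : V2, ‖p‖ ≤ R → ‖q‖ ≤ R → ‖V p - V q‖ ≤ L * ‖p - q‖)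
    (h1 : (‖x 0 - y 0‖ + M * τ * η) * Real.exp (A * L * (M * τ)) ≤ 1) :
    ‖x M - y M‖ ≤ (‖x 0 - y 0‖ + M * τ * η) * Real.exp (A * L * (M * τ)) := by
  have hAL : 0 ≤ A * L := mul_nonneg hA hL0
  have key : ∀ k ≤ M, ‖x k - y k‖ ≤ (‖x 0 - y 0‖ + k * τ * η) * Real.exp (A * L * (k * τ)) := by
    intro k
    induction k with
    | zero => intro _; simp
    | succ k ih =>
      intro hk
      have hk' : k < M := hk
      have ih' := ih hk'.le
      have hkM : (k : ℝ) ≤ M := by exact_mod_cast hk'.le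
      have hkτ : (k : ℝ) * τ ≤ M * τ := mul_le_mul_of_nonneg_right hkM hτ
      have hkτ0 : 0 ≤ (k : ℝ) * τ := by positivity
      have hd0 : 0 ≤ ‖x 0 - y 0‖ := norm_nonneg _
      have h1' : ‖x k - y k‖ ≤ 1 := by
        refine ih'.trans (le_trans ?_ h1)
        refine mul_le_mul ?_ ?_ (Real.exp_pos _).le ?_
        · have := mul_le_mul_of_nonneg_right hkτ hη
          linarith
        · exact Real.exp_le_exp.mpr (mul_le_mul_of_nonneg_left hkτ hAL)
        · have : 0 ≤ (M : ℝ) * τ * η := by positivity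
          linarith
      have hyk := hyR k hk'.le
      have hxk : ‖x k‖ ≤ R := by
        have : ‖x k‖ ≤ ‖x k - y k‖ + ‖y k‖ := by simpa using norm_add_le (x k - y k) (y k)
        linarith
      have hyk' : ‖y k‖ ≤ R := by linarith
      have h2 := hx k hk' hxk
      have h3 : ‖((τ : ℂ) * b k) • (V (x k) - V (y k))‖ ≤ τ * (A * L) * ‖x k - y k‖ := by
        rw [norm_smul, norm_mul, Complex.norm_real, Real.norm_eq_abs, abs_of_nonneg hτ]
        have h31 := hL (x k) (y k) hxk hyk'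
        have h32 : ‖b k‖ * ‖V (x k) - V (y k)‖ ≤ A * (L * ‖x k - y k‖) :=
          mul_le_mul (hb k) h31 (norm_nonneg _) hA
        have h33 := mul_le_mul_of_nonneg_left h32 hτ
        linarith
      have h4 : x (k + 1) - y (k + 1) = (x (k + 1) - x k - ((τ : ℂ) * b k) • V (x k))
          + ((τ : ℂ) * b k) • (V (x k) - V (y k)) + (x k - y k) := by
        rw [hy k hk', smul_sub]; abel
      have h5 : ‖x (k + 1) - y (k + 1)‖ ≤ τ * η + τ * (A * L) * ‖x k - y k‖ + ‖x k - y k‖ := by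
        rw [h4]
        refine (norm_add_le _ _).trans ?_
        have := norm_add_le (x (k + 1) - x k - ((τ : ℂ) * b k) • V (x k))
          (((τ : ℂ) * b k) • (V (x k) - V (y k)))
        linarith
      have h6 : 1 + τ * (A * L) ≤ Real.exp (τ * (A * L)) := by
        have := Real.add_one_le_exp (τ * (A * L)); linarith
      have h7 : (1 + τ * (A * L)) * ‖x k - y k‖
          ≤ Real.exp (τ * (A * L)) * ((‖x 0 - y 0‖ + k * τ * η) * Real.exp (A * L * (k * τ))) :=
        mul_le_mul h6 ih' (norm_nonneg _) (Real.exp_pos _).le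
      have h8 : Real.exp (τ * (A * L)) * ((‖x 0 - y 0‖ + k * τ * η) * Real.exp (A * L * (k * τ)))
          = (‖x 0 - y 0‖ + k * τ * η) * Real.exp (A * L * (((k + 1 : ℕ) : ℝ) * τ)) := by
        rw [mul_comm, mul_assoc, ← Real.exp_add]
        congr 2
        push_cast; ring
      have h9 : 1 ≤ Real.exp (A * L * (((k + 1 : ℕ) : ℝ) * τ)) := by
        apply Real.one_le_exp
        positivity
      have h10 : τ * η ≤ τ * η * Real.exp (A * L * (((k + 1 : ℕ) : ℝ) * τ)) :=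
        le_mul_of_one_le_right (by positivity) h9
      rw [h8] at h7
      have h11 : (‖x 0 - y 0‖ + ((k + 1 : ℕ) : ℝ) * τ * η)
            * Real.exp (A * L * (((k + 1 : ℕ) : ℝ) * τ))
          = (‖x 0 - y 0‖ + k * τ * η) * Real.exp (A * L * (((k + 1 : ℕ) : ℝ) * τ))
            + τ * η * Real.exp (A * L * (((k + 1 : ℕ) : ℝ) * τ)) := by
        push_cast; ring
      rw [h11]
      linarith
  exact key M le_rfl

end LCC
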