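import Pool.Agent.LCC.GDefs

set_option linter.unusedVariables false

open Set Filter Topology
open scoped ContDiff


namespace LCC



/-- D5. Smooth fields are Lipschitz on balls.
PROOF. `fderiv ℂ V` is continuous, hence bounded on the compact convex closed ball of radius `R`:
`Convex.norm_image_sub_le_of_norm_fderiv_le` (for `𝕜 = ℂ`; `convex_closedBall`,
`isCompact_closedBall`). For `R < 0` nothing to do. -/
theorem D5_lip (V : V2 → V2) (hV : ContDiff ℂ ∞ V) (R : ℝ) :
    ∃ L : ℝ, 0 ≤ L ∧ ∀ p q : V2, ‖p‖ ≤ R → ‖q‖ ≤ R → ‖V p - V q‖ ≤ L * ‖p - q‖ := by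
  have hc : Continuous (fderiv ℂ V) := hV.continuous_fderiv (by simp)
  obtain ⟨L, hL⟩ := (isCompact_closedBall (0 : V2) R).exists_bound_of_continuousOn
    hc.continuousOn
  refine ⟨max L 0, le_max_right _ _, fun p q hp hq => ?_⟩
  have hb : ∀ x ∈ Metric.closedBall (0 : V2) R, ‖fderiv ℂ V x‖ ≤ max L 0 :=
    fun x hx => (hL x hx).trans (le_max_left _ _)
  refine (convex_closedBall (0 : V2) R).norm_image_sub_le_of_norm_fderiv_le
    (fun x _ => (hV.differentiable (by simp)).differentiableAt) hb ?_ ?_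
  · rw [Metric.mem_closedBall, dist_zero_right]; exact hq
  · rw [Metric.mem_closedBall, dist_zero_right]; exact hp

end LCC
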