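import Mathlib

/-! Definitions for MP_a802ed_an (cores of strictly pseudoconvex domains in `ℂ × ℂ`). -/

open Complex Set Filter Topology
open scoped ContDiff ComplexConjugate

namespace LCC

/-- the first unit vector of `ℂ × ℂ` -/
def e1 : ℂ × ℂ := (1, 0)

/-- the second unit vector of `ℂ × ℂ` -/
def e2 : ℂ × ℂ := (0, 1)

/-- The Wirtinger derivative `∂F/∂z_j = (1/2)(∂F/∂x_j - i ∂F/∂y_j)`, where `v` is the `j`-th unit
vector (so `∂/∂x_j` is the real derivative in the direction `v` and `∂/∂y_j` the one in the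
direction `i v`). -/
noncomputable def dz (v : ℂ × ℂ) (F : ℂ × ℂ → ℂ) (z : ℂ × ℂ) : ℂ :=
  (1 / 2) * (fderiv ℝ F z v - I * fderiv ℝ F z (I • v))

/-- The Wirtinger derivative `∂F/∂z̄_j = (1/2)(∂F/∂x_j + i ∂F/∂y_j)`, `v` the `j`-th unit vector. -/
noncomputable def dzbar (v : ℂ × ℂ) (F : ℂ × ℂ → ℂ) (z : ℂ × ℂ) : ℂ :=
  (1 / 2) * (fderiv ℝ F z v + I * fderiv ℝ F z (I • v))

/-- the mixed second derivative `∂²φ/∂z_j∂z̄_k` at `z`; `v`, `w` are the `j`-th and `k`-th unit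
vectors -/
noncomputable def mixed (φ : ℂ × ℂ → ℝ) (z v w : ℂ × ℂ) : ℂ :=
  dz v (dzbar w (fun x => (φ x : ℂ))) z

/-- The Levi form `Lev(φ)(z, ξ) = ∑_{j,k} ∂²φ/∂z_j∂z̄_k(z) ξ_j conj(ξ_k)` (a real number for
`C^2` functions `φ`; we take the real part of the sum). -/
noncomputable def Levi (φ : ℂ × ℂ → ℝ) (z ξ : ℂ × ℂ) : ℝ :=
  (mixed φ z e1 e1 * ξ.1 * conj ξ.1 + mixed φ z e1 e2 * ξ.1 * conj ξ.2
    + mixed φ z e2 e1 * ξ.2 * conj ξ.1 + mixed φ z e2 e2 * ξ.2 * conj ξ.2).re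

/-- `φ` is a smooth plurisubharmonic function on the open set `Ω`. -/
def SmoothPSH (Ω : Set (ℂ × ℂ)) (φ : ℂ × ℂ → ℝ) : Prop :=
  ContDiffOn ℝ ∞ φ Ω ∧ ∀ z ∈ Ω, ∀ ξ : ℂ × ℂ, 0 ≤ Levi φ z ξ

/-- `φ` is strictly plurisubharmonic at `z`: the Levi form at `z` is positive definite. -/
def StrictAt (φ : ℂ × ℂ → ℝ) (z : ℂ × ℂ) : Prop := ∀ ξ : ℂ × ℂ, ξ ≠ 0 → 0 < Levi φ z ξ

/-- `Ω` is a strictly pseudoconvex domain with smooth boundary in `ℂ × ℂ` (not assumed bounded):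
`Ω` is open and connected, and every boundary point `p` has a neighbourhood `U` and a smooth
`ρ : U → ℝ`, strictly plurisubharmonic on `U`, with `dρ ≠ 0` on `bΩ ∩ U`, such that
`Ω ∩ U = {ρ < 0}`. -/
def StrictlyPseudoconvex (Ω : Set (ℂ × ℂ)) : Prop :=
  IsOpen Ω ∧ IsConnected Ω ∧ ∀ p ∈ frontier Ω, ∃ U : Set (ℂ × ℂ), IsOpen U ∧ p ∈ U ∧
    ∃ ρ : ℂ × ℂ → ℝ, ContDiffOn ℝ ∞ ρ U ∧ (∀ z ∈ U, StrictAt ρ z) ∧
      (∀ z ∈ frontier Ω ∩ U, fderiv ℝ ρ z ≠ 0) ∧ Ω ∩ U = {z ∈ U | ρ z < 0}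

/-- The core of `Ω`: the points of `Ω` at which no smooth plurisubharmonic function on `Ω` that is
bounded above is strictly plurisubharmonic. -/
def core (Ω : Set (ℂ × ℂ)) : Set (ℂ × ℂ) :=
  {z ∈ Ω | ¬ ∃ φ : ℂ × ℂ → ℝ, SmoothPSH Ω φ ∧ BddAbove (φ '' Ω) ∧ StrictAt φ z}

/-- The negated form of the question: there are a strictly pseudoconvex domain `Ω ⊂ ℂ²` with
smooth boundary, a smooth plurisubharmonic function `φ` on `Ω` bounded above, and a connected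
component `Z` of the core of `Ω` such that `φ` is not constant on `Z`. -/
def NegatedQ1 : Prop :=
  ∃ Ω : Set (ℂ × ℂ), StrictlyPseudoconvex Ω ∧
    ∃ φ : ℂ × ℂ → ℝ, SmoothPSH Ω φ ∧ BddAbove (φ '' Ω) ∧
      ∃ z ∈ core Ω, ∃ w ∈ connectedComponentIn (core Ω) z, φ z ≠ φ w

end LCC
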