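import Mathlib

/-! Levi form calculus (project LCC, MP_a802ed_an). -/

open Complex Set Filter Topology
open scoped ContDiff

namespace LCC

section
variable {E F : Type*} [NormedAddCommGroup E] [NormedSpace ℂ E]
  [NormedAddCommGroup F] [NormedSpace ℂ F]

/-- The Levi form of a real function on a complex normed space. -/
noncomputable def lev (φ : E → ℝ) (z ξ : E) : ℝ :=
  (1 / 4) * (fderiv ℝ (fderiv ℝ φ) z ξ ξ + fderiv ℝ (fderiv ℝ φ) z (I • ξ) (I • ξ))

/-- the real derivative of a holomorphic map -/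
theorem fderiv_real_eq {h : E → F} {z : E} (hh : DifferentiableAt ℂ h z) :
    fderiv ℝ h z = (fderiv ℂ h z).restrictScalars ℝ :=
  (hh.hasFDerivAt.restrictScalars ℝ).fderiv

theorem fderiv2_comp {φ : F → ℝ} {h : E → F} {z : E} (hφ : ContDiffAt ℝ 2 φ (h z))
    (hh : ContDiffAt ℂ 2 h z) (ξ : E) :
    fderiv ℝ (fderiv ℝ (φ ∘ h)) z ξ ξ =
      fderiv ℝ (fderiv ℝ φ) (h z) (fderiv ℂ h z ξ) (fderiv ℂ h z ξ)
        + fderiv ℝ φ (h z) (fderiv ℂ (fderiv ℂ h) z ξ ξ) := by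
  have hhR : ContDiffAt ℝ 2 h z := hh.restrict_scalars ℝ
  have hcomp : ContDiffAt ℝ 2 (φ ∘ h) z := ContDiffAt.comp z hφ hhR
  -- differentiability of the first derivatives
  have d1 : DifferentiableAt ℝ (fderiv ℝ (φ ∘ h)) z :=
    (hcomp.fderiv_right (m := 1) (by norm_num)).differentiableAt (by norm_num)
  have d2 : DifferentiableAt ℝ (fderiv ℝ φ) (h z) :=
    (hφ.fderiv_right (m := 1) (by norm_num)).differentiableAt (by norm_num)
  have d3 : DifferentiableAt ℂ (fderiv ℂ h) z :=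
    (hh.fderiv_right (m := 1) (by norm_num)).differentiableAt (by norm_num)
  have dh : DifferentiableAt ℂ h z := hh.differentiableAt (by norm_num)
  have e1 : fderiv ℝ (fderiv ℝ (φ ∘ h)) z ξ ξ = fderiv ℝ (fun x => fderiv ℝ (φ ∘ h) x ξ) z ξ := by
    have := (d1.hasFDerivAt.clm_apply (hasFDerivAt_const ξ z)).fderiv
    rw [this]; simp
  have ev : (fun x => fderiv ℝ (φ ∘ h) x ξ) =ᶠ[𝓝 z]
      fun x => fderiv ℝ φ (h x) (fderiv ℂ h x ξ) := by
    have c1 : ∀ᶠ x in 𝓝 z, ContDiffAt ℂ 2 h x := hh.eventually (by simp)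
    have c2 : ∀ᶠ y in 𝓝 (h z), ContDiffAt ℝ 2 φ y := hφ.eventually (by simp)
    have c3 : ∀ᶠ x in 𝓝 z, ContDiffAt ℝ 2 φ (h x) := dh.continuousAt.eventually c2
    filter_upwards [c1, c3] with x hx1 hx3
    have dx : DifferentiableAt ℂ h x := hx1.differentiableAt (by norm_num)
    have dφ : DifferentiableAt ℝ φ (h x) := hx3.differentiableAt (by norm_num)
    rw [fderiv_comp x dφ (dx.restrictScalars ℝ), fderiv_real_eq dx]
    rfl
  rw [e1, ev.fderiv_eq]
  have hu : HasFDerivAt (fun x => fderiv ℂ h x ξ)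
      (((ContinuousLinearMap.apply ℂ F ξ).comp (fderiv ℂ (fderiv ℂ h) z)).restrictScalars ℝ) z := by
    have := ((ContinuousLinearMap.apply ℂ F ξ).hasFDerivAt.comp z d3.hasFDerivAt)
    exact this.restrictScalars ℝ
  have hc : HasFDerivAt (fun x => fderiv ℝ φ (h x))
      ((fderiv ℝ (fderiv ℝ φ) (h z)).comp ((fderiv ℂ h z).restrictScalars ℝ)) z :=
    d2.hasFDerivAt.comp z (dh.hasFDerivAt.restrictScalars ℝ)
  have := (hc.clm_apply hu).fderiv
  rw [this]
  simp [add_comm]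


theorem lev_comp {φ : F → ℝ} {h : E → F} {z : E} (hφ : ContDiffAt ℝ 2 φ (h z))
    (hh : ContDiffAt ℂ 2 h z) (ξ : E) :
    lev (φ ∘ h) z ξ = lev φ (h z) (fderiv ℂ h z ξ) := by
  unfold lev
  rw [fderiv2_comp hφ hh, fderiv2_comp hφ hh]
  have e1 : fderiv ℂ h z (I • ξ) = I • fderiv ℂ h z ξ := by simp
  have e2 : fderiv ℂ (fderiv ℂ h) z (I • ξ) (I • ξ) = - fderiv ℂ (fderiv ℂ h) z ξ ξ := by
    rw [map_smul, map_smul, FunLike.coe_smul, Pi.smul_apply, smul_smul, I_mul_I, neg_one_smul]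
  rw [e1, e2, map_neg]
  ring

end

end LCC
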