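import Mathlib
import Pool.Agent.LCC.Lev

/-! Levi forms of `|h|^2` and `Re h`, additivity (project LCC, MP_a802ed_an). -/

open Complex Set Filter Topology
open scoped ContDiff

namespace LCC

section
variable {E : Type*} [NormedAddCommGroup E] [NormedSpace ℂ E]

theorem lev_add {φ ψ : E → ℝ} {z : E} (hφ : ContDiffAt ℝ 2 φ z) (hψ : ContDiffAt ℝ 2 ψ z) (ξ : E) :
    lev (fun x => φ x + ψ x) z ξ = lev φ z ξ + lev ψ z ξ := by
  have d1 : DifferentiableAt ℝ (fderiv ℝ φ) z :=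
    (hφ.fderiv_right (m := 1) (by norm_num)).differentiableAt (by norm_num)
  have d2 : DifferentiableAt ℝ (fderiv ℝ ψ) z :=
    (hψ.fderiv_right (m := 1) (by norm_num)).differentiableAt (by norm_num)
  have ev : fderiv ℝ (fun x => φ x + ψ x) =ᶠ[𝓝 z] fun x => fderiv ℝ φ x + fderiv ℝ ψ x := by
    filter_upwards [hφ.eventually (by simp), hψ.eventually (by simp)] with x h1 h2
    exact fderiv_fun_add (h1.differentiableAt (by norm_num)) (h2.differentiableAt (by norm_num))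
  have e2 : fderiv ℝ (fderiv ℝ (fun x => φ x + ψ x)) z
      = fderiv ℝ (fderiv ℝ φ) z + fderiv ℝ (fderiv ℝ ψ) z := by
    rw [ev.fderiv_eq]
    exact fderiv_fun_add d1 d2
  unfold lev
  rw [e2]
  simp only [FunLike.coe_add, Pi.add_apply]
  ring

theorem lev_sub_const {φ : E → ℝ} {z : E} (c : ℝ) (ξ : E) :
    lev (fun x => φ x - c) z ξ = lev φ z ξ := by
  unfold lev
  have : fderiv ℝ (fun x => φ x - c) = fderiv ℝ φ := by
    funext x
    rw [fderiv_sub_const]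
  rw [this]

theorem lev_congr {φ ψ : E → ℝ} {z : E} (h : φ =ᶠ[𝓝 z] ψ) (ξ : E) : lev φ z ξ = lev ψ z ξ := by
  unfold lev
  have : fderiv ℝ φ =ᶠ[𝓝 z] fderiv ℝ ψ := h.fderiv
  rw [this.fderiv_eq]

/-- the function `‖w‖^2` on the plane -/
theorem contDiff_normSq : ContDiff ℝ ∞ (fun w : ℂ => ‖w‖ ^ 2) := contDiff_norm_sq ℝ

theorem lev_normSq (w η : ℂ) : lev (fun w : ℂ => ‖w‖ ^ 2) w η = ‖η‖ ^ 2 := by
  have h1 : fderiv ℝ (fun w : ℂ => ‖w‖ ^ 2) = fun w => 2 • (innerSL ℝ w) := by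
    funext w
    exact fderiv_norm_sq_apply w
  have h2 : HasFDerivAt (fun w : ℂ => 2 • (innerSL ℝ w : ℂ →L[ℝ] ℝ))
      (2 • (innerSL ℝ : ℂ →L[ℝ] ℂ →L[ℝ] ℝ)) w :=
    ((innerSL ℝ : ℂ →L[ℝ] ℂ →L[ℝ] ℝ).hasFDerivAt).const_smul 2
  have h3 : ∀ x : ℂ, fderiv ℝ (fderiv ℝ (fun w : ℂ => ‖w‖ ^ 2)) w x x = 2 * ‖x‖ ^ 2 := by
    intro x
    rw [h1, h2.fderiv]
    have : (2 • (innerSL ℝ : ℂ →L[ℝ] ℂ →L[ℝ] ℝ)) x x = 2 • (innerSL ℝ x x) := rfl
    rw [this, innerSL_apply_apply, real_inner_self_eq_norm_sq]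
    simp
  unfold lev
  rw [h3, h3, smul_eq_mul, norm_mul, norm_I]
  ring

theorem lev_re (w η : ℂ) : lev (fun w : ℂ => w.re) w η = 0 := by
  have h1 : fderiv ℝ (fun w : ℂ => w.re) = fun _ => Complex.reCLM := by
    funext w
    exact Complex.reCLM.fderiv
  unfold lev
  rw [h1]
  simp

end

end LCC
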