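import Mathlib
import Pool.Agent.LCC.Defs
import Pool.Agent.LCC.Lev

/-! The Levi form by Wirtinger derivatives equals the Levi form by the real Hessian. -/

open Complex Set Filter Topology
open scoped ContDiff ComplexConjugate

namespace LCC

theorem mixed_eq {φ : ℂ × ℂ → ℝ} {z : ℂ × ℂ} (hφ : ContDiffAt ℝ 2 φ z) (v w : ℂ × ℂ) :
    mixed φ z v w = (1 / 4) * (((fderiv ℝ (fderiv ℝ φ) z v w
        + fderiv ℝ (fderiv ℝ φ) z (I • v) (I • w) : ℝ) : ℂ)
      + I * ((fderiv ℝ (fderiv ℝ φ) z v (I • w)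
        - fderiv ℝ (fderiv ℝ φ) z (I • v) w : ℝ) : ℂ)) := by
  have d1 : DifferentiableAt ℝ (fderiv ℝ φ) z :=
    (hφ.fderiv_right (m := 1) (by norm_num)).differentiableAt (by norm_num)
  have ev : dzbar w (fun x => (φ x : ℂ)) =ᶠ[𝓝 z]
      fun x => (1 / 2) * (((fderiv ℝ φ x w : ℝ) : ℂ) + I * ((fderiv ℝ φ x (I • w) : ℝ) : ℂ)) := by
    filter_upwards [hφ.eventually (by simp)] with x hx
    have dx : DifferentiableAt ℝ φ x := hx.differentiableAt (by norm_num)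
    have h1 : fderiv ℝ (fun x => (φ x : ℂ)) x = Complex.ofRealCLM.comp (fderiv ℝ φ x) :=
      (Complex.ofRealCLM.hasFDerivAt.comp x dx.hasFDerivAt).fderiv
    simp only [dzbar, h1, ContinuousLinearMap.comp_apply, Complex.ofRealCLM_apply]
  have hd : ∀ y : ℂ × ℂ, HasFDerivAt (fun x => ((fderiv ℝ φ x y : ℝ) : ℂ))
      (Complex.ofRealCLM.comp ((fderiv ℝ (fderiv ℝ φ) z).flip y)) z := by
    intro y
    have h1 : HasFDerivAt (fun x => fderiv ℝ φ x y) ((fderiv ℝ (fderiv ℝ φ) z).flip y) z := by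
      have := d1.hasFDerivAt.clm_apply (hasFDerivAt_const y z)
      simpa using this
    exact Complex.ofRealCLM.hasFDerivAt.comp z h1
  have hD := ((hd w).add ((hd (I • w)).const_mul I)).const_mul (1 / 2 : ℂ)
  have e : fderiv ℝ (dzbar w (fun x => (φ x : ℂ))) z = _ := ev.fderiv_eq.trans hD.fderiv
  unfold mixed
  simp only [dz, e]
  simp only [FunLike.coe_smul, FunLike.coe_add, Pi.add_apply, Pi.smul_apply,
    ContinuousLinearMap.comp_apply, ContinuousLinearMap.flip_apply, Complex.ofRealCLM_apply,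
    smul_eq_mul]
  push_cast
  linear_combination (-1/4 : ℂ) * ((fderiv ℝ (fderiv ℝ φ) z (I • v) (I • w) : ℝ) : ℂ) * I_mul_I

theorem Levi_eq {φ : ℂ × ℂ → ℝ} {z : ℂ × ℂ} (hφ : ContDiffAt ℝ 2 φ z) (ξ : ℂ × ℂ) :
    Levi φ z ξ = lev φ z ξ := by
  obtain ⟨⟨a, b⟩, ⟨c, d⟩⟩ := ξ
  have h1 : (((⟨a, b⟩ : ℂ), (⟨c, d⟩ : ℂ)) : ℂ × ℂ)
      = a • e1 + b • (I • e1) + c • e2 + d • (I • e2) := by
    refine Prod.ext ?_ ?_ <;> refine Complex.ext ?_ ?_ <;> simp [e1, e2]
  have h2 : I • (((⟨a, b⟩ : ℂ), (⟨c, d⟩ : ℂ)) : ℂ × ℂ)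
      = a • (I • e1) - b • e1 + c • (I • e2) - d • e2 := by
    refine Prod.ext ?_ ?_ <;> refine Complex.ext ?_ ?_ <;> simp [e1, e2]
  unfold lev Levi
  rw [h2, h1]
  simp only [mixed_eq hφ]
  generalize fderiv ℝ (fderiv ℝ φ) z = A
  simp only [map_add, map_sub, map_smul, FunLike.coe_smul, FunLike.coe_add, FunLike.coe_sub,
    Pi.add_apply, Pi.sub_apply, Pi.smul_apply, smul_eq_mul]
  generalize A e1 e1 = x1
  generalize A e1 e2 = x2
  generalize A e1 (I • e1) = x3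
  generalize A e1 (I • e2) = x4
  generalize A e2 e1 = x5
  generalize A e2 e2 = x6
  generalize A e2 (I • e1) = x7
  generalize A e2 (I • e2) = x8
  generalize A (I • e1) e1 = y1
  generalize A (I • e1) e2 = y2
  generalize A (I • e1) (I • e1) = y3
  generalize A (I • e1) (I • e2) = y4
  generalize A (I • e2) e1 = y5
  generalize A (I • e2) e2 = y6
  generalize A (I • e2) (I • e1) = y7
  generalize A (I • e2) (I • e2) = y8
  simp [e1, e2, Complex.add_re, Complex.mul_re, Complex.mul_im]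
  ring

end LCC
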