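import Mathlib
import Pool.Agent.LCC.Lev

/-! Liouville theorem for smooth subharmonic functions on the complex plane that are bounded
above (project LCC, MP_a802ed_an). -/

open Complex Set Filter Topology
open scoped ContDiff

namespace LCC

theorem hasDerivAt_intervalIntegral_of_cont {f f' : ℝ → ℝ → ℝ} {a b : ℝ}
    (hf : ∀ s, Continuous (f s)) (hf' : Continuous (fun p : ℝ × ℝ => f' p.1 p.2))
    (hd : ∀ s θ, HasDerivAt (fun s => f s θ) (f' s θ) s) (s : ℝ) :
    HasDerivAt (fun s => ∫ θ in a..b, f s θ) (∫ θ in a..b, f' s θ) s := by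
  have hK : IsCompact ((Metric.closedBall s 1) ×ˢ (Set.uIcc a b)) :=
    (isCompact_closedBall s 1).prod isCompact_uIcc
  obtain ⟨C, hC⟩ := hK.exists_bound_of_continuousOn hf'.continuousOn
  have hfs : Continuous (f' s) := hf'.comp (Continuous.prodMk_right s)
  refine (intervalIntegral.hasDerivAt_integral_of_dominated_loc_of_deriv_le
    (bound := fun _ => C) (s := Metric.closedBall s 1)
    (Metric.closedBall_mem_nhds s one_pos) ?_ ?_ ?_ ?_ ?_ ?_).2
  · exact Filter.Eventually.of_forall fun x => (hf x).aestronglyMeasurable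
  · exact (hf s).intervalIntegrable a b
  · exact hfs.aestronglyMeasurable
  · refine Filter.Eventually.of_forall fun t ht x hx => ?_
    exact hC (x, t) ⟨hx, Set.uIoc_subset_uIcc ht⟩
  · exact intervalIntegrable_const
  · exact Filter.Eventually.of_forall fun t _ x _ => hd x t

/-- a function on the line with monotone derivative that is bounded above has zero derivative -/
theorem deriv_zero_of_convex_bdd {m m' : ℝ → ℝ} (hm : ∀ s, HasDerivAt m (m' s) s)
    (hmono : Monotone m') {C : ℝ} (hC : ∀ s, m s ≤ C) (s : ℝ) : m' s = 0 := by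
  have key : ∀ x y, m x + m' x * (y - x) ≤ m y := by
    intro x y
    rcases lt_trichotomy x y with h | h | h
    · obtain ⟨c, hc, hc2⟩ := exists_hasDerivAt_eq_slope m m' h
        (fun z _ => (hm z).continuousAt.continuousWithinAt) (fun z _ => hm z)
      have h1 : m' x ≤ m' c := hmono hc.1.le
      have h2 : 0 < y - x := by linarith
      have h3 : m' c * (y - x) = m y - m x := by rw [hc2]; field_simp
      nlinarith
    · subst h; simp
    · obtain ⟨c, hc, hc2⟩ := exists_hasDerivAt_eq_slope m m' h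
        (fun z _ => (hm z).continuousAt.continuousWithinAt) (fun z _ => hm z)
      have h1 : m' c ≤ m' x := hmono hc.2.le
      have h2 : 0 < x - y := by linarith
      have h3 : m' c * (x - y) = m x - m y := by rw [hc2]; field_simp
      nlinarith
  by_contra hne
  -- choose y with m s + m' s * (y - s) > C
  have := key s (s + (C - m s + 1) / m' s)
  have h2 : m' s * (s + (C - m s + 1) / m' s - s) = C - m s + 1 := by
    field_simp
    ring
  have h3 := hC (s + (C - m s + 1) / m' s)
  linarith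

/-- smooth subharmonic functions on the plane, bounded above, are harmonic -/
theorem liouville {u : ℂ → ℝ} (hu : ContDiff ℝ ∞ u) (hlev : ∀ z ξ, 0 ≤ lev u z ξ)
    (hb : ∃ C, ∀ z, u z ≤ C) (z : ℂ) : lev u z 1 = 0 := by
  obtain ⟨C, hC⟩ := hb
  set E : ℂ → ℂ := fun ζ => (z - 1) + Complex.exp ζ with hE
  have hEs : ContDiff ℂ ∞ E := contDiff_const.add Complex.contDiff_exp
  set U : ℂ → ℝ := u ∘ E with hU
  have hUs : ContDiff ℝ ∞ U := hu.comp (hEs.restrict_scalars ℝ)
  have hlevU : ∀ ζ, 0 ≤ lev U ζ 1 := by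
    intro ζ
    rw [hU, lev_comp (hu.contDiffAt.of_le (by norm_cast)) (hEs.contDiffAt.of_le (by norm_cast))]
    exact hlev _ _
  have hper : ∀ ζ, U (ζ + 2 * Real.pi * I) = U ζ := by
    intro ζ
    simp only [hU, hE, Function.comp]
    rw [Complex.exp_periodic]
  -- derivatives
  have hU1 : ContDiff ℝ ∞ (fderiv ℝ U) := hUs.fderiv_right (by simp)
  have hU2 : Continuous (fderiv ℝ (fderiv ℝ U)) := (hU1.continuous_fderiv (by simp))
  have dU : Differentiable ℝ U := hUs.differentiable (by simp)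
  have dU1 : Differentiable ℝ (fderiv ℝ U) := hU1.differentiable (by simp)
  let e : ℝ → ℝ → ℂ := fun s θ => (s : ℂ) + θ * I
  have he : Continuous (fun p : ℝ × ℝ => e p.1 p.2) := by fun_prop
  have hes : ∀ s θ, HasDerivAt (fun s => e s θ) 1 s := by
    intro s θ
    exact (Complex.ofRealCLM.hasDerivAt (x := s)).add_const _
  have heθ : ∀ s θ, HasDerivAt (fun θ => e s θ) I θ := by
    intro s θ
    have h := ((Complex.ofRealCLM.hasDerivAt (x := θ)).mul_const I).const_add (s : ℂ)
    rw [Complex.ofRealCLM_apply, Complex.ofReal_one, one_mul] at h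
    exact h
  have f0 : ∀ s θ, HasDerivAt (fun s => U (e s θ)) (fderiv ℝ U (e s θ) 1) s := by
    intro s θ
    exact (dU _).hasFDerivAt.comp_hasDerivAt s (hes s θ)
  have f1 : ∀ s θ, HasDerivAt (fun s => fderiv ℝ U (e s θ) 1)
      (fderiv ℝ (fderiv ℝ U) (e s θ) 1 1) s := by
    intro s θ
    have := ((dU1 _).hasFDerivAt.comp_hasDerivAt s (hes s θ)).clm_apply (hasDerivAt_const s (1 : ℂ))
    simpa using this
  have g1 : ∀ s θ, HasDerivAt (fun θ => fderiv ℝ U (e s θ) I)
      (fderiv ℝ (fderiv ℝ U) (e s θ) I I) θ := by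
    intro s θ
    have := ((dU1 _).hasFDerivAt.comp_hasDerivAt θ (heθ s θ)).clm_apply (hasDerivAt_const θ (I : ℂ))
    simpa using this
  have c0 : Continuous (fun p : ℝ × ℝ => U (e p.1 p.2)) := hUs.continuous.comp he
  have c1 : Continuous (fun p : ℝ × ℝ => fderiv ℝ U (e p.1 p.2) 1) :=
    (hU1.continuous.comp he).clm_apply continuous_const
  have c2 : Continuous (fun p : ℝ × ℝ => fderiv ℝ (fderiv ℝ U) (e p.1 p.2) 1 1) :=
    ((hU2.comp he).clm_apply continuous_const).clm_apply continuous_const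
  have c3 : Continuous (fun p : ℝ × ℝ => fderiv ℝ (fderiv ℝ U) (e p.1 p.2) I I) :=
    ((hU2.comp he).clm_apply continuous_const).clm_apply continuous_const
  set m : ℝ → ℝ := fun s => ∫ θ in (0:ℝ)..(2 * Real.pi), U (e s θ) with hm
  set m1 : ℝ → ℝ := fun s => ∫ θ in (0:ℝ)..(2 * Real.pi), fderiv ℝ U (e s θ) 1 with hm1
  have Hm : ∀ s, HasDerivAt m (m1 s) s := fun s =>
    hasDerivAt_intervalIntegral_of_cont (fun s => c0.comp (Continuous.prodMk_right s)) c1 f0 s
  have Hm1 : ∀ s, HasDerivAt m1 (∫ θ in (0:ℝ)..(2 * Real.pi), fderiv ℝ (fderiv ℝ U) (e s θ) 1 1) s :=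
    fun s => hasDerivAt_intervalIntegral_of_cont (fun s => c1.comp (Continuous.prodMk_right s)) c2 f1 s
  have i2 : ∀ s, (∫ θ in (0:ℝ)..(2 * Real.pi), fderiv ℝ (fderiv ℝ U) (e s θ) I I) = 0 := by
    intro s
    have h1 := intervalIntegral.integral_eq_sub_of_hasDerivAt (a := 0) (b := 2 * Real.pi)
      (fun θ _ => g1 s θ) ((c3.comp (Continuous.prodMk_right s)).intervalIntegrable _ _)
    rw [h1]
    have h2 : fderiv ℝ U (e s (2 * Real.pi)) = fderiv ℝ U (e s 0) := by
      have h3 : (fun ζ => U (ζ + 2 * Real.pi * I)) = U := funext hper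
      have h4 : fderiv ℝ (fun ζ => U (ζ + 2 * Real.pi * I)) (e s 0) = fderiv ℝ U (e s 0 + 2 * Real.pi * I) :=
        fderiv_comp_add_right _
      rw [h3] at h4
      rw [h4]
      congr 1
      simp [e]
    rw [h2, sub_self]
  have i3 : ∀ s, (∫ θ in (0:ℝ)..(2 * Real.pi), fderiv ℝ (fderiv ℝ U) (e s θ) 1 1)
      = ∫ θ in (0:ℝ)..(2 * Real.pi), 4 * lev U (e s θ) 1 := by
    intro s
    have h1 : (fun θ => 4 * lev U (e s θ) 1) = fun θ => fderiv ℝ (fderiv ℝ U) (e s θ) 1 1
        + fderiv ℝ (fderiv ℝ U) (e s θ) I I := by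
      funext θ
      simp only [lev, smul_eq_mul, mul_one]
      ring
    have k2 : IntervalIntegrable (fun θ => fderiv ℝ (fderiv ℝ U) (e s θ) 1 1)
        MeasureTheory.volume 0 (2 * Real.pi) :=
      (c2.comp (Continuous.prodMk_right s)).intervalIntegrable _ _
    have k3 : IntervalIntegrable (fun θ => fderiv ℝ (fderiv ℝ U) (e s θ) I I)
        MeasureTheory.volume 0 (2 * Real.pi) :=
      (c3.comp (Continuous.prodMk_right s)).intervalIntegrable _ _
    rw [h1, intervalIntegral.integral_add k2 k3, i2, add_zero]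
  have hmono : Monotone m1 := by
    refine monotone_of_hasDerivAt_nonneg Hm1 fun s => ?_
    show 0 ≤ _
    rw [i3]
    refine intervalIntegral.integral_nonneg (by positivity) fun θ _ => ?_
    have := hlevU (e s θ)
    positivity
  have hbd : ∀ s, m s ≤ 2 * Real.pi * C := by
    intro s
    have : m s ≤ ∫ θ in (0:ℝ)..(2 * Real.pi), C :=
      intervalIntegral.integral_mono (by positivity)
        ((c0.comp (Continuous.prodMk_right s)).intervalIntegrable _ _)
        intervalIntegrable_const (fun θ => hC _)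
    simpa using this
  have hz : ∀ s, m1 s = 0 := deriv_zero_of_convex_bdd Hm hmono hbd
  have hz2 : (∫ θ in (0:ℝ)..(2 * Real.pi), 4 * lev U (e 0 θ) 1) = 0 := by
    rw [← i3]
    have h1 : m1 = fun _ => 0 := funext hz
    have h2 := (Hm1 0).deriv
    rw [h1] at h2
    simpa using h2.symm
  have c4 : Continuous (fun θ => 4 * lev U (e 0 θ) 1) := by
    have h1 : (fun θ => 4 * lev U (e 0 θ) 1) = fun θ => fderiv ℝ (fderiv ℝ U) (e 0 θ) 1 1
        + fderiv ℝ (fderiv ℝ U) (e 0 θ) I I := by
      funext θ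
      simp only [lev, smul_eq_mul, mul_one]
      ring
    rw [h1]
    exact (c2.comp (Continuous.prodMk_right 0)).add (c3.comp (Continuous.prodMk_right 0))
  have hz3 : lev U (e 0 0) 1 = 0 := by
    by_contra hne
    have hpos : 0 < 4 * lev U (e 0 0) 1 := by
      have := hlevU (e 0 0)
      have h5 : 0 < lev U (e 0 0) 1 := lt_of_le_of_ne this (Ne.symm hne)
      positivity
    have h6 : 0 < ∫ θ in (0:ℝ)..(2 * Real.pi), 4 * lev U (e 0 θ) 1 := by
      refine intervalIntegral.integral_pos (by positivity) c4.continuousOn (fun θ _ => ?_)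
        ⟨0, ⟨le_refl _, by positivity⟩, hpos⟩
      have := hlevU (e 0 θ)
      positivity
    linarith
  have h7 : lev U (e 0 0) 1 = lev u (E (e 0 0)) (fderiv ℂ E (e 0 0) 1) := by
    rw [hU]
    exact lev_comp (hu.contDiffAt.of_le (by norm_cast)) (hEs.contDiffAt.of_le (by norm_cast)) 1
  have h8 : e 0 0 = 0 := by simp [e]
  have h9 : E 0 = z := by simp [hE]
  have h10 : fderiv ℂ E 0 1 = 1 := by
    have : HasDerivAt E (Complex.exp 0) 0 := (Complex.hasDerivAt_exp 0).const_add _
    rw [Complex.exp_zero] at this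
    rw [fderiv_apply_one_eq_deriv, this.deriv]
  rw [h8, h9, h10] at h7
  rw [← h7, ← hz3, h8]

end LCC
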