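import Mathlib
import Pool.Agent.LCC.Defs
import Pool.Agent.LCC.Lev
import Pool.Agent.LCC.LevCalc
import Pool.Agent.LCC.Liou
import Pool.Agent.LCC.LeviEq

/-! The domain block of project LCC (MP_a802ed_an): from the map `(X, Y)` to the domain. -/

open Complex Set Filter Topology
open scoped ContDiff ComplexConjugate

namespace LCC

/-- The data delivered by the construction of the Fatou-Bieberbach map `(X, Y)`. -/
structure Data where
  X : ℂ × ℂ → ℂ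
  Y : ℂ × ℂ → ℂ
  hX : ContDiff ℂ ∞ X
  hY : ContDiff ℂ ∞ Y
  inj : ∀ p ξ, fderiv ℂ X p ξ = 0 → fderiv ℂ Y p ξ = 0 → ξ = 0
  post : ∀ q, ‖X q - 100‖ ≤ 1 → 1 < ‖Y q‖
  c : ℕ → ℝ
  hc : ∀ j, c j ∈ Icc (0 : ℝ) 1
  dense : Icc (0 : ℝ) 1 ⊆ closure (range c)
  g : ℕ → ℂ → ℂ × ℂ
  hg : ∀ j, ContDiff ℂ ∞ (g j)
  gX : ∀ j t, X (g j t) = c j
  gY : ∀ j t, Y (g j t) = t
  σ : ℝ → ℂ × ℂ
  hσ : ContinuousOn σ (Icc 0 1)
  σX : ∀ s ∈ Icc (0 : ℝ) 1, X (σ s) = s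
  σY : ∀ s ∈ Icc (0 : ℝ) 1, Y (σ s) = 0
  σg : ∀ j, σ (c j) = g j 0

namespace Data

variable (D : Data)

/-- the open set `{0 < |X - 100| < 1}` -/
def V : Set (ℂ × ℂ) := {p | D.X p ≠ 100 ∧ ‖D.X p - 100‖ < 1}

noncomputable def h1 (p : ℂ × ℂ) : ℂ := (D.X p - 100)⁻¹
noncomputable def h2 (p : ℂ × ℂ) : ℂ := (D.Y p)⁻¹

/-- the local defining function -/
noncomputable def r (p : ℂ × ℂ) : ℝ := ‖D.h1 p‖ ^ 2 + ‖D.h2 p‖ ^ 2 - 16

/-- the open set whose component is the domain -/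
def O : Set (ℂ × ℂ) := {p | 1 / 2 < ‖D.X p - 100‖} ∪ {p | p ∈ D.V ∧ D.r p < 0}

theorem isOpen_V : IsOpen D.V := by
  have c := D.hX.continuous
  exact (isOpen_ne_fun c continuous_const).inter
    (isOpen_lt (c.sub continuous_const).norm continuous_const)

theorem Y_ne {p : ℂ × ℂ} (hp : p ∈ D.V) : D.Y p ≠ 0 := by
  intro h
  have := D.post p hp.2.le
  rw [h, norm_zero] at this
  linarith

theorem norm_h2_lt {p : ℂ × ℂ} (hp : p ∈ D.V) : ‖D.h2 p‖ < 1 := by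
  have := D.post p hp.2.le
  rw [h2, norm_inv]
  exact inv_lt_one_of_one_lt₀ this

theorem sub_ne {p : ℂ × ℂ} (hp : p ∈ D.V) : D.X p - 100 ≠ 0 := sub_ne_zero.mpr hp.1

theorem cd_h1 {p : ℂ × ℂ} (hp : D.X p ≠ 100) : ContDiffAt ℂ ∞ D.h1 p :=
  (D.hX.contDiffAt.sub contDiffAt_const).inv (sub_ne_zero.mpr hp)

theorem cd_h2 {p : ℂ × ℂ} (hp : p ∈ D.V) : ContDiffAt ℂ ∞ D.h2 p :=
  D.hY.contDiffAt.inv (D.Y_ne hp)

theorem fd_h1 {p : ℂ × ℂ} (hp : D.X p ≠ 100) (ξ : ℂ × ℂ) :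
    fderiv ℂ D.h1 p ξ = -(D.X p - 100)⁻¹ ^ 2 * fderiv ℂ D.X p ξ := by
  have h := ((D.hX.differentiable (by simp) p).hasFDerivAt.sub_const 100)
  have h' := (hasDerivAt_inv (sub_ne_zero.mpr hp)).comp_hasFDerivAt p h
  have : fderiv ℂ D.h1 p = _ := h'.fderiv
  rw [this]
  simp

theorem fd_h2 {p : ℂ × ℂ} (hp : p ∈ D.V) (ξ : ℂ × ℂ) :
    fderiv ℂ D.h2 p ξ = -(D.Y p)⁻¹ ^ 2 * fderiv ℂ D.Y p ξ := by
  have h := ((D.hY.differentiable (by simp) p).hasFDerivAt)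
  have h' := (hasDerivAt_inv (D.Y_ne hp)).comp_hasFDerivAt p h
  have : fderiv ℂ D.h2 p = _ := h'.fderiv
  rw [this]
  simp

theorem cd_r {p : ℂ × ℂ} (hp : p ∈ D.V) : ContDiffAt ℝ ∞ D.r p :=
  ((contDiff_normSq.contDiffAt.comp p ((D.cd_h1 hp.1).restrict_scalars ℝ)).add
    (contDiff_normSq.contDiffAt.comp p ((D.cd_h2 hp).restrict_scalars ℝ))).sub contDiffAt_const

theorem lev_r {p : ℂ × ℂ} (hp : p ∈ D.V) (ξ : ℂ × ℂ) :
    lev D.r p ξ = ‖fderiv ℂ D.h1 p ξ‖ ^ 2 + ‖fderiv ℂ D.h2 p ξ‖ ^ 2 := by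
  have c1 : ContDiffAt ℝ 2 (fun p => ‖D.h1 p‖ ^ 2) p :=
    (contDiff_normSq.contDiffAt.comp p ((D.cd_h1 hp.1).restrict_scalars ℝ)).of_le (by norm_cast)
  have c2 : ContDiffAt ℝ 2 (fun p => ‖D.h2 p‖ ^ 2) p :=
    (contDiff_normSq.contDiffAt.comp p ((D.cd_h2 hp).restrict_scalars ℝ)).of_le (by norm_cast)
  have e : lev D.r p ξ = lev (fun p => (‖D.h1 p‖ ^ 2 + ‖D.h2 p‖ ^ 2) - 16) p ξ := rfl
  rw [e, lev_sub_const, lev_add c1 c2]
  have n1 := lev_comp (φ := fun w : ℂ => ‖w‖ ^ 2) (h := D.h1) (z := p)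
    (contDiff_normSq.contDiffAt.of_le (by norm_cast)) ((D.cd_h1 hp.1).of_le (by norm_cast)) ξ
  have n2 := lev_comp (φ := fun w : ℂ => ‖w‖ ^ 2) (h := D.h2) (z := p)
    (contDiff_normSq.contDiffAt.of_le (by norm_cast)) ((D.cd_h2 hp).of_le (by norm_cast)) ξ
  rw [lev_normSq] at n1 n2
  have m1 : lev (fun p => ‖D.h1 p‖ ^ 2) p ξ = ‖fderiv ℂ D.h1 p ξ‖ ^ 2 := n1
  have m2 : lev (fun p => ‖D.h2 p‖ ^ 2) p ξ = ‖fderiv ℂ D.h2 p ξ‖ ^ 2 := n2
  rw [m1, m2]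

theorem lev_r_pos {p : ℂ × ℂ} (hp : p ∈ D.V) {ξ : ℂ × ℂ} (hξ : ξ ≠ 0) : 0 < lev D.r p ξ := by
  rw [D.lev_r hp]
  by_contra hneg
  have n1 := sq_nonneg ‖fderiv ℂ D.h1 p ξ‖
  have n2 := sq_nonneg ‖fderiv ℂ D.h2 p ξ‖
  have z1 : ‖fderiv ℂ D.h1 p ξ‖ ^ 2 = 0 := by linarith
  have z2 : ‖fderiv ℂ D.h2 p ξ‖ ^ 2 = 0 := by linarith
  rw [sq_eq_zero_iff, norm_eq_zero, D.fd_h1 hp.1] at z1
  rw [sq_eq_zero_iff, norm_eq_zero, D.fd_h2 hp] at z2
  have w1 : fderiv ℂ D.X p ξ = 0 := by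
    rcases mul_eq_zero.mp z1 with h | h
    · exact absurd h (neg_ne_zero.mpr (pow_ne_zero 2 (inv_ne_zero (D.sub_ne hp))))
    · exact h
  have w2 : fderiv ℂ D.Y p ξ = 0 := by
    rcases mul_eq_zero.mp z2 with h | h
    · exact absurd h (neg_ne_zero.mpr (pow_ne_zero 2 (inv_ne_zero (D.Y_ne hp))))
    · exact h
  exact hξ (D.inj p ξ w1 w2)

/-- the differential of `(X, Y)` is onto -/
theorem surj (p : ℂ × ℂ) (a b : ℂ) : ∃ ξ, fderiv ℂ D.X p ξ = a ∧ fderiv ℂ D.Y p ξ = b := by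
  let L : ℂ × ℂ →ₗ[ℂ] ℂ × ℂ :=
    ((fderiv ℂ D.X p).prod (fderiv ℂ D.Y p) : ℂ × ℂ →L[ℂ] ℂ × ℂ)
  have hL : Function.Injective L := by
    rw [injective_iff_map_eq_zero]
    intro ξ hξ
    have h1 : fderiv ℂ D.X p ξ = 0 := congrArg Prod.fst hξ
    have h2 : fderiv ℂ D.Y p ξ = 0 := congrArg Prod.snd hξ
    exact D.inj p ξ h1 h2
  obtain ⟨ξ, hξ⟩ := (LinearMap.injective_iff_surjective.mp hL) (a, b)
  exact ⟨ξ, congrArg Prod.fst hξ, congrArg Prod.snd hξ⟩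

theorem exists_dir {p : ℂ × ℂ} (hp : p ∈ D.V) : ∃ v, fderiv ℝ D.r p v < 0 := by
  obtain ⟨ξ, x1, x2⟩ := D.surj p (D.X p - 100) (D.Y p)
  refine ⟨ξ, ?_⟩
  have d1 : HasFDerivAt D.h1 ((fderiv ℂ D.h1 p).restrictScalars ℝ) p :=
    ((D.cd_h1 hp.1).differentiableAt (by simp)).hasFDerivAt.restrictScalars ℝ
  have d2 : HasFDerivAt D.h2 ((fderiv ℂ D.h2 p).restrictScalars ℝ) p :=
    ((D.cd_h2 hp).differentiableAt (by simp)).hasFDerivAt.restrictScalars ℝ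
  have s1 := d1.norm_sq
  have s2 := d2.norm_sq
  have hr : fderiv ℝ D.r p = _ := ((s1.add s2).sub_const 16).fderiv
  rw [hr]
  have f1 : fderiv ℂ D.h1 p ξ = - D.h1 p := by
    rw [D.fd_h1 hp.1, x1, h1]
    field_simp [D.sub_ne hp]
  have f2 : fderiv ℂ D.h2 p ξ = - D.h2 p := by
    rw [D.fd_h2 hp, x2, h2]
    field_simp [D.Y_ne hp]
  have g1 : (2 • (innerSL ℝ (D.h1 p)).comp ((fderiv ℂ D.h1 p).restrictScalars ℝ) :
      ℂ × ℂ →L[ℝ] ℝ) ξ = -2 * ‖D.h1 p‖ ^ 2 := by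
    have : (2 • (innerSL ℝ (D.h1 p)).comp ((fderiv ℂ D.h1 p).restrictScalars ℝ) :
      ℂ × ℂ →L[ℝ] ℝ) ξ = 2 • (innerSL ℝ (D.h1 p)) (fderiv ℂ D.h1 p ξ) := rfl
    rw [this, f1, map_neg, innerSL_apply_apply, real_inner_self_eq_norm_sq]
    simp
  have g2 : (2 • (innerSL ℝ (D.h2 p)).comp ((fderiv ℂ D.h2 p).restrictScalars ℝ) :
      ℂ × ℂ →L[ℝ] ℝ) ξ = -2 * ‖D.h2 p‖ ^ 2 := by
    have : (2 • (innerSL ℝ (D.h2 p)).comp ((fderiv ℂ D.h2 p).restrictScalars ℝ) :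
      ℂ × ℂ →L[ℝ] ℝ) ξ = 2 • (innerSL ℝ (D.h2 p)) (fderiv ℂ D.h2 p ξ) := rfl
    rw [this, f2, map_neg, innerSL_apply_apply, real_inner_self_eq_norm_sq]
    simp
  have n1 : 0 < ‖D.h1 p‖ := norm_pos_iff.mpr (inv_ne_zero (D.sub_ne hp))
  rw [FunLike.coe_add, Pi.add_apply, g1, g2]
  nlinarith [sq_nonneg ‖D.h2 p‖]

theorem contOn_r : ContinuousOn D.r D.V := fun _ hp => (D.cd_r hp).continuousAt.continuousWithinAt

theorem isOpen_neg : IsOpen {p | p ∈ D.V ∧ D.r p < 0} := by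
  have := D.contOn_r.isOpen_inter_preimage D.isOpen_V (isOpen_Iio (a := (0 : ℝ)))
  exact this

theorem isOpen_O : IsOpen D.O :=
  (isOpen_lt continuous_const (D.hX.continuous.sub continuous_const).norm).union D.isOpen_neg

/-- on `V`, membership in `O` is `r < 0` -/
theorem mem_O_iff {p : ℂ × ℂ} (hp : p ∈ D.V) : p ∈ D.O ↔ D.r p < 0 := by
  constructor
  · rintro (h | h)
    · have h' : 1 / 2 < ‖D.X p - 100‖ := h
      have n1 : ‖D.h1 p‖ < 2 := by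
        rw [h1, norm_inv]
        rw [inv_lt_comm₀ (by linarith) (by norm_num)]
        linarith
      have n2 := D.norm_h2_lt hp
      have n3 := norm_nonneg (D.h1 p)
      have n4 := norm_nonneg (D.h2 p)
      unfold r
      nlinarith
    · exact h.2
  · intro h
    exact Or.inr ⟨hp, h⟩

/-- `O` stays away from `X = 100` -/
theorem O_far {p : ℂ × ℂ} (hp : p ∈ D.O) : 1 / 4 < ‖D.X p - 100‖ := by
  rcases hp with h | h
  · have h' : 1 / 2 < ‖D.X p - 100‖ := h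
    linarith
  · have h0 : 0 < ‖D.X p - 100‖ := norm_pos_iff.mpr (D.sub_ne h.1)
    have h3 : ‖D.h1 p‖ ^ 2 < 16 := by
      have := h.2
      unfold r at this
      nlinarith [sq_nonneg ‖D.h2 p‖]
    have h4 : ‖D.h1 p‖ < 4 := by
      nlinarith [norm_nonneg (D.h1 p)]
    rw [h1, norm_inv, inv_lt_comm₀ h0 (by norm_num)] at h4
    linarith

theorem closure_far {p : ℂ × ℂ} (hp : p ∈ closure D.O) : 1 / 4 ≤ ‖D.X p - 100‖ := by
  have hcl : IsClosed {p | 1 / 4 ≤ ‖D.X p - 100‖} :=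
    isClosed_le continuous_const (D.hX.continuous.sub continuous_const).norm
  exact closure_minimal (fun q hq => (D.O_far hq).le) hcl hp

/-- a closure point of `O` outside `O` lies in `V` and on `r = 0` -/
theorem bdry {p : ℂ × ℂ} (hp : p ∈ closure D.O) (hn : p ∉ D.O) : p ∈ D.V ∧ D.r p = 0 := by
  have h1 := D.closure_far hp
  have h2 : ‖D.X p - 100‖ ≤ 1 / 2 := by
    by_contra h
    exact hn (Or.inl (not_le.mp h))
  have hV : p ∈ D.V := by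
    refine ⟨fun h => ?_, by linarith⟩
    rw [h, sub_self, norm_zero] at h1
    linarith
  refine ⟨hV, le_antisymm ?_ ?_⟩
  · -- limit of points with r < 0
    by_contra hpos
    have hpos' : 0 < D.r p := not_le.mp hpos
    have ev : ∀ᶠ q in 𝓝 p, q ∈ D.V ∧ 0 < D.r q := by
      filter_upwards [D.isOpen_V.mem_nhds hV,
        (D.cd_r hV).continuousAt.eventually (lt_mem_nhds hpos')] with q h1 h2
      exact ⟨h1, h2⟩
    obtain ⟨q, hq, hqO⟩ := mem_closure_iff_nhds.mp hp _ ev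
    have := (D.mem_O_iff hq.1).mp hqO
    linarith [hq.2]
  · by_contra hneg
    exact hn ((D.mem_O_iff hV).mpr (not_le.mp hneg))

/-- near a zero of `r` the set `{r < 0}` lies in one component of `O` -/
theorem local_comp {p : ℂ × ℂ} (hp : p ∈ D.V) (hr : D.r p = 0) :
    ∃ U : Set (ℂ × ℂ), IsOpen U ∧ p ∈ U ∧ U ⊆ D.V ∧ ∀ q1 ∈ U, ∀ q2 ∈ U, D.r q1 < 0 → D.r q2 < 0 →
      connectedComponentIn D.O q1 = connectedComponentIn D.O q2 := by
  obtain ⟨v, hv⟩ := D.exists_dir hp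
  have cfd : ContinuousAt (fun q => fderiv ℝ D.r q v) p := by
    have h1 : ContDiffAt ℝ ∞ (fderiv ℝ D.r) p := (D.cd_r hp).fderiv_right (by simp)
    exact h1.continuousAt.clm_apply continuousAt_const
  have ev : ∀ᶠ q in 𝓝 p, q ∈ D.V ∧ fderiv ℝ D.r q v < 0 := by
    filter_upwards [D.isOpen_V.mem_nhds hp, cfd.eventually (gt_mem_nhds hv)] with q h1 h2
    exact ⟨h1, h2⟩
  obtain ⟨δ, hδ, hball⟩ := Metric.eventually_nhds_iff_ball.mp ev
  -- the time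
  set τ : ℝ := δ / (2 * (‖v‖ + 1)) with hτ
  have hv1 : 0 < ‖v‖ + 1 := by positivity
  have hτ0 : 0 < τ := by positivity
  have hτv : τ * ‖v‖ ≤ δ / 2 := by
    rw [hτ]
    rw [div_mul_eq_mul_div, div_le_div_iff₀ (by positivity) (by norm_num)]
    nlinarith [norm_nonneg v]
  have inball : ∀ q ∈ Metric.ball p (δ / 2), ∀ s ∈ Icc (0 : ℝ) τ, q + s • v ∈ Metric.ball p δ := by
    intro q hq s hs
    rw [mem_ball_iff_norm] at hq ⊢
    have e : q + s • v - p = (q - p) + s • v := by abel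
    have e1 : ‖(q - p) + s • v‖ ≤ ‖q - p‖ + ‖s • v‖ := norm_add_le _ _
    have e2 : ‖s • v‖ = s * ‖v‖ := by rw [norm_smul, Real.norm_of_nonneg hs.1]
    have e3 : s * ‖v‖ ≤ τ * ‖v‖ := mul_le_mul_of_nonneg_right hs.2 (norm_nonneg _)
    rw [e]
    linarith
  have anti : ∀ q ∈ Metric.ball p (δ / 2), StrictAntiOn (fun s : ℝ => D.r (q + s • v)) (Icc 0 τ) := by
    intro q hq
    have hd : ∀ s ∈ Icc (0 : ℝ) τ, HasDerivAt (fun s : ℝ => D.r (q + s • v))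
        (fderiv ℝ D.r (q + s • v) v) s := by
      intro s hs
      have hV := (hball _ (inball q hq s hs)).1
      have h1 : HasFDerivAt D.r (fderiv ℝ D.r (q + s • v)) (q + s • v) :=
        ((D.cd_r hV).differentiableAt (by simp)).hasFDerivAt
      have h2 : HasDerivAt (fun s : ℝ => q + s • v) v s := by
        have := ((hasDerivAt_id s).smul_const v).const_add q
        simpa using this
      exact h1.comp_hasDerivAt s h2
    refine strictAntiOn_of_deriv_neg (convex_Icc 0 τ)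
      (fun s hs => (hd s hs).continuousAt.continuousWithinAt) fun s hs => ?_
    rw [interior_Icc] at hs
    have hs' : s ∈ Icc (0 : ℝ) τ := ⟨hs.1.le, hs.2.le⟩
    rw [(hd s hs').deriv]
    exact (hball _ (inball q hq s hs')).2
  have hpb : p ∈ Metric.ball p (δ / 2) := Metric.mem_ball_self (by positivity)
  have hz : D.r (p + τ • v) < 0 := by
    have := anti p hpb (left_mem_Icc.mpr hτ0.le) (right_mem_Icc.mpr hτ0.le) hτ0
    simpa [hr] using this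
  have hzV : p + τ • v ∈ D.V := (hball _ (inball p hpb τ (right_mem_Icc.mpr hτ0.le))).1
  obtain ⟨η, hη, hηb⟩ := Metric.isOpen_iff.mp D.isOpen_neg (p + τ • v) ⟨hzV, hz⟩
  have key : ∀ q ∈ Metric.ball p (min η (δ / 2)), D.r q < 0 →
      connectedComponentIn D.O q = connectedComponentIn D.O (p + τ • v) := by
    intro q hq hrq
    have hq2 : q ∈ Metric.ball p (δ / 2) := Metric.ball_subset_ball (min_le_right _ _) hq
    have hq1 : q ∈ Metric.ball p η := Metric.ball_subset_ball (min_le_left _ _) hq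
    set S : Set (ℂ × ℂ) := (fun s : ℝ => q + s • v) '' (Icc 0 τ) with hS
    have hSc : IsPreconnected S := by
      refine isPreconnected_Icc.image _ ?_
      fun_prop
    have hSO : S ⊆ D.O := by
      rintro x ⟨s, hs, rfl⟩
      have hV := (hball _ (inball q hq2 s hs)).1
      refine (D.mem_O_iff hV).mpr ?_
      have := (anti q hq2).antitoneOn (left_mem_Icc.mpr hτ0.le) hs hs.1
      simp only [zero_smul, add_zero] at this
      exact lt_of_le_of_lt this hrq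
    have hend : q + τ • v ∈ Metric.ball (p + τ • v) η := by
      rw [mem_ball_iff_norm] at hq1 ⊢
      simpa using hq1
    have hBO : Metric.ball (p + τ • v) η ⊆ D.O := fun x hx =>
      (D.mem_O_iff (hηb hx).1).mpr (hηb hx).2
    have hBc : IsPreconnected (Metric.ball (p + τ • v) η) := (convex_ball _ _).isPreconnected
    have hU : IsPreconnected (S ∪ Metric.ball (p + τ • v) η) :=
      IsPreconnected.union (q + τ • v) ⟨τ, right_mem_Icc.mpr hτ0.le, rfl⟩ hend hSc hBc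
    have hqS : q ∈ S := ⟨0, left_mem_Icc.mpr hτ0.le, by simp⟩
    have := hU.subset_connectedComponentIn (Or.inl hqS) (union_subset hSO hBO)
      (Or.inr (Metric.mem_ball_self hη) : p + τ • v ∈ S ∪ Metric.ball (p + τ • v) η)
    exact connectedComponentIn_eq this
  refine ⟨Metric.ball p (min η (δ / 2)), Metric.isOpen_ball, Metric.mem_ball_self (by positivity),
    fun q hq => (hball q (Metric.ball_subset_ball ((min_le_right _ _).trans (by linarith)) hq)).1, ?_⟩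
  intro q1 h1 q2 h2 r1 r2
  rw [key q1 h1 r1, key q2 h2 r2]

/-- the domain -/
def Om : Set (ℂ × ℂ) := connectedComponentIn D.O (D.σ 0)

theorem norm_sub_100 {s : ℝ} (hs : s ∈ Icc (0 : ℝ) 1) : 99 ≤ ‖(s : ℂ) - 100‖ := by
  have h1 : (s : ℂ) - 100 = ((s - 100 : ℝ) : ℂ) := by push_cast; ring
  rw [h1, Complex.norm_real, Real.norm_eq_abs, abs_of_neg (by linarith [hs.2])]
  linarith [hs.2]

theorem σ_mem_O {s : ℝ} (hs : s ∈ Icc (0 : ℝ) 1) : D.σ s ∈ D.O := by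
  refine Or.inl ?_
  show 1 / 2 < ‖D.X (D.σ s) - 100‖
  rw [D.σX s hs]
  have := norm_sub_100 hs
  linarith

theorem σ0_mem_O : D.σ 0 ∈ D.O := D.σ_mem_O (left_mem_Icc.mpr zero_le_one)

theorem isOpen_Om : IsOpen D.Om := D.isOpen_O.connectedComponentIn

theorem Om_sub : D.Om ⊆ D.O := connectedComponentIn_subset _ _

theorem isConnected_Om : IsConnected D.Om := isConnected_connectedComponentIn_iff.mpr D.σ0_mem_O

theorem frontier_not_mem {p : ℂ × ℂ} (hp : p ∈ frontier D.Om) : p ∉ D.O := by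
  intro hO
  have hcl : p ∈ closure D.Om := frontier_subset_closure hp
  have hnot : p ∉ D.Om := by
    rw [D.isOpen_Om.frontier_eq] at hp
    exact hp.2
  have hnb : connectedComponentIn D.O p ∈ 𝓝 p :=
    D.isOpen_O.connectedComponentIn.mem_nhds (mem_connectedComponentIn hO)
  obtain ⟨y, hy1, hy2⟩ := mem_closure_iff_nhds.mp hcl _ hnb
  have e1 := connectedComponentIn_eq hy1
  have e2 := connectedComponentIn_eq hy2
  apply hnot
  have : p ∈ connectedComponentIn D.O p := mem_connectedComponentIn hO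
  rw [e1, ← e2] at this
  exact this

theorem spc : StrictlyPseudoconvex D.Om := by
  refine ⟨D.isOpen_Om, D.isConnected_Om, fun p hp => ?_⟩
  have hcl : p ∈ closure D.Om := frontier_subset_closure hp
  obtain ⟨hV, hr⟩ := D.bdry (closure_mono D.Om_sub hcl) (D.frontier_not_mem hp)
  obtain ⟨U, hU, hpU, hUV, hcomp⟩ := D.local_comp hV hr
  refine ⟨U, hU, hpU, D.r, fun q hq => (D.cd_r (hUV hq)).contDiffWithinAt, ?_, ?_, ?_⟩
  · intro z hz ξ hξ
    rw [Levi_eq ((D.cd_r (hUV hz)).of_le (by norm_cast))]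
    exact D.lev_r_pos (hUV hz) hξ
  · intro z hz h0
    obtain ⟨v, hv⟩ := D.exists_dir (hUV hz.2)
    rw [h0] at hv
    simp at hv
  · obtain ⟨q0, hq0U, hq0⟩ := mem_closure_iff_nhds.mp hcl _ (hU.mem_nhds hpU)
    have hr0 : D.r q0 < 0 := (D.mem_O_iff (hUV hq0U)).mp (D.Om_sub hq0)
    ext q
    constructor
    · rintro ⟨h1, h2⟩
      exact ⟨h2, (D.mem_O_iff (hUV h2)).mp (D.Om_sub h1)⟩
    · rintro ⟨h1, h2⟩
      refine ⟨?_, h1⟩
      have e1 := hcomp q h1 q0 hq0U h2 hr0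
      have e2 : D.Om = connectedComponentIn D.O q0 := connectedComponentIn_eq hq0
      rw [e2, ← e1]
      exact mem_connectedComponentIn ((D.mem_O_iff (hUV h1)).mpr h2)

/-- the bounded pluriharmonic function -/
noncomputable def phi (p : ℂ × ℂ) : ℝ := (D.h1 p).re

theorem ne_100 {p : ℂ × ℂ} (hp : p ∈ D.O) : D.X p ≠ 100 := by
  intro h
  have := D.O_far hp
  rw [h, sub_self, norm_zero] at this
  linarith

theorem cd_phi {p : ℂ × ℂ} (hp : p ∈ D.O) : ContDiffAt ℝ ∞ D.phi p :=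
  Complex.reCLM.contDiff.contDiffAt.comp p ((D.cd_h1 (D.ne_100 hp)).restrict_scalars ℝ)

theorem phi_psh : SmoothPSH D.Om D.phi := by
  refine ⟨fun p hp => (D.cd_phi (D.Om_sub hp)).contDiffWithinAt, fun p hp ξ => ?_⟩
  have hO := D.Om_sub hp
  rw [Levi_eq ((D.cd_phi hO).of_le (by norm_cast))]
  have := lev_comp (φ := fun w : ℂ => w.re) (h := D.h1) (z := p)
    (Complex.reCLM.contDiff.contDiffAt) ((D.cd_h1 (D.ne_100 hO)).of_le (by norm_cast)) ξ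
  rw [lev_re] at this
  exact this.ge

theorem phi_bdd : BddAbove (D.phi '' D.Om) := by
  refine ⟨4, ?_⟩
  rintro _ ⟨p, hp, rfl⟩
  have hf := D.O_far (D.Om_sub hp)
  have h0 : 0 < ‖D.X p - 100‖ := by linarith
  have h4 : ‖D.h1 p‖ ≤ 4 := by
    rw [h1, norm_inv]
    rw [inv_le_comm₀ h0 (by norm_num)]
    linarith
  exact (Complex.re_le_norm _).trans h4

theorem σ_image_sub : D.σ '' (Icc 0 1) ⊆ D.Om := by
  refine IsPreconnected.subset_connectedComponentIn (isPreconnected_Icc.image _ D.hσ)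
    ⟨0, left_mem_Icc.mpr zero_le_one, rfl⟩ ?_
  rintro _ ⟨s, hs, rfl⟩
  exact D.σ_mem_O hs

theorem g_mem_Om (j : ℕ) (t : ℂ) : D.g j t ∈ D.Om := by
  have h0 : D.g j 0 ∈ D.Om := by
    rw [← D.σg j]
    exact D.σ_image_sub ⟨_, D.hc j, rfl⟩
  have hsub : range (D.g j) ⊆ D.O := by
    rintro _ ⟨t, rfl⟩
    refine Or.inl ?_
    show 1 / 2 < ‖D.X (D.g j t) - 100‖
    rw [D.gX]
    have := norm_sub_100 (D.hc j)
    linarith
  have hcon : IsPreconnected (range (D.g j)) := isPreconnected_range (D.hg j).continuous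
  have := hcon.subset_connectedComponentIn ⟨0, rfl⟩ hsub
  have e : D.Om = connectedComponentIn D.O (D.g j 0) := connectedComponentIn_eq h0
  rw [e]
  exact this ⟨t, rfl⟩

/-- no smooth plurisubharmonic function on the domain that is bounded above is strictly
plurisubharmonic at `g j 0` -/
theorem not_strict {ψ : ℂ × ℂ → ℝ} (hψ : SmoothPSH D.Om ψ) (hb : BddAbove (ψ '' D.Om)) (j : ℕ) :
    ¬ StrictAt ψ (D.g j 0) := by
  intro hs
  have cψ : ∀ t, ContDiffAt ℝ ∞ ψ (D.g j t) := fun t =>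
    hψ.1.contDiffAt (D.isOpen_Om.mem_nhds (D.g_mem_Om j t))
  have cg : ∀ t, ContDiffAt ℂ ∞ (D.g j) t := fun t => (D.hg j).contDiffAt
  have hu : ContDiff ℝ ∞ (ψ ∘ D.g j) := by
    rw [contDiff_iff_contDiffAt]
    intro t
    exact (cψ t).comp t ((cg t).restrict_scalars ℝ)
  have hl : ∀ z ξ, lev (ψ ∘ D.g j) z ξ = lev ψ (D.g j z) (fderiv ℂ (D.g j) z ξ) := fun z ξ =>
    lev_comp ((cψ z).of_le (by norm_cast)) ((cg z).of_le (by norm_cast)) ξ
  have hz : lev (ψ ∘ D.g j) 0 1 = 0 := by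
    refine liouville hu (fun z ξ => ?_) ?_ 0
    · rw [hl, ← Levi_eq ((cψ z).of_le (by norm_cast))]
      exact hψ.2 _ (D.g_mem_Om j z) _
    · obtain ⟨C, hC⟩ := hb
      exact ⟨C, fun z => hC ⟨_, D.g_mem_Om j z, rfl⟩⟩
  have hne : fderiv ℂ (D.g j) 0 1 ≠ 0 := by
    intro h
    have h1 : (fun t => D.Y (D.g j t)) = fun t => t := funext (D.gY j)
    have h2 : HasFDerivAt (fun t => D.Y (D.g j t))
        ((fderiv ℂ D.Y (D.g j 0)).comp (fderiv ℂ (D.g j) 0)) 0 :=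
      (D.hY.differentiable (by simp) _).hasFDerivAt.comp 0
        ((D.hg j).differentiable (by simp) 0).hasFDerivAt
    rw [h1] at h2
    have h3 := h2.unique (hasFDerivAt_id 0)
    have h4 := congrArg (fun L : ℂ →L[ℂ] ℂ => L 1) h3
    simp [h] at h4
  have := hs _ hne
  rw [Levi_eq ((cψ 0).of_le (by norm_cast)), ← hl, hz] at this
  exact lt_irrefl _ this

/-- strict plurisubharmonicity at a point is an open condition -/
theorem strict_open {ψ : ℂ × ℂ → ℝ} {Ω : Set (ℂ × ℂ)} (hΩ : IsOpen Ω) (hψ : ContDiffOn ℝ ∞ ψ Ω)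
    {z : ℂ × ℂ} (hz : z ∈ Ω) (hs : StrictAt ψ z) : ∀ᶠ w in 𝓝 z, StrictAt ψ w := by
  have hat : ∀ w ∈ Ω, ContDiffAt ℝ ∞ ψ w := fun w hw => hψ.contDiffAt (hΩ.mem_nhds hw)
  have hH : ContinuousAt (fderiv ℝ (fderiv ℝ ψ)) z := by
    have h1 : ContDiffAt ℝ ∞ (fderiv ℝ ψ) z := (hat z hz).fderiv_right (by simp)
    have h2 : ContDiffAt ℝ ∞ (fderiv ℝ (fderiv ℝ ψ)) z := h1.fderiv_right (by simp)
    exact h2.continuousAt
  have hc : ∀ ξ : ℂ × ℂ, ContinuousAt (fun q : (ℂ × ℂ) × (ℂ × ℂ) => lev ψ q.1 q.2) (z, ξ) := by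
    intro ξ
    have h1 : ContinuousAt (fun q : (ℂ × ℂ) × (ℂ × ℂ) => fderiv ℝ (fderiv ℝ ψ) q.1) (z, ξ) :=
      ContinuousAt.comp (f := Prod.fst) (x := (z, ξ)) hH continuousAt_fst
    have h2 : ContinuousAt (fun q : (ℂ × ℂ) × (ℂ × ℂ) => q.2) (z, ξ) := continuousAt_snd
    unfold lev
    exact ((((h1.clm_apply h2).clm_apply h2).add ((h1.clm_apply (h2.const_smul I)).clm_apply
      (h2.const_smul I))).const_mul _)
  have hK : IsCompact (Metric.sphere (0 : ℂ × ℂ) 1) := isCompact_sphere _ _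
  have hpos : ∀ ξ ∈ Metric.sphere (0 : ℂ × ℂ) 1, ∀ᶠ q : (ℂ × ℂ) × (ℂ × ℂ) in 𝓝 (z, ξ),
      0 < lev ψ q.1 q.2 := by
    intro ξ hξ
    have h1 : 0 < lev ψ z ξ := by
      rw [← Levi_eq ((hat z hz).of_le (by norm_cast))]
      exact hs ξ (by rintro rfl; simp at hξ)
    exact (hc ξ).eventually (lt_mem_nhds h1)
  have hall : ∀ᶠ w in 𝓝 z, ∀ ξ ∈ Metric.sphere (0 : ℂ × ℂ) 1, 0 < lev ψ w ξ :=
    hK.eventually_forall_of_forall_eventually hpos
  filter_upwards [hall, hΩ.mem_nhds hz] with w hw hwΩ ξ hξ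
  rw [Levi_eq ((hat w hwΩ).of_le (by norm_cast))]
  have hn : 0 < ‖ξ‖ := norm_pos_iff.mpr hξ
  have h1 : (‖ξ‖⁻¹ • ξ) ∈ Metric.sphere (0 : ℂ × ℂ) 1 := by
    rw [mem_sphere_zero_iff_norm, norm_smul, norm_inv, norm_norm, inv_mul_cancel₀ hn.ne']
  have h2 := hw _ h1
  have h3 : lev ψ w (‖ξ‖⁻¹ • ξ) = ‖ξ‖⁻¹ ^ 2 * lev ψ w ξ := by
    unfold lev
    have : I • (‖ξ‖⁻¹ • ξ) = ‖ξ‖⁻¹ • (I • ξ) := smul_comm _ _ _
    rw [this]
    simp only [map_smul, FunLike.coe_smul, Pi.smul_apply, smul_eq_mul]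
    ring
  rw [h3] at h2
  exact (mul_pos_iff_of_pos_left (by positivity)).mp h2

theorem σ_core {s : ℝ} (hs : s ∈ Icc (0 : ℝ) 1) : D.σ s ∈ core D.Om := by
  have hmem : D.σ s ∈ D.Om := D.σ_image_sub ⟨s, hs, rfl⟩
  refine ⟨hmem, ?_⟩
  rintro ⟨ψ, hψ, hb, hst⟩
  have hop := strict_open D.isOpen_Om hψ.1 hmem hst
  -- `σ s` is a limit of the points `σ (c j)`
  have h1 : ∀ᶠ t in 𝓝[Icc (0 : ℝ) 1] s, StrictAt ψ (D.σ t) := (D.hσ s hs).eventually hop
  rw [eventually_nhdsWithin_iff] at h1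
  obtain ⟨t, ht, ⟨j, rfl⟩⟩ := mem_closure_iff_nhds.mp (D.dense hs) _ h1
  have h2 := ht (D.hc j)
  rw [D.σg] at h2
  exact D.not_strict hψ hb j h2

/-- **Q1 is false**, given the data. -/
theorem negated (D : Data) : NegatedQ1 := by
  refine ⟨D.Om, D.spc, D.phi, D.phi_psh, D.phi_bdd, D.σ 0, D.σ_core (left_mem_Icc.mpr zero_le_one),
    D.σ 1, ?_, ?_⟩
  · have h := (isPreconnected_Icc (a := (0 : ℝ)) (b := 1)).image D.σ D.hσ
    refine h.subset_connectedComponentIn ⟨0, left_mem_Icc.mpr zero_le_one, rfl⟩ ?_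
      ⟨1, right_mem_Icc.mpr zero_le_one, rfl⟩
    rintro _ ⟨s, hs, rfl⟩
    exact D.σ_core hs
  · unfold phi h1
    rw [D.σX 0 (left_mem_Icc.mpr zero_le_one), D.σX 1 (right_mem_Icc.mpr zero_le_one)]
    have e0 : (((0 : ℝ) : ℂ) - 100)⁻¹ = ((-1 / 100 : ℝ) : ℂ) := by push_cast; norm_num
    have e1 : (((1 : ℝ) : ℂ) - 100)⁻¹ = ((-1 / 99 : ℝ) : ℂ) := by push_cast; norm_num
    rw [e0, e1, Complex.ofReal_re, Complex.ofReal_re]
    norm_num

end Data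

end LCC
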