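import Pool.Agent.LCC.GDefs

set_option linter.unusedVariables false

open Set Filter Topology
open scoped ContDiff


namespace LCC



theorem G1_uc (W : V2 → V2) (cW : Continuous W) (R ε : ℝ) (hε : 0 < ε) :
    ∃ δ : ℝ, 0 < δ ∧ ∀ q q' : V2, ‖q‖ ≤ R → ‖q'‖ ≤ R → ‖q' - q‖ ≤ δ → ‖W q' - W q‖ ≤ ε := by
  have hc : IsCompact (Metric.closedBall (0 : V2) R) := isCompact_closedBall 0 R
  have hu : UniformContinuousOn W (Metric.closedBall (0 : V2) R) :=
    hc.uniformContinuousOn_of_continuous cW.continuousOn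
  rw [Metric.uniformContinuousOn_iff] at hu
  obtain ⟨δ, hδ, hu⟩ := hu ε hε
  refine ⟨δ / 2, by positivity, fun q q' hq hq' hd => ?_⟩
  have := hu q' (by simpa using hq') q (by simpa using hq) (by rw [dist_eq_norm]; linarith)
  rw [dist_eq_norm] at this
  exact this.le

theorem G1_bd (V : V2 → V2) (cV : Continuous V) (R : ℝ) :
    ∃ B : ℝ, 0 ≤ B ∧ ∀ q : V2, ‖q‖ ≤ R → ‖V q‖ ≤ B := by
  have hc : IsCompact (Metric.closedBall (0 : V2) R) := isCompact_closedBall 0 R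
  obtain ⟨B, hB⟩ := hc.exists_bound_of_continuousOn cV.continuousOn
  exact ⟨max B 0, le_max_right _ _, fun q hq => (hB q (by simpa using hq)).trans (le_max_left _ _)⟩

/-- G1. The sum of two continuous good fields is good. -/
theorem G1_add (V W : V2 → V2) (hV : Good V) (hW : Good W) (cV : Continuous V)
    (cW : Continuous W) : Good (fun q => V q + W q) := by
  intro R A η hR hA hη
  obtain ⟨δ, hδ, hu⟩ := G1_uc W cW (R + 1) (η / (3 * A)) (by positivity)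
  obtain ⟨B, hB0, hB⟩ := G1_bd V cV R
  obtain ⟨τ₁, hτ₁, h1⟩ := hV R A (η / 3) hR hA (by positivity)
  obtain ⟨τ₂, hτ₂, h2⟩ := hW (R + 1) A (η / 3) (by positivity) hA (by positivity)
  refine ⟨min (min τ₁ τ₂) (min δ 1 / (A * B + η + 1)), by positivity, fun τ hτ hτ0 a ha => ?_⟩
  have t1 : τ < τ₁ := lt_of_lt_of_le hτ0 ((min_le_left _ _).trans (min_le_left _ _))
  have t2 : τ < τ₂ := lt_of_lt_of_le hτ0 ((min_le_left _ _).trans (min_le_right _ _))
  have t3 : τ * (A * B + η + 1) ≤ min δ 1 := by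
    have := (lt_of_lt_of_le hτ0 (min_le_right _ _)).le
    rwa [le_div_iff₀ (by positivity)] at this
  obtain ⟨e₁, he₁, hq₁⟩ := h1 τ hτ t1 a ha
  obtain ⟨e₂, he₂, hq₂⟩ := h2 τ hτ t2 a ha
  refine ⟨e₂ * e₁, Aut.mul_mem he₂ he₁, fun q hq => ?_⟩
  rw [Equiv.Perm.mul_apply]
  set q' : V2 := e₁ q with hq'
  have k1 := hq₁ q hq
  rw [← hq'] at k1
  have hna : ‖((τ : ℂ) * a)‖ ≤ τ * A := by
    rw [norm_mul, Complex.norm_real, Real.norm_of_nonneg hτ.le]
    gcongr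
  have k2 : ‖((τ : ℂ) * a) • V q‖ ≤ τ * A * B := by
    rw [norm_smul]
    exact mul_le_mul hna (hB q hq) (norm_nonneg _) (by positivity)
  have k3 : ‖q' - q‖ ≤ min δ 1 := by
    calc ‖q' - q‖ = ‖(q' - q - ((τ : ℂ) * a) • V q) + ((τ : ℂ) * a) • V q‖ := by
          rw [sub_add_cancel]
      _ ≤ ‖q' - q - ((τ : ℂ) * a) • V q‖ + ‖((τ : ℂ) * a) • V q‖ := norm_add_le _ _
      _ ≤ τ * (η / 3) + τ * A * B := add_le_add k1 k2
      _ ≤ τ * (A * B + η + 1) := by nlinarith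
      _ ≤ min δ 1 := t3
  have k4 : ‖q'‖ ≤ R + 1 := by
    calc ‖q'‖ = ‖(q' - q) + q‖ := by rw [sub_add_cancel]
      _ ≤ ‖q' - q‖ + ‖q‖ := norm_add_le _ _
      _ ≤ 1 + R := add_le_add (k3.trans (min_le_right _ _)) hq
      _ = R + 1 := by ring
  have k5 := hq₂ q' k4
  have k6 : ‖((τ : ℂ) * a) • (W q' - W q)‖ ≤ τ * A * (η / (3 * A)) := by
    rw [norm_smul]
    exact mul_le_mul hna (hu q q' (by linarith) k4 (k3.trans (min_le_left _ _)))
      (norm_nonneg _) (by positivity)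
  have k7 : τ * A * (η / (3 * A)) = τ * (η / 3) := by
    field_simp
  rw [k7] at k6
  have heq : e₂ q' - q - ((τ : ℂ) * a) • (V q + W q) =
      (e₂ q' - q' - ((τ : ℂ) * a) • W q') + (q' - q - ((τ : ℂ) * a) • V q)
        + ((τ : ℂ) * a) • (W q' - W q) := by
    rw [smul_add, smul_sub]
    abel
  rw [heq]
  calc _ ≤ ‖e₂ q' - q' - ((τ : ℂ) * a) • W q'‖ + ‖q' - q - ((τ : ℂ) * a) • V q‖
        + ‖((τ : ℂ) * a) • (W q' - W q)‖ := norm_add₃_le
    _ ≤ τ * (η / 3) + τ * (η / 3) + τ * (η / 3) := add_le_add (add_le_add k5 k1) k6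
    _ = τ * η := by ring

end LCC
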