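import Pool.Agent.LCC.GDefs

set_option linter.unusedVariables false

open Set Filter Topology
open scoped ContDiff


namespace LCC



/-- G2a. Multiples of good fields are good. PROOF. `(τ * a) • (c • V q) = (τ * (a * c)) • V q` and
`‖a * c‖ ≤ A ‖c‖ ≤ A ‖c‖ + 1`: use `hV R (A*‖c‖+1) η`. -/
theorem G2_smul (V : V2 → V2) (hV : Good V) (c : ℂ) : Good (fun q => c • V q) := by
  intro R A η hR hA hη
  obtain ⟨τ₀, h0, h⟩ := hV R (A * ‖c‖ + 1) η hR (by positivity) hη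
  refine ⟨τ₀, h0, fun τ hτ hτ' a ha => ?_⟩
  have hn : ‖a * c‖ ≤ A * ‖c‖ + 1 := by
    rw [norm_mul]
    have := mul_le_mul_of_nonneg_right ha (norm_nonneg c)
    linarith
  obtain ⟨e, he, heq⟩ := h τ hτ hτ' (a * c) hn
  refine ⟨e, he, fun q hq => ?_⟩
  have h1 := heq q hq
  have h2 : ((τ : ℂ) * a) • (c • V q) = ((τ : ℂ) * (a * c)) • V q := by
    rw [smul_smul, mul_assoc]
  rw [h2]
  exact h1

/-- G2b. The zero field is good (`e = 1`). -/
theorem G2_zero : Good (fun _ => 0) := by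
  intro R A η hR hA hη
  refine ⟨1, one_pos, fun τ hτ _ a _ => ⟨1, Aut.one_mem, fun q _ => ?_⟩⟩
  rw [Equiv.Perm.one_apply, smul_zero, sub_self, sub_zero, norm_zero]
  positivity

/-- G3. Locally uniform limits of good fields are good.
PROOF. Given `R, A, η` take `W` good with `‖V q - W q‖ ≤ η/(2A)` for `‖q‖ ≤ R`, and `τ₀` from
`Good W` with `R, A, η/2`. Then `‖e q - q - τ a V q‖ ≤ τ η/2 + τ ‖a‖ η/(2A) ≤ τ η`. -/
theorem G3_lim (V : V2 → V2)
    (h : ∀ R η : ℝ, 0 < R → 0 < η → ∃ W : V2 → V2, Good W ∧ ∀ q, ‖q‖ ≤ R → ‖V q - W q‖ ≤ η) :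
    Good V := by
  intro R A η hR hA hη
  obtain ⟨W, hW, hVW⟩ := h R (η / (2 * A)) hR (by positivity)
  obtain ⟨τ₀, h0, hg⟩ := hW R A (η / 2) hR hA (by positivity)
  refine ⟨τ₀, h0, fun τ hτ hτ' a ha => ?_⟩
  obtain ⟨e, he, heq⟩ := hg τ hτ hτ' a ha
  refine ⟨e, he, fun q hq => ?_⟩
  have h1 := heq q hq
  have h2 := hVW q hq
  have h3 : e q - q - ((τ : ℂ) * a) • V q =
      (e q - q - ((τ : ℂ) * a) • W q) - ((τ : ℂ) * a) • (V q - W q) := by
    rw [smul_sub]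
    abel
  have h4 : ‖((τ : ℂ) * a) • (V q - W q)‖ ≤ τ * (η / 2) := by
    rw [norm_smul, norm_mul, Complex.norm_real, Real.norm_of_nonneg hτ.le, mul_assoc]
    refine mul_le_mul_of_nonneg_left ?_ hτ.le
    calc ‖a‖ * ‖V q - W q‖ ≤ A * (η / (2 * A)) :=
          mul_le_mul ha h2 (norm_nonneg _) hA.le
      _ = η / 2 := by field_simp
  rw [h3]
  refine (norm_sub_le _ _).trans ?_
  linarith

end LCC
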