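import Pool.Agent.LCC.GDefs
import Pool.Agent.LCC.A1

set_option linter.unusedVariables false

open Set Filter Topology
open scoped ContDiff


namespace LCC



/-- G4. The shear field is good. -/
theorem G4_shear (l : V2 →L[ℂ] ℂ) (v : V2) (h : l v = 0) :
    Good (fun q => Complex.exp (l q) • v) := by
  intro R A η hR hA hη
  refine ⟨1, one_pos, fun τ hτ _ a ha => ?_⟩
  obtain ⟨e, he, hp⟩ := A1_shear l v ((τ : ℂ) * a) h
  refine ⟨e, he, fun q _ => ?_⟩
  rw [hp]
  have : shearFun l v ((τ : ℂ) * a) q - q - ((τ : ℂ) * a) • Complex.exp (l q) • v = 0 := by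
    unfold shearFun
    rw [smul_smul]
    simp
  rw [this, norm_zero]
  positivity

/-- G5. The overshear field is good. -/
theorem G5_over (l m : V2 →L[ℂ] ℂ) (v : V2) (h : l v = 0) (hm : m v = 1) :
    Good (fun q => (Complex.exp (l q) * m q) • v) := by
  intro R A η hR hA hη
  set B : ℝ := Real.exp (‖l‖ * R) with hB
  have hB0 : 0 < B := Real.exp_pos _
  set K : ℝ := A ^ 2 * B ^ 2 * ‖m‖ * R * ‖v‖ with hK
  have hK0 : 0 ≤ K := by positivity
  refine ⟨min (1 / (A * B)) (η / (K + 1)), by positivity, fun τ hτ hτ0 a ha => ?_⟩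
  have h1 : τ * (A * B) ≤ 1 := by
    have := (lt_of_lt_of_le hτ0 (min_le_left _ _)).le
    rwa [le_div_iff₀ (by positivity)] at this
  have h2 : τ * K ≤ η := by
    have := (lt_of_lt_of_le hτ0 (min_le_right _ _)).le
    rw [le_div_iff₀ (by positivity)] at this
    nlinarith
  obtain ⟨e, he, hp⟩ := A1_over l m v ((τ : ℂ) * a) h hm
  refine ⟨e, he, fun q hq => ?_⟩
  rw [hp]
  set w : ℂ := (τ : ℂ) * a * Complex.exp (l q) with hw
  have hexp : ‖Complex.exp (l q)‖ ≤ B := by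
    rw [Complex.norm_exp, hB]
    apply Real.exp_le_exp.mpr
    calc (l q).re ≤ ‖l q‖ := Complex.re_le_norm _
      _ ≤ ‖l‖ * ‖q‖ := l.le_opNorm q
      _ ≤ ‖l‖ * R := by gcongr
  have hwn : ‖w‖ ≤ τ * A * B := by
    rw [hw, norm_mul, norm_mul, Complex.norm_real, Real.norm_of_nonneg hτ.le]
    gcongr
  have hw1 : ‖w‖ ≤ 1 := by
    refine hwn.trans ?_
    linarith
  have heq : overFun l m v ((τ : ℂ) * a) q - q - ((τ : ℂ) * a) • (Complex.exp (l q) * m q) • v
      = ((Complex.exp w - 1 - w) * m q) • v := by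
    unfold overFun
    rw [smul_smul, hw, add_sub_cancel_left, ← sub_smul]
    congr 1
    ring
  rw [heq, norm_smul, norm_mul]
  have hm1 : ‖m q‖ ≤ ‖m‖ * R := (m.le_opNorm q).trans (by gcongr)
  have h3 : ‖Complex.exp w - 1 - w‖ ≤ ‖w‖ ^ 2 := Complex.norm_exp_sub_one_sub_id_le hw1
  calc ‖Complex.exp w - 1 - w‖ * ‖m q‖ * ‖v‖ ≤ (τ * A * B) ^ 2 * (‖m‖ * R) * ‖v‖ := by
        gcongr
        exact h3.trans (by gcongr)
    _ = τ * (τ * K) := by rw [hK]; ring
    _ ≤ τ * η := by gcongr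

end LCC
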