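import Pool.Agent.LCC.GDefs
import Pool.Agent.LCC.G1
import Pool.Agent.LCC.G2
import Pool.Agent.LCC.G4

set_option linter.unusedVariables false

open Set Filter Topology
open scoped ContDiff


namespace LCC



theorem G6_one (l : V2 →L[ℂ] ℂ) (u : V2) (hu : l u = 1) :
    Good (fun q => Complex.exp (l q) • u) := by
  set α : ℂ := l (1, 0) with hα
  set β : ℂ := l (0, 1) with hβ
  have hl : ∀ q : V2, l q = α * q.1 + β * q.2 := by
    intro q
    have hq : q = q.1 • ((1 : ℂ), (0 : ℂ)) + q.2 • ((0 : ℂ), (1 : ℂ)) := by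
      ext <;> simp
    conv_lhs => rw [hq]
    rw [map_add, map_smul, map_smul, smul_eq_mul, smul_eq_mul, hα, hβ]
    ring
  set v : V2 := (β, -α) with hv
  set m : V2 →L[ℂ] ℂ := u.2 • ContinuousLinearMap.fst ℂ ℂ ℂ -
    u.1 • ContinuousLinearMap.snd ℂ ℂ ℂ with hm
  have hmq : ∀ q : V2, m q = u.2 * q.1 - u.1 * q.2 := by
    intro q
    simp [hm]
  have hlv : l v = 0 := by
    rw [hl, hv]
    ring
  have hmu : m u = 0 := by
    rw [hmq]
    ring
  have hmv : m v = 1 := by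
    rw [hmq, hv, ← hu, hl]
    ring
  refine G3_lim _ fun R η hR hη => ?_
  set μ : ℝ := ‖m‖ * R + 1 with hμ
  have hμ1 : 1 ≤ μ := by
    have : 0 ≤ ‖m‖ * R := by positivity
    linarith
  have hμ0 : 0 < μ := by linarith
  set K : ℝ := Real.exp (‖l‖ * R) * (2 * μ * ‖u‖ + μ ^ 2 * ‖v‖) with hK
  have hK0 : 0 ≤ K := by positivity
  set h : ℝ := min (1 / μ) (η / (K + 1)) with hh
  have hh0 : 0 < h := by
    rw [hh]
    positivity
  have hhμ : h * μ ≤ 1 := by
    have : h ≤ 1 / μ := min_le_left _ _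
    rwa [le_div_iff₀ hμ0] at this
  have hhK : h * K ≤ η := by
    have : h ≤ η / (K + 1) := min_le_right _ _
    rw [le_div_iff₀ (by positivity)] at this
    nlinarith
  have hhc : (h : ℂ) ≠ 0 := by
    exact_mod_cast hh0.ne'
  have hker : (l + (h : ℂ) • m) ((h : ℂ) • u - v) = 0 := by
    simp only [ContinuousLinearMap.add_apply, ContinuousLinearMap.smul_apply, map_sub, map_smul,
      smul_eq_mul, hu, hlv, hmu, hmv]
    ring
  have g1 := G5_over l m v hlv hmv
  have g2 := G2_smul _ (G4_shear (l + (h : ℂ) • m) ((h : ℂ) • u - v) hker) ((h : ℂ)⁻¹)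
  have g3 := G2_smul _ (G4_shear l v hlv) ((h : ℂ)⁻¹)
  have c1 : Continuous (fun q : V2 => (Complex.exp (l q) * m q) • v) := by fun_prop
  have c2 : Continuous (fun q : V2 => ((h : ℂ)⁻¹) •
      (Complex.exp ((l + (h : ℂ) • m) q) • ((h : ℂ) • u - v))) := by fun_prop
  have c3 : Continuous (fun q : V2 => ((h : ℂ)⁻¹) • (Complex.exp (l q) • v)) := by fun_prop
  have g12 := G1_add _ _ g1 g2 c1 c2
  have g := G1_add _ _ g12 g3 (c1.add c2) c3
  refine ⟨_, g, fun q hq => ?_⟩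
  have hmn : ‖(h : ℂ) * m q‖ ≤ h * μ := by
    rw [norm_mul, Complex.norm_real, Real.norm_of_nonneg hh0.le]
    have : ‖m q‖ ≤ ‖m‖ * R := (m.le_opNorm q).trans (by gcongr)
    gcongr
    linarith
  have hmn1 : ‖(h : ℂ) * m q‖ ≤ 1 := hmn.trans hhμ
  have e1 : ‖Complex.exp ((h : ℂ) * m q) - 1‖ ≤ 2 * (h * μ) :=
    (Complex.norm_exp_sub_one_le hmn1).trans (by linarith)
  have e2 : ‖Complex.exp ((h : ℂ) * m q) - 1 - (h : ℂ) * m q‖ ≤ (h * μ) ^ 2 :=
    (Complex.norm_exp_sub_one_sub_id_le hmn1).trans (by gcongr)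
  have hexp : ‖Complex.exp (l q)‖ ≤ Real.exp (‖l‖ * R) := by
    rw [Complex.norm_exp]
    apply Real.exp_le_exp.mpr
    calc (l q).re ≤ ‖l q‖ := Complex.re_le_norm _
      _ ≤ ‖l‖ * ‖q‖ := l.le_opNorm q
      _ ≤ ‖l‖ * R := by gcongr
  have heq : Complex.exp (l q) • u - ((Complex.exp (l q) * m q) • v +
      ((h : ℂ)⁻¹) • (Complex.exp ((l + (h : ℂ) • m) q) • ((h : ℂ) • u - v)) +
      ((h : ℂ)⁻¹) • (Complex.exp (l q) • v)) =
      Complex.exp (l q) • (-((Complex.exp ((h : ℂ) * m q) - 1) • u) +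
        ((h : ℂ)⁻¹ * (Complex.exp ((h : ℂ) * m q) - 1 - (h : ℂ) * m q)) • v) := by
    have hx : Complex.exp ((l + (h : ℂ) • m) q) = Complex.exp (l q) *
        Complex.exp ((h : ℂ) * m q) := by
      rw [← Complex.exp_add]
      simp
    rw [hx]
    ext
    · simp only [Prod.fst_sub, Prod.fst_add, Prod.smul_fst, Prod.fst_neg, smul_eq_mul]
      field_simp
      ring
    · simp only [Prod.snd_sub, Prod.snd_add, Prod.smul_snd, Prod.snd_neg, smul_eq_mul]
      field_simp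
      ring
  rw [heq, norm_smul]
  have f1 : ‖(Complex.exp ((h : ℂ) * m q) - 1) • u‖ ≤ 2 * (h * μ) * ‖u‖ := by
    rw [norm_smul]
    gcongr
  have f2 : ‖((h : ℂ)⁻¹ * (Complex.exp ((h : ℂ) * m q) - 1 - (h : ℂ) * m q)) • v‖ ≤
      h * μ ^ 2 * ‖v‖ := by
    rw [norm_smul, norm_mul, norm_inv, Complex.norm_real, Real.norm_of_nonneg hh0.le]
    have : h⁻¹ * ‖Complex.exp ((h : ℂ) * m q) - 1 - (h : ℂ) * m q‖ ≤ h * μ ^ 2 := by
      calc h⁻¹ * ‖Complex.exp ((h : ℂ) * m q) - 1 - (h : ℂ) * m q‖ ≤ h⁻¹ * (h * μ) ^ 2 := by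
            gcongr
        _ = h * μ ^ 2 := by field_simp
    gcongr
  calc _ ≤ Real.exp (‖l‖ * R) * (2 * (h * μ) * ‖u‖ + h * μ ^ 2 * ‖v‖) := by
        apply mul_le_mul hexp _ (norm_nonneg _) (Real.exp_pos _).le
        refine (norm_add_le _ _).trans (add_le_add ?_ f2)
        rw [norm_neg]
        exact f1
    _ = h * K := by rw [hK]; ring
    _ ≤ η := hhK

/-- G6. For all linear `l` and all vectors `u` the field `exp(l q) u` is good (Andersen-Lempert). -/
theorem G6_exp (l : V2 →L[ℂ] ℂ) (u : V2) : Good (fun q => Complex.exp (l q) • u) := by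
  by_cases h : l u = 0
  · exact G4_shear l u h
  · have h1 : l ((l u)⁻¹ • u) = 1 := by
      rw [map_smul, smul_eq_mul, inv_mul_cancel₀ h]
    have g := G2_smul _ (G6_one l ((l u)⁻¹ • u) h1) (l u)
    have : (fun q : V2 => Complex.exp (l q) • u) =
        fun q => (l u) • (Complex.exp (l q) • ((l u)⁻¹ • u)) := by
      funext q
      rw [smul_smul, smul_smul]
      congr 1
      field_simp
    rw [this]
    exact g

end LCC
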