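import Mathlib

set_option linter.unusedVariables false

open Set Filter Topology
open scoped ContDiff

namespace LCC

/-- The complex plane of dimension two, with the sup norm. -/
abbrev V2 : Type := ℂ × ℂ

/-- The shear `p ↦ p + a exp (l p) v` (used with `l v = 0`). -/
noncomputable def shearFun (l : V2 →L[ℂ] ℂ) (v : V2) (a : ℂ) (p : V2) : V2 :=
  p + (a * Complex.exp (l p)) • v

/-- The overshear `p ↦ p + (exp (a exp (l p)) - 1) m(p) v` (used with `l v = 0`, `m v = 1`). -/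
noncomputable def overFun (l m : V2 →L[ℂ] ℂ) (v : V2) (a : ℂ) (p : V2) : V2 :=
  p + ((Complex.exp (a * Complex.exp (l p)) - 1) * m p) • v

/-- The generators of our group of automorphisms of `V2`. -/
def IsGen (e : Equiv.Perm V2) : Prop :=
  (∃ (l : V2 →L[ℂ] ℂ) (v : V2) (a : ℂ), l v = 0 ∧ ∀ p, e p = shearFun l v a p) ∨
  (∃ (l m : V2 →L[ℂ] ℂ) (v : V2) (a : ℂ), l v = 0 ∧ m v = 1 ∧ ∀ p, e p = overFun l m v a p)

/-- The group of automorphisms generated by the shears and overshears. -/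
def Aut : Subgroup (Equiv.Perm V2) := Subgroup.closure {e | IsGen e}

/-- A vector field `V` is good if its short time flow maps (also for complex times) can be
approximated on balls by elements of `Aut`, with an error `o(τ)`. -/
def Good (V : V2 → V2) : Prop :=
  ∀ R A η : ℝ, 0 < R → 0 < A → 0 < η → ∃ τ₀ : ℝ, 0 < τ₀ ∧ ∀ τ : ℝ, 0 < τ → τ < τ₀ →
    ∀ a : ℂ, ‖a‖ ≤ A → ∃ e ∈ Aut, ∀ q : V2, ‖q‖ ≤ R →
      ‖e q - q - ((τ : ℂ) * a) • V q‖ ≤ τ * η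

/-- Linear combinations of the functions `exp (l q)`, `l` linear. -/
def expSpan : Submodule ℂ (V2 → ℂ) :=
  Submodule.span ℂ {g | ∃ l : V2 →L[ℂ] ℂ, g = fun q => Complex.exp (l q)}

/-- Functions that are locally uniformly approximable by elements of `expSpan`. -/
def Ap (f : V2 → ℂ) : Prop :=
  ∀ R η : ℝ, 0 < R → 0 < η → ∃ g ∈ expSpan, ∀ q : V2, ‖q‖ ≤ R → ‖f q - g q‖ ≤ η

/-- The centre of the polydisc that is pushed to infinity. -/
def pst : V2 := ((100 : ℂ), (0 : ℂ))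

/-- `e` maps the closed polydisc of radius one about `pst` far away from the ball of radius
`r + 1`, in a ball which is small compared with its distance from the origin. -/
def Inv (r : ℝ) (e : Equiv.Perm V2) : Prop :=
  ∃ p : V2, 10 * (r + 1) ≤ ‖p‖ ∧ ∀ q : V2, ‖q - pst‖ ≤ 1 → ‖e q - p‖ ≤ ‖p‖ / 10


/-- The sequence of automorphisms produced by the inductive construction. -/
structure PSeq (c : ℕ → ℝ) where
  Ψ : ℕ → Equiv.Perm V2
  ε : ℕ → ℝ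
  zero : Ψ 0 = 1
  mem : ∀ n, Ψ n ∈ Aut
  inv : ∀ n : ℕ, Inv (n + 3) (Ψ n)
  pos : ∀ n, 0 < ε n
  le : ∀ n, ε n ≤ (1 / 2) ^ (n + 2)
  unif : ∀ (n : ℕ) (p q : V2), ‖p‖ ≤ n + 3 → ‖q‖ ≤ n + 3 → ‖p - q‖ ≤ ε n →
    ‖(Ψ n)⁻¹ p - (Ψ n)⁻¹ q‖ ≤ (1 / 2) ^ n
  near : ∀ (n : ℕ) (q : V2), ‖q‖ ≤ n + 3 → ‖Ψ (n + 1) ((Ψ n)⁻¹ q) - q‖ ≤ ε n
  line : ∀ n j : ℕ, j ≤ n + 1 → ∀ t : ℂ, ‖t‖ ≤ n + 1 →
    ‖Ψ (n + 1) ((c j : ℂ), t) - Ψ n ((c j : ℂ), t)‖ ≤ ε n

end LCC
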