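import Pool.Agent.LCC.GDefs

set_option linter.unusedVariables false

open Set Filter Topology
open scoped ContDiff


namespace LCC



/-- L1. Cauchy estimate for the derivative in several variables.
PROOF. For a vector `v` with `‖v‖ ≤ 1` consider `h z = f (q + z • v)`, differentiable on `ℂ`,
`‖h‖ ≤ C` on the closed unit disc; `deriv h 0 = fderiv ℂ f q v`
(`HasFDerivAt.comp_hasDerivAt`), and `‖deriv h 0‖ ≤ C`
(`Complex.norm_deriv_le_of_forall_mem_sphere_norm_le`, radius `1`). For general `v` scale; use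
`ContinuousLinearMap.opNorm_le_of_unit_norm` or `opNorm_le_of_ball`-type lemmas (`C ≥ 0`). -/
theorem L1_cauchy {E F : Type} [NormedAddCommGroup E] [NormedSpace ℂ E] [NormedAddCommGroup F]
    [NormedSpace ℂ F] [CompleteSpace F] (f : E → F) (hf : Differentiable ℂ f) (q : E) (C : ℝ)
    (hC : 0 ≤ C) (h : ∀ z, ‖z - q‖ ≤ 1 → ‖f z‖ ≤ C) : ‖fderiv ℂ f q‖ ≤ C := by
  have key : ∀ v : E, ‖v‖ = 1 → ‖fderiv ℂ f q v‖ ≤ C := by
    intro v hv
    have hd : Differentiable ℂ (fun z : ℂ => f (q + z • v)) := fun z =>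
      (hf (q + z • v)).comp z (((differentiable_id.smul_const v).const_add q) z)
    have hderiv : deriv (fun z : ℂ => f (q + z • v)) 0 = fderiv ℂ f q v := by
      have h1 : HasFDerivAt f (fderiv ℂ f q) (q + (0 : ℂ) • v) := by
        simpa using (hf q).hasFDerivAt
      have h2 : HasDerivAt (fun z : ℂ => q + z • v) v 0 := by
        simpa using ((hasDerivAt_id (0 : ℂ)).smul_const v).const_add q
      exact (h1.comp_hasDerivAt (0 : ℂ) h2).deriv
    have h3 := Complex.norm_deriv_le_of_forall_mem_sphere_norm_le (c := (0 : ℂ)) (R := 1)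
      (f := fun z : ℂ => f (q + z • v)) one_pos hd.diffContOnCl (C := C) (by
        intro z hz
        apply h
        have hz' : ‖z‖ = 1 := by simpa using hz
        simp [norm_smul, hz', hv])
    rw [hderiv] at h3
    simpa using h3
  refine ContinuousLinearMap.opNorm_le_bound _ hC fun v => ?_
  by_cases hv : v = 0
  · simp [hv]
  · have hn : ‖v‖ ≠ 0 := norm_ne_zero_iff.2 hv
    have h4 := key ((‖v‖⁻¹ : ℂ) • v) (by
      rw [norm_smul, norm_inv, Complex.norm_real, norm_norm, inv_mul_cancel₀ hn])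
    rw [map_smul, norm_smul, norm_inv, Complex.norm_real, norm_norm] at h4
    rw [inv_mul_le_iff₀ (by positivity)] at h4
    rw [mul_comm]
    exact h4

end LCC
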