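import Pool.Agent.LCC.GDefs
import Pool.Agent.LCC.L1

set_option linter.unusedVariables false

open Set Filter Topology
open scoped ContDiff


namespace LCC



theorem L2_cauchy {E F : Type} [NormedAddCommGroup E] [NormedSpace ℂ E] [NormedAddCommGroup F]
    [NormedSpace ℂ F] [CompleteSpace F] (f : ℕ → E → F) (hf : ∀ n, ContDiff ℂ ∞ (f n))
    (h : ∀ R : ℝ, UniformCauchySeqOn f atTop (Metric.closedBall 0 R)) (R : ℝ) :
    UniformCauchySeqOn (fun n => fderiv ℂ (f n)) atTop (Metric.closedBall 0 R) := by
  rw [Metric.uniformCauchySeqOn_iff]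
  intro ε hε
  obtain ⟨N, hN⟩ := (Metric.uniformCauchySeqOn_iff.1 (h (R + 1))) (ε / 2) (by positivity)
  refine ⟨N, fun m hm n hn q hq => ?_⟩
  rw [Metric.mem_closedBall, dist_zero_right] at hq
  have hd : ∀ n, Differentiable ℂ (f n) := fun n => (hf n).differentiable (by simp)
  have h1 := L1_cauchy (f m - f n) ((hd m).sub (hd n)) q (ε / 2) (by positivity) (fun z hz => by
    have h2 := hN m hm n hn z (by
      rw [Metric.mem_closedBall, dist_zero_right]
      have := norm_add_le (z - q) q
      rw [sub_add_cancel] at this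
      linarith)
    rw [dist_eq_norm] at h2
    exact h2.le)
  rw [fderiv_sub (hd m q) (hd n q)] at h1
  rw [dist_eq_norm]
  linarith

theorem L2_aux {E : Type} [NormedAddCommGroup E] [NormedSpace ℂ E] (k : ℕ) :
    ∀ (F : Type) [NormedAddCommGroup F] [NormedSpace ℂ F] [CompleteSpace F] (f : ℕ → E → F) (g : E → F)
    (_ : ∀ n, ContDiff ℂ ∞ (f n)) (_ : ∀ R : ℝ, TendstoUniformlyOn f g atTop (Metric.closedBall 0 R)), ContDiff ℂ k g := by
  induction k with
  | zero =>
    intro F _ _ _ f g hf h
    rw [Nat.cast_zero, contDiff_zero, continuous_iff_continuousAt]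
    intro q
    have h1 : ContinuousOn g (Metric.ball 0 (‖q‖ + 1)) :=
      ((h (‖q‖ + 1)).mono Metric.ball_subset_closedBall).continuousOn
        (Eventually.of_forall fun n => (hf n).continuous.continuousOn).frequently
    exact h1.continuousAt (Metric.isOpen_ball.mem_nhds (by
      rw [Metric.mem_ball, dist_zero_right]
      linarith))
  | succ k ih =>
    intro F _ _ _ f g hf h
    have hcs := L2_cauchy f hf (fun R => (h R).uniformCauchySeqOn)
    have hlim : ∀ q : E, ∃ y : E →L[ℂ] F, Tendsto (fun n => fderiv ℂ (f n) q) atTop (𝓝 y) := by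
      intro q
      apply cauchySeq_tendsto_of_complete
      rw [Metric.cauchySeq_iff]
      intro ε hε
      obtain ⟨N, hN⟩ := (Metric.uniformCauchySeqOn_iff.1 (hcs ‖q‖)) ε hε
      exact ⟨N, fun m hm n hn => hN m hm n hn q (by rw [Metric.mem_closedBall, dist_zero_right])⟩
    choose g' hg' using hlim
    have hu : ∀ R : ℝ, TendstoUniformlyOn (fun n => fderiv ℂ (f n)) g' atTop (Metric.closedBall 0 R) := fun R =>
      (hcs R).tendstoUniformlyOn_of_tendsto fun q _ => hg' q
    have hder : ∀ q, HasFDerivAt g (g' q) q := by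
      intro q
      refine hasFDerivAt_of_tendstoLocallyUniformlyOn (l := atTop) (f := f) (f' := fun n => fderiv ℂ (f n)) (s := Metric.ball 0 (‖q‖ + 1))
        Metric.isOpen_ball ((hu (‖q‖ + 1)).mono Metric.ball_subset_closedBall).tendstoLocallyUniformlyOn
        (fun n x _ => ((hf n).differentiable (by simp) x).hasFDerivAt) (fun x hx => ?_) ?_
      · exact (h (‖q‖ + 1)).tendsto_at (Metric.ball_subset_closedBall hx)
      · rw [Metric.mem_ball, dist_zero_right]
        linarith
    have hfd : fderiv ℂ g = g' := by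
      funext q
      exact (hder q).fderiv
    rw [Nat.cast_add, Nat.cast_one, contDiff_succ_iff_fderiv]
    refine ⟨fun q => (hder q).differentiableAt, fun h => ?_, ?_⟩
    · exact absurd h (by simp)
    · rw [hfd]
      exact ih _ (fun n => fderiv ℂ (f n)) g' (fun n => (hf n).fderiv_right (by simp)) hu

/-- L2. Locally uniform limits of entire maps are entire.
PROOF. Show `ContDiff ℂ k g` for all natural `k` by induction on `k`, for all `F, f, g` at the same
time (`contDiff_infty`). `k = 0`: `g` is continuous (uniform limit on balls). Step: let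
`f' n = fderiv ℂ (f n) : E → (E →L[ℂ] F)`, `ContDiff ℂ ∞`. For `q` in the ball of radius `R`,
`L1_cauchy` applied to `f n - f m` gives `‖f' n q - f' m q‖ ≤ sup of ‖f n - f m‖ on the ball of radius
R + 1`, so `f'` is uniformly Cauchy on balls and converges uniformly on balls to some
`g' : E → (E →L[ℂ] F)` (pointwise limit, completeness). By `hasFDerivAt_of_tendstoLocallyUniformlyOn`
(on the open set `univ` or balls) `g` has derivative `g' q` at every `q`, so `fderiv ℂ g = g'`, and
`ContDiff ℂ k g'` by the induction hypothesis; `contDiff_succ_iff_fderiv`. -/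
theorem L2_limit {E F : Type} [NormedAddCommGroup E] [NormedSpace ℂ E] [NormedAddCommGroup F]
    [NormedSpace ℂ F] [CompleteSpace F] (f : ℕ → E → F) (g : E → F)
    (hf : ∀ n, ContDiff ℂ ∞ (f n))
    (h : ∀ R : ℝ, TendstoUniformlyOn f g atTop (Metric.closedBall 0 R)) : ContDiff ℂ ∞ g := by
  rw [contDiff_infty]
  exact fun k => L2_aux k F f g hf h

end LCC
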