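import Pool.Agent.LCC.GDefs

set_option linter.unusedVariables false

open Set Filter Topology
open scoped ContDiff


namespace LCC



/-- N1. If a homeomorphism of `V2` is near the identity on a ball, so is its inverse on a smaller
ball.
PROOF. Let `U` be the open ball of radius `r`, `W` the open ball of radius `r - ε` (both about `0`).
`e '' U = (e⁻¹) ⁻¹' U` is open. Claim `W ⊆ e '' U`: `W` is preconnected (convex), `W ∩ e '' U` is
open and nonempty (`e 0 ∈ W` as `‖e 0‖ ≤ ε < r - ε`... if `r - ε > ε`, which holds since `r ≥ 3/2`).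
The complement of `e '' U` in `W` is open too: `W ∩ (e '' U)ᶜ = W ∩ (e '' closedBall 0 r)ᶜ`, because
a point `x` with `‖x‖ = r` has `‖e x‖ ≥ r - ε`, so `e x ∉ W`; and `e '' closedBall 0 r =
(e⁻¹) ⁻¹' closedBall 0 r` is closed. So by preconnectedness (`IsPreconnected.subset_of_...`,
`isPreconnected_iff_subset_of_disjoint` or `IsPreconnected.subset_left_of_subset_union`) the claim
holds. For `‖y‖ ≤ r - 1 < r - ε`: `x = e⁻¹ y` has `‖x‖ < r`, and
`‖e⁻¹ y - y‖ = ‖x - e x‖ ≤ ε`. -/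
theorem N1_inv (e : Equiv.Perm V2) (h1 : Continuous (fun p : V2 => e p))
    (h2 : Continuous (fun p : V2 => e⁻¹ p)) (r ε : ℝ) (hε : 0 < ε) (hε1 : ε ≤ 1 / 2)
    (hr : 3 / 2 ≤ r) (h : ∀ q : V2, ‖q‖ ≤ r → ‖e q - q‖ ≤ ε) :
    ∀ y : V2, ‖y‖ ≤ r - 1 → ‖e⁻¹ y - y‖ ≤ ε ∧ ‖e⁻¹ y‖ ≤ r := by
  set W : Set V2 := Metric.ball 0 (r - ε) with hW
  set A : Set V2 := {y | ‖e⁻¹ y‖ < r} with hA
  set B : Set V2 := {y | r < ‖e⁻¹ y‖} with hB
  have oA : IsOpen A := isOpen_lt h2.norm continuous_const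
  have oB : IsOpen B := isOpen_lt continuous_const h2.norm
  have hcov : W ⊆ A ∪ B := by
    intro y hy
    rcases lt_trichotomy ‖e⁻¹ y‖ r with hlt | heq | hgt
    · exact Or.inl hlt
    · exfalso
      have h3 := h (e⁻¹ y) heq.le
      have h4 : e (e⁻¹ y) = y := e.apply_symm_apply y
      rw [h4] at h3
      have h5 : ‖y‖ < r - ε := by simpa [hW] using hy
      have h6 : ‖e⁻¹ y‖ ≤ ‖y‖ + ‖y - e⁻¹ y‖ := by
        have : e⁻¹ y = y - (y - e⁻¹ y) := by abel
        calc ‖e⁻¹ y‖ = ‖y - (y - e⁻¹ y)‖ := by rw [← this]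
          _ ≤ _ := norm_sub_le _ _
      linarith
    · exact Or.inr hgt
  have hdisj : Disjoint A B := by
    rw [Set.disjoint_left]
    intro y ha hb
    have ha' : ‖e⁻¹ y‖ < r := ha
    have hb' : r < ‖e⁻¹ y‖ := hb
    linarith
  have hne : (W ∩ A).Nonempty := by
    refine ⟨e 0, ?_, ?_⟩
    · have := h 0 (by rw [norm_zero]; linarith)
      rw [sub_zero] at this
      simp only [hW, Metric.mem_ball, dist_zero_right]
      linarith
    · have h4 : e⁻¹ (e 0) = 0 := e.symm_apply_apply 0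
      show ‖e⁻¹ (e 0)‖ < r
      rw [h4, norm_zero]
      linarith
  have hpre : IsPreconnected W := (convex_ball _ _).isPreconnected
  have hsub : W ⊆ A := hpre.subset_left_of_subset_union oA oB hdisj hcov hne
  intro y hy
  have hyW : y ∈ W := by
    simp only [hW, Metric.mem_ball, dist_zero_right]
    linarith
  have hlt : ‖e⁻¹ y‖ < r := hsub hyW
  refine ⟨?_, hlt.le⟩
  have h3 := h (e⁻¹ y) hlt.le
  have h4 : e (e⁻¹ y) = y := e.apply_symm_apply y
  rw [h4] at h3
  rw [norm_sub_rev]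
  exact h3


end LCC
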