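import Pool.Agent.LCC.GDefs
import Pool.Agent.LCC.A2
import Pool.Agent.LCC.N1

set_option linter.unusedVariables false

open Set Filter Topology
open scoped ContDiff


namespace LCC



/-- N2a. One step: `e = Ψ (n+1) * (Ψ n)⁻¹` satisfies the hypotheses of `N1_inv` with `r = n + 3`
(`s.near`, `s.pos`, `s.le`: `ε n ≤ 1/4`; continuity from `A2_contDiff`), and
`e⁻¹ y = Ψ n ((Ψ (n+1))⁻¹ y)`. -/
theorem N2_one (c : ℕ → ℝ) (s : PSeq c) (n : ℕ) (y : V2) (hy : ‖y‖ ≤ n + 2) :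
    ‖s.Ψ n ((s.Ψ (n + 1))⁻¹ y) - y‖ ≤ s.ε n ∧ ‖s.Ψ n ((s.Ψ (n + 1))⁻¹ y)‖ ≤ n + 3 := by
  have hc1 : ∀ m, Continuous (fun p : V2 => s.Ψ m p) := fun m =>
    (A2_contDiff (s.Ψ m) (s.mem m)).continuous
  have hc2 : ∀ m, Continuous (fun p : V2 => (s.Ψ m)⁻¹ p) := fun m =>
    (A2_contDiff (s.Ψ m)⁻¹ (Aut.inv_mem (s.mem m))).continuous
  have hinv : (s.Ψ (n + 1) * (s.Ψ n)⁻¹)⁻¹ = s.Ψ n * (s.Ψ (n + 1))⁻¹ := by
    rw [mul_inv_rev, inv_inv]
  have hle : s.ε n ≤ 1 / 2 := by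
    refine (s.le n).trans ?_
    have h1 : ((1 : ℝ) / 2) ^ (n + 2) ≤ (1 / 2) ^ 1 :=
      pow_le_pow_of_le_one (by norm_num) (by norm_num) (by omega)
    simpa using h1
  have hn : (0 : ℝ) ≤ n := Nat.cast_nonneg n
  have h1' : Continuous (fun p : V2 => (s.Ψ (n + 1) * (s.Ψ n)⁻¹) p) := by
    simp only [Equiv.Perm.mul_apply]
    exact (hc1 (n + 1)).comp (hc2 n)
  have h2' : Continuous (fun p : V2 => (s.Ψ (n + 1) * (s.Ψ n)⁻¹)⁻¹ p) := by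
    simp only [hinv, Equiv.Perm.mul_apply]
    exact (hc1 n).comp (hc2 (n + 1))
  have key := N1_inv (s.Ψ (n + 1) * (s.Ψ n)⁻¹) h1' h2' (n + 3) (s.ε n) (s.pos n) hle
    (by linarith) (fun q hq => by
      simp only [Equiv.Perm.mul_apply]
      exact s.near n q hq) y (by linarith)
  rw [hinv] at key
  simpa only [Equiv.Perm.mul_apply] using key

/-- N2b. PROOF. Let `q_i = Ψ i ((Ψ m)⁻¹ q)` for `n ≤ i ≤ m`; `q_m = q` and
`q_i = Ψ i ((Ψ (i+1))⁻¹ q_{i+1})`. Descending induction on `i` (e.g. induction on `m - i`, or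
`Nat.decreasingInduction`): `‖q_i - q‖ ≤ ∑ k in [i, m), (1/2)^(k+2) ≤ (1/2)^(i+1)`, because
`‖q_{i+1}‖ ≤ ‖q‖ + (1/2)^(i+2) ≤ n + 1 + 1 ≤ i + 2` allows to use `N2_one` at `i`. (It is
convenient to prove `‖q_i - q‖ ≤ (1/2)^(i+1) - (1/2)^(m+1)`.) -/
theorem N2_near (c : ℕ → ℝ) (s : PSeq c) (n m : ℕ) (h : n ≤ m) (q : V2) (hq : ‖q‖ ≤ n + 1) :
    ‖s.Ψ n ((s.Ψ m)⁻¹ q) - q‖ ≤ (1 / 2) ^ (n + 1) := by
  -- stronger statement by induction on `m - i`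
  have key : ∀ d i : ℕ, n ≤ i → i + d = m →
      ‖s.Ψ i ((s.Ψ m)⁻¹ q) - q‖ ≤ (1 / 2) ^ (i + 1) - (1 / 2) ^ (m + 1) := by
    intro d
    induction d with
    | zero =>
      intro i hi him
      have : i = m := by omega
      subst this
      simp
    | succ d ih =>
      intro i hi him
      have h1 := ih (i + 1) (by omega) (by omega)
      set p : V2 := s.Ψ (i + 1) ((s.Ψ m)⁻¹ q) with hp
      have hpi : (s.Ψ (i + 1))⁻¹ p = (s.Ψ m)⁻¹ q := by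
        rw [hp]; exact Equiv.symm_apply_apply (s.Ψ (i + 1)) _
      have hpow : ((1 : ℝ) / 2) ^ (i + 1 + 1) ≤ 1 := pow_le_one₀ (by norm_num) (by norm_num)
      have hpow' : (0 : ℝ) ≤ (1 / 2) ^ (m + 1) := by positivity
      have hin : (n : ℝ) ≤ i := by exact_mod_cast hi
      have hpn : ‖p‖ ≤ i + 2 := by
        have h2 : ‖p‖ ≤ ‖p - q‖ + ‖q‖ := by
          have := norm_add_le (p - q) q
          simpa using this
        linarith
      have h3 := (N2_one c s i p hpn).1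
      rw [hpi] at h3
      have h4 : ‖s.Ψ i ((s.Ψ m)⁻¹ q) - q‖ ≤
          ‖s.Ψ i ((s.Ψ m)⁻¹ q) - p‖ + ‖p - q‖ := by
        have := norm_add_le (s.Ψ i ((s.Ψ m)⁻¹ q) - p) (p - q)
        simpa using this
      have h5 := s.le i
      have h6 : ((1 : ℝ) / 2) ^ (i + 1) = (1 / 2) ^ (i + 2) + (1 / 2) ^ (i + 1 + 1) := by ring
      linarith
  have h1 := key (m - n) n le_rfl (by omega)
  have h2 : (0 : ℝ) ≤ (1 / 2) ^ (m + 1) := by positivity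
  linarith

end LCC
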