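import Pool.Agent.LCC.GDefs
import Pool.Agent.LCC.A2
import Pool.Agent.LCC.L2
import Pool.Agent.LCC.N2

set_option linter.unusedVariables false

open Set Filter Topology
open scoped ContDiff


namespace LCC



/-- N3. PROOF. `q' = Ψ m ((Ψ (m+1))⁻¹ q)` satisfies `‖q' - q‖ ≤ ε m`, `‖q'‖ ≤ m + 3` (`N2_one`), and
`(Ψ (m+1))⁻¹ q = (Ψ m)⁻¹ q'`; use `s.unif m q' q`. -/
theorem N3_cauchy (c : ℕ → ℝ) (s : PSeq c) (m : ℕ) (q : V2) (hq : ‖q‖ ≤ m + 2) :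
    ‖(s.Ψ (m + 1))⁻¹ q - (s.Ψ m)⁻¹ q‖ ≤ (1 / 2) ^ m := by
  obtain ⟨h1, h2⟩ := N2_one c s m q hq
  have h3 := s.unif m (s.Ψ m ((s.Ψ (m + 1))⁻¹ q)) q h2 (by linarith) h1
  have h4 : (s.Ψ m)⁻¹ (s.Ψ m ((s.Ψ (m + 1))⁻¹ q)) = (s.Ψ (m + 1))⁻¹ q :=
    (s.Ψ m).symm_apply_apply _
  rw [h4] at h3
  exact h3

/-- N4. The limit map.
PROOF. By `N3_cauchy` the sequence `(Ψ n)⁻¹ q`, `n ≥ ‖q‖ - 2`, is Cauchy with geometric bounds; let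
`G q` be its limit; `‖(Ψ n)⁻¹ q - G q‖ ≤ ∑_{m ≥ n} (1/2)^m = 2 (1/2)^n` for `‖q‖ ≤ n + 2`
(`dist_le_of_le_geometric_of_tendsto` applied to the shifted sequence). `G` is entire by `L2_limit`
with `f n = fun q => (Ψ n)⁻¹ q` (entire by `A2_contDiff`), uniform convergence on closed balls. -/
theorem N4_limit (c : ℕ → ℝ) (s : PSeq c) : ∃ G : V2 → V2, ContDiff ℂ ∞ G ∧
    ∀ (n : ℕ) (q : V2), ‖q‖ ≤ n + 2 → ‖(s.Ψ n)⁻¹ q - G q‖ ≤ 2 * (1 / 2) ^ n := by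
  -- geometric bounds for the shifted sequences
  have hgeo : ∀ (n : ℕ) (q : V2), ‖q‖ ≤ n + 2 → ∀ k : ℕ,
      dist ((fun k : ℕ => (s.Ψ (k + n))⁻¹ q) k) ((fun k : ℕ => (s.Ψ (k + n))⁻¹ q) (k + 1)) ≤
        (1 / 2) ^ n * (1 / 2) ^ k := by
    intro n q hq k
    have h1 : ‖q‖ ≤ ((k + n : ℕ) : ℝ) + 2 := by
      push_cast
      have : (0 : ℝ) ≤ (k : ℝ) := Nat.cast_nonneg k
      linarith
    have h2 := N3_cauchy c s (k + n) q h1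
    have e : k + 1 + n = k + n + 1 := by ring
    change dist ((s.Ψ (k + n))⁻¹ q) ((s.Ψ (k + 1 + n))⁻¹ q) ≤ _
    rw [e, dist_comm, dist_eq_norm]
    calc ‖(s.Ψ (k + n + 1))⁻¹ q - (s.Ψ (k + n))⁻¹ q‖ ≤ (1 / 2) ^ (k + n) := h2
      _ = (1 / 2) ^ n * (1 / 2) ^ k := by rw [pow_add, mul_comm]
  have hlim : ∀ q : V2, ∃ g : V2, Tendsto (fun n : ℕ => (s.Ψ n)⁻¹ q) atTop (𝓝 g) := by
    intro q
    obtain ⟨n, hn⟩ := exists_nat_ge ‖q‖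
    have hq : ‖q‖ ≤ (n : ℝ) + 2 := by linarith
    have hc : CauchySeq (fun k : ℕ => (s.Ψ (k + n))⁻¹ q) :=
      cauchySeq_of_le_geometric (1 / 2) ((1 / 2) ^ n) (by norm_num) (hgeo n q hq)
    obtain ⟨g, hg⟩ := cauchySeq_tendsto_of_complete hc
    exact ⟨g, (tendsto_add_atTop_iff_nat (f := fun n : ℕ => (s.Ψ n)⁻¹ q) n).1 hg⟩
  choose G hG using hlim
  have hbound : ∀ (n : ℕ) (q : V2), ‖q‖ ≤ n + 2 → ‖(s.Ψ n)⁻¹ q - G q‖ ≤ 2 * (1 / 2) ^ n := by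
    intro n q hq
    have ht : Tendsto (fun k : ℕ => (s.Ψ (k + n))⁻¹ q) atTop (𝓝 (G q)) :=
      (tendsto_add_atTop_iff_nat (f := fun n : ℕ => (s.Ψ n)⁻¹ q) n).2 (hG q)
    have h := dist_le_of_le_geometric_of_tendsto₀ (1 / 2) ((1 / 2) ^ n) (by norm_num)
      (hgeo n q hq) ht
    have e0 : (s.Ψ (0 + n))⁻¹ q = (s.Ψ n)⁻¹ q := by rw [Nat.zero_add]
    have h : dist ((s.Ψ (0 + n))⁻¹ q) (G q) ≤ (1 / 2) ^ n / (1 - 1 / 2) := h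
    rw [e0, dist_eq_norm] at h
    calc ‖(s.Ψ n)⁻¹ q - G q‖ ≤ (1 / 2) ^ n / (1 - 1 / 2) := h
      _ = 2 * (1 / 2) ^ n := by ring
  refine ⟨G, ?_, hbound⟩
  refine L2_limit (fun n q => (s.Ψ n)⁻¹ q) G (fun n => A2_contDiff _ (Aut.inv_mem (s.mem n))) ?_
  intro R
  rw [Metric.tendstoUniformlyOn_iff]
  intro ε hε
  have ht : Tendsto (fun n : ℕ => 2 * (1 / 2 : ℝ) ^ n) atTop (𝓝 0) := by
    have := (tendsto_pow_atTop_nhds_zero_of_lt_one (r := (1 / 2 : ℝ)) (by norm_num)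
      (by norm_num)).const_mul 2
    simpa using this
  have h1 : ∀ᶠ n : ℕ in atTop, 2 * (1 / 2 : ℝ) ^ n < ε := ht.eventually (gt_mem_nhds hε)
  obtain ⟨N, hN⟩ := exists_nat_ge R
  filter_upwards [h1, eventually_ge_atTop N] with n hn1 hn2 q hq
  have hq1 : ‖q‖ ≤ R := by simpa using hq
  have hq2 : ‖q‖ ≤ (n : ℝ) + 2 := by
    have : (N : ℝ) ≤ (n : ℝ) := by exact_mod_cast hn2
    linarith
  rw [dist_comm, dist_eq_norm]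
  exact lt_of_le_of_lt (hbound n q hq2) hn1

end LCC
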