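import Pool.Agent.LCC.GDefs
import Pool.Agent.LCC.A2
import Pool.Agent.LCC.N2

set_option linter.unusedVariables false

open Set Filter Topology
open scoped ContDiff


namespace LCC



/-- N5. `Ψ n ∘ G` is near the identity. PROOF. For `m ≥ n`: `N2_near`. Let `m → ∞`:
`(Ψ m)⁻¹ q → G q` by `hG`, `Ψ n` is continuous. -/
theorem N5_near (c : ℕ → ℝ) (s : PSeq c) (G : V2 → V2)
    (hG : ∀ (n : ℕ) (q : V2), ‖q‖ ≤ n + 2 → ‖(s.Ψ n)⁻¹ q - G q‖ ≤ 2 * (1 / 2) ^ n)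
    (n : ℕ) (q : V2) (hq : ‖q‖ ≤ n + 1) : ‖s.Ψ n (G q) - q‖ ≤ (1 / 2) ^ (n + 1) := by
  have hlim : Tendsto (fun m => (s.Ψ m)⁻¹ q) atTop (𝓝 (G q)) := by
    rw [tendsto_iff_norm_sub_tendsto_zero]
    have h0 : Tendsto (fun m : ℕ => 2 * (1 / 2 : ℝ) ^ m) atTop (𝓝 0) := by
      have := (tendsto_pow_atTop_nhds_zero_of_lt_one (r := (1/2:ℝ)) (by norm_num)
        (by norm_num)).const_mul 2
      simpa using this
    refine squeeze_zero' (Eventually.of_forall fun m => norm_nonneg _) ?_ h0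
    filter_upwards [eventually_ge_atTop n] with m hm
    apply hG m q
    have : (n:ℝ) ≤ m := by exact_mod_cast hm
    linarith
  have hcont : Continuous (fun p => s.Ψ n p) := (A2_contDiff _ (s.mem n)).continuous
  have h1 : Tendsto (fun m => ‖s.Ψ n ((s.Ψ m)⁻¹ q) - q‖) atTop (𝓝 ‖s.Ψ n (G q) - q‖) :=
    (((hcont.tendsto _).comp hlim).sub_const q).norm
  refine le_of_tendsto h1 ?_
  filter_upwards [eventually_ge_atTop n] with m hm using N2_near c s n m hm q hq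

/-- N6. `G` misses the polydisc. PROOF. Suppose `‖G q - pst‖ ≤ 1`. Take `n ≥ ‖q‖`. `s.inv n` gives
`p` with `10 (n + 4) ≤ ‖p‖` and `‖Ψ n (G q) - p‖ ≤ ‖p‖/10`, so `‖Ψ n (G q)‖ ≥ 9 (n+4)`, but
`‖Ψ n (G q)‖ ≤ ‖q‖ + 1 ≤ n + 1` by N5. -/
theorem N6_miss (c : ℕ → ℝ) (s : PSeq c) (G : V2 → V2)
    (hG : ∀ (n : ℕ) (q : V2), ‖q‖ ≤ n + 2 → ‖(s.Ψ n)⁻¹ q - G q‖ ≤ 2 * (1 / 2) ^ n)
    (q : V2) : 1 < ‖G q - pst‖ := by
  by_contra hlt
  push Not at hlt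
  obtain ⟨n, hn⟩ := exists_nat_ge ‖q‖
  obtain ⟨p, hp, hpp⟩ := s.inv n
  have h1 := hpp (G q) hlt
  have h2 := N5_near c s G hG n q (by linarith)
  have h3 : (1/2:ℝ)^(n+1) ≤ 1 := pow_le_one₀ (by norm_num) (by norm_num)
  have h4 : ‖p‖ ≤ ‖s.Ψ n (G q) - p‖ + ‖s.Ψ n (G q) - q‖ + ‖q‖ := by
    have h5 : p = -(s.Ψ n (G q) - p) + (s.Ψ n (G q) - q) + q := by abel
    have h6 := norm_add_le (-(s.Ψ n (G q) - p) + (s.Ψ n (G q) - q)) q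
    have h7 := norm_add_le (-(s.Ψ n (G q) - p)) (s.Ψ n (G q) - q)
    rw [← h5] at h6
    rw [norm_neg] at h7
    linarith
  linarith

end LCC
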