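import Pool.Agent.LCC.GDefs
import Pool.Agent.LCC.A2
import Pool.Agent.LCC.L1
import Pool.Agent.LCC.N5

set_option linter.unusedVariables false

open Set Filter Topology
open scoped ContDiff


namespace LCC



/-- N7. The differential of `G` is injective.
PROOF. Take `n ≥ ‖q‖` and `h z = Ψ n (G z) - z`, differentiable, `‖h‖ ≤ (1/2)^(n+1) ≤ 1/2` on the ball
of radius one about `q` (N5, `‖z‖ ≤ n + 1`). By `L1_cauchy` `‖fderiv ℂ h q‖ ≤ 1/2`. If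
`fderiv ℂ G q ξ = 0` then `fderiv ℂ h q ξ = fderiv ℂ (Ψ n) (G q) (fderiv ℂ G q ξ) - ξ = -ξ`, so
`‖ξ‖ ≤ ‖ξ‖/2` and `ξ = 0`. -/
theorem N7_inj (c : ℕ → ℝ) (s : PSeq c) (G : V2 → V2) (hGs : ContDiff ℂ ∞ G)
    (hG : ∀ (n : ℕ) (q : V2), ‖q‖ ≤ n + 2 → ‖(s.Ψ n)⁻¹ q - G q‖ ≤ 2 * (1 / 2) ^ n)
    (q ξ : V2) (h : fderiv ℂ G q ξ = 0) : ξ = 0 := by
  obtain ⟨n, hn⟩ := exists_nat_ge ‖q‖
  have hΨ : ContDiff ℂ ∞ (fun p : V2 => s.Ψ n p) := A2_contDiff _ (s.mem n)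
  have hΨd : Differentiable ℂ (fun p : V2 => s.Ψ n p) := hΨ.differentiable (by simp)
  have hGd : Differentiable ℂ G := hGs.differentiable (by simp)
  have hh : Differentiable ℂ (fun z => s.Ψ n (G z) - z) :=
    (hΨd.comp hGd).sub differentiable_id
  have hb := L1_cauchy (fun z => s.Ψ n (G z) - z) hh q (1/2) (by norm_num) (by
    intro z hz
    have hz' : ‖z‖ ≤ n + 1 := by
      have : ‖z‖ ≤ ‖z - q‖ + ‖q‖ := by simpa using norm_add_le (z - q) q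
      linarith
    refine (N5_near c s G hG n z hz').trans ?_
    rw [pow_succ]
    have : (1/2:ℝ)^n ≤ 1 := pow_le_one₀ (by norm_num) (by norm_num)
    linarith)
  have hd : HasFDerivAt (fun z => s.Ψ n (G z) - z)
      ((fderiv ℂ (fun p : V2 => s.Ψ n p) (G q)).comp (fderiv ℂ G q) -
        ContinuousLinearMap.id ℂ V2) q :=
    ((hΨd (G q)).hasFDerivAt.comp q (hGd q).hasFDerivAt).sub (hasFDerivAt_id q)
  rw [hd.fderiv] at hb
  have h1 := ContinuousLinearMap.le_opNorm ((fderiv ℂ (fun p : V2 => s.Ψ n p) (G q)).comp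
    (fderiv ℂ G q) - ContinuousLinearMap.id ℂ V2) ξ
  have h2 : ((fderiv ℂ (fun p : V2 => s.Ψ n p) (G q)).comp
    (fderiv ℂ G q) - ContinuousLinearMap.id ℂ V2) ξ = -ξ := by
    simp [h]
  rw [h2, norm_neg] at h1
  have h3 : ‖ξ‖ ≤ 1 / 2 * ‖ξ‖ := h1.trans (mul_le_mul_of_nonneg_right hb (norm_nonneg _))
  have h4 : ‖ξ‖ ≤ 0 := by linarith
  exact norm_le_zero_iff.mp h4

end LCC
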