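import Pool.Agent.LCC.GDefs
import Pool.Agent.LCC.A2
import Pool.Agent.LCC.L2

set_option linter.unusedVariables false

open Set Filter Topology
open scoped ContDiff


namespace LCC



theorem N8_geom {α : Type} (f : ℕ → α → V2) (S : Set α) (N : ℕ)
    (h : ∀ n, N ≤ n → ∀ t ∈ S, ‖f (n + 1) t - f n t‖ ≤ (1 / 2) ^ n) :
    (∀ t ∈ S, ∃ a, Tendsto (fun n => f n t) atTop (𝓝 a)) ∧
    ∀ g : α → V2, (∀ t ∈ S, Tendsto (fun n => f n t) atTop (𝓝 (g t))) →
      TendstoUniformlyOn f g atTop S := by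
  have hd : ∀ t ∈ S, ∀ k, dist (f (k + N) t) (f (k + 1 + N) t) ≤ (1 / 2) ^ N * (1 / 2) ^ k := by
    intro t ht k
    have h1 := h (k + N) (by omega) t ht
    rw [dist_eq_norm, norm_sub_rev, ← pow_add, add_comm N k,
      show k + 1 + N = k + N + 1 by omega]
    exact h1
  refine ⟨fun t ht => ?_, fun g hg => ?_⟩
  · have hc : CauchySeq (fun k => f (k + N) t) :=
      cauchySeq_of_le_geometric (1 / 2) ((1 / 2) ^ N) (by norm_num) (hd t ht)
    obtain ⟨a, ha⟩ := cauchySeq_tendsto_of_complete hc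
    exact ⟨a, (tendsto_add_atTop_iff_nat N).mp ha⟩
  · have hb : ∀ t ∈ S, ∀ k, dist (f (k + N) t) (g t) ≤ (1 / 2) ^ N * (1 / 2) ^ k / (1 - 1 / 2) := by
      intro t ht k
      exact dist_le_of_le_geometric_of_tendsto (1 / 2) ((1 / 2) ^ N) (by norm_num) (hd t ht)
        ((tendsto_add_atTop_iff_nat N).mpr (hg t ht)) k
    rw [Metric.tendstoUniformlyOn_iff]
    intro ε hε
    have h0 : Tendsto (fun m : ℕ => 2 * (1 / 2 : ℝ) ^ m) atTop (𝓝 0) := by
      have := (tendsto_pow_atTop_nhds_zero_of_lt_one (r := (1/2:ℝ)) (by norm_num)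
        (by norm_num)).const_mul 2
      simpa using this
    filter_upwards [eventually_ge_atTop N, h0.eventually (gt_mem_nhds hε)] with n hn hlt t ht
    obtain ⟨k, rfl⟩ : ∃ k, n = k + N := ⟨n - N, by omega⟩
    rw [dist_comm]
    refine lt_of_le_of_lt (hb t ht k) (lt_of_le_of_lt (le_of_eq ?_) hlt)
    rw [pow_add]
    ring

/-- N8a. Points with convergent images are in the image of `G`.
PROOF. `x n = Ψ n p → ξ`. For `n` large `‖x n‖ ≤ n + 2`, so `‖(Ψ n)⁻¹ (x n) - G (x n)‖ ≤ 2 (1/2)^n`,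
i.e. `‖p - G (x n)‖ → 0`; `G` is continuous, so `G ξ = p`. -/
theorem N8_point (c : ℕ → ℝ) (s : PSeq c) (G : V2 → V2) (hGs : ContDiff ℂ ∞ G)
    (hG : ∀ (n : ℕ) (q : V2), ‖q‖ ≤ n + 2 → ‖(s.Ψ n)⁻¹ q - G q‖ ≤ 2 * (1 / 2) ^ n)
    (p ξ : V2) (h : Tendsto (fun n => s.Ψ n p) atTop (𝓝 ξ)) : G ξ = p := by
  have h1 : Tendsto (fun n => G (s.Ψ n p)) atTop (𝓝 (G ξ)) :=
    (hGs.continuous.tendsto ξ).comp h
  have h2 : Tendsto (fun n => G (s.Ψ n p)) atTop (𝓝 p) := by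
    rw [tendsto_iff_norm_sub_tendsto_zero]
    have h0 : Tendsto (fun m : ℕ => 2 * (1 / 2 : ℝ) ^ m) atTop (𝓝 0) := by
      have := (tendsto_pow_atTop_nhds_zero_of_lt_one (r := (1/2:ℝ)) (by norm_num)
        (by norm_num)).const_mul 2
      simpa using this
    refine squeeze_zero' (Eventually.of_forall fun m => norm_nonneg _) ?_ h0
    have h3 : ∀ᶠ n in atTop, ‖s.Ψ n p‖ < ‖ξ‖ + 1 :=
      h.norm.eventually (gt_mem_nhds (by linarith))
    obtain ⟨N, hN⟩ := exists_nat_ge ‖ξ‖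
    filter_upwards [h3, eventually_ge_atTop N] with n hn hnN
    have h4 : (N : ℝ) ≤ n := by exact_mod_cast hnN
    have h5 := hG n (s.Ψ n p) (by linarith)
    have e1 : (s.Ψ n)⁻¹ (s.Ψ n p) = p := (s.Ψ n).symm_apply_apply p
    rw [e1] at h5
    rw [norm_sub_rev]
    exact h5
  exact tendsto_nhds_unique h1 h2

/-- N8b. The entire curves over the lines.
PROOF. `f n t = Ψ n (c j, t)` is entire in `t`; for `‖t‖ ≤ R` and `n ≥ N := max j ⌈R⌉`:
`‖f (n+1) t - f n t‖ ≤ ε n ≤ (1/2)^(n+2)` (`s.line`, `s.le`). So `f` converges uniformly on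
closed balls; the limit is entire by `L2_limit`. -/
theorem N8_curve (c : ℕ → ℝ) (s : PSeq c) (j : ℕ) : ∃ γ : ℂ → V2, ContDiff ℂ ∞ γ ∧
    ∀ t, Tendsto (fun n => s.Ψ n ((c j : ℂ), t)) atTop (𝓝 (γ t)) := by
  have key : ∀ R : ℝ, ∃ N : ℕ, ∀ n, N ≤ n → ∀ t ∈ Metric.closedBall (0 : ℂ) R,
      ‖s.Ψ (n + 1) ((c j : ℂ), t) - s.Ψ n ((c j : ℂ), t)‖ ≤ (1 / 2) ^ n := by
    intro R
    obtain ⟨M, hM⟩ := exists_nat_ge R
    refine ⟨max j M, fun n hn t ht => ?_⟩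
    have hj : j ≤ n := le_trans (le_max_left _ _) hn
    have hMn : (M : ℝ) ≤ n := by exact_mod_cast le_trans (le_max_right _ _) hn
    rw [Metric.mem_closedBall, dist_zero_right] at ht
    refine (s.line n j (by omega) t (by linarith)).trans ((s.le n).trans ?_)
    exact pow_le_pow_of_le_one (by norm_num) (by norm_num) (by omega)
  have hex : ∀ t : ℂ, ∃ a, Tendsto (fun n => s.Ψ n ((c j : ℂ), t)) atTop (𝓝 a) := by
    intro t
    obtain ⟨N, hN⟩ := key ‖t‖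
    exact (N8_geom (fun n t => s.Ψ n ((c j : ℂ), t)) _ N hN).1 t (by simp)
  choose γ hγ using hex
  refine ⟨γ, ?_, hγ⟩
  refine L2_limit (fun n t => s.Ψ n ((c j : ℂ), t)) γ (fun n => ?_) (fun R => ?_)
  · exact (A2_contDiff _ (s.mem n)).comp (contDiff_const.prodMk contDiff_id)
  · obtain ⟨N, hN⟩ := key R
    exact (N8_geom (fun n t => s.Ψ n ((c j : ℂ), t)) _ N hN).2 γ (fun t _ => hγ t)

end LCC
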