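import Pool.Agent.LCC.GDefs
import Pool.Agent.LCC.A2

set_option linter.unusedVariables false

open Set Filter Topology
open scoped ContDiff


namespace LCC



theorem N9_geom {α : Type} (f : ℕ → α → V2) (S : Set α) (N : ℕ)
    (h : ∀ n, N ≤ n → ∀ t ∈ S, ‖f (n + 1) t - f n t‖ ≤ (1 / 2) ^ n) :
    (∀ t ∈ S, ∃ a, Tendsto (fun n => f n t) atTop (𝓝 a)) ∧
    ∀ g : α → V2, (∀ t ∈ S, Tendsto (fun n => f n t) atTop (𝓝 (g t))) →
      TendstoUniformlyOn f g atTop S := by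
  have hd : ∀ t ∈ S, ∀ k, dist (f (k + N) t) (f (k + 1 + N) t) ≤ (1 / 2) ^ N * (1 / 2) ^ k := by
    intro t ht k
    have h1 := h (k + N) (by omega) t ht
    rw [dist_eq_norm, norm_sub_rev, ← pow_add, add_comm N k,
      show k + 1 + N = k + N + 1 by omega]
    exact h1
  refine ⟨fun t ht => ?_, fun g hg => ?_⟩
  · have hc : CauchySeq (fun k => f (k + N) t) :=
      cauchySeq_of_le_geometric (1 / 2) ((1 / 2) ^ N) (by norm_num) (hd t ht)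
    obtain ⟨a, ha⟩ := cauchySeq_tendsto_of_complete hc
    exact ⟨a, (tendsto_add_atTop_iff_nat N).mp ha⟩
  · have hb : ∀ t ∈ S, ∀ k, dist (f (k + N) t) (g t) ≤ (1 / 2) ^ N * (1 / 2) ^ k / (1 - 1 / 2) := by
      intro t ht k
      exact dist_le_of_le_geometric_of_tendsto (1 / 2) ((1 / 2) ^ N) (by norm_num) (hd t ht)
        ((tendsto_add_atTop_iff_nat N).mpr (hg t ht)) k
    rw [Metric.tendstoUniformlyOn_iff]
    intro ε hε
    have h0 : Tendsto (fun m : ℕ => 2 * (1 / 2 : ℝ) ^ m) atTop (𝓝 0) := by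
      have := (tendsto_pow_atTop_nhds_zero_of_lt_one (r := (1/2:ℝ)) (by norm_num)
        (by norm_num)).const_mul 2
      simpa using this
    filter_upwards [eventually_ge_atTop N, h0.eventually (gt_mem_nhds hε)] with n hn hlt t ht
    obtain ⟨k, rfl⟩ : ∃ k, n = k + N := ⟨n - N, by omega⟩
    rw [dist_comm]
    refine lt_of_le_of_lt (hb t ht k) (lt_of_le_of_lt (le_of_eq ?_) hlt)
    rw [pow_add]
    ring

theorem N9_step (c : ℕ → ℝ) (s : PSeq c) (x : ℝ) (hx : x ∈ Icc (0 : ℝ) 1) (n : ℕ)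
    (h : ‖s.Ψ n ((x : ℂ), (0 : ℂ))‖ ≤ n + 3) :
    ‖s.Ψ (n + 1) ((x : ℂ), (0 : ℂ)) - s.Ψ n ((x : ℂ), (0 : ℂ))‖ ≤ (1 / 2) ^ (n + 2) := by
  have h1 := s.near n _ h
  have e1 : (s.Ψ n)⁻¹ (s.Ψ n ((x : ℂ), (0 : ℂ))) = ((x : ℂ), (0 : ℂ)) :=
    (s.Ψ n).symm_apply_apply _
  rw [e1] at h1
  exact h1.trans (s.le n)

theorem N9_bound (c : ℕ → ℝ) (s : PSeq c) (x : ℝ) (hx : x ∈ Icc (0 : ℝ) 1) (n : ℕ) :
    ‖s.Ψ n ((x : ℂ), (0 : ℂ))‖ ≤ 2 - (1 / 2) ^ n := by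
  induction n with
  | zero =>
    rw [s.zero]
    simp only [Equiv.Perm.coe_one, id_eq, pow_zero, Prod.norm_def, norm_zero]
    rw [Complex.norm_real, Real.norm_eq_abs, abs_of_nonneg hx.1]
    have := hx.2
    refine max_le (by linarith) (by norm_num)
  | succ n ih =>
    have h0 : (0 : ℝ) < (1 / 2) ^ n := by positivity
    have h1 := N9_step c s x hx n (by
      have : (0 : ℝ) ≤ n := Nat.cast_nonneg n
      linarith)
    have h2 := norm_add_le (s.Ψ (n + 1) ((x : ℂ), (0 : ℂ)) - s.Ψ n ((x : ℂ), (0 : ℂ)))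
      (s.Ψ n ((x : ℂ), (0 : ℂ)))
    rw [sub_add_cancel] at h2
    rw [pow_add] at h1
    rw [pow_succ]
    have h3 : (1 / 2 : ℝ) ^ 2 = 1 / 4 := by norm_num
    rw [h3] at h1
    linarith

/-- N9. The section over the interval.
PROOF. For `0 ≤ x ≤ 1` let `q_n = Ψ n (x, 0)`. Claim: `‖q_n‖ ≤ 2 - (1/2)^n`... (any bound `≤ 2`):
`q_0 = (x,0)` has norm `≤ 1` (`s.zero`), and if `‖q_n‖ ≤ n + 3` then
`‖q_{n+1} - q_n‖ = ‖Ψ (n+1) ((Ψ n)⁻¹ q_n) - q_n‖ ≤ ε n ≤ (1/2)^(n+2)`; the sum of all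
`(1/2)^(n+2)` is `1/2`. So `x ↦ Ψ n (x,0)` converges uniformly on `[0,1]`; the maps are continuous,
so the limit is continuous on `[0,1]`. -/
theorem N9_section (c : ℕ → ℝ) (s : PSeq c) : ∃ σ : ℝ → V2, ContinuousOn σ (Icc 0 1) ∧
    ∀ x ∈ Icc (0 : ℝ) 1, Tendsto (fun n => s.Ψ n ((x : ℂ), (0 : ℂ))) atTop (𝓝 (σ x)) := by
  have key : ∀ n, 0 ≤ n → ∀ x ∈ Icc (0 : ℝ) 1,
      ‖s.Ψ (n + 1) ((x : ℂ), (0 : ℂ)) - s.Ψ n ((x : ℂ), (0 : ℂ))‖ ≤ (1 / 2) ^ n := by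
    intro n _ x hx
    have h0 : (0 : ℝ) < (1 / 2) ^ n := by positivity
    have hb := N9_bound c s x hx n
    have hn : (0 : ℝ) ≤ n := Nat.cast_nonneg n
    refine (N9_step c s x hx n (by linarith)).trans ?_
    exact pow_le_pow_of_le_one (by norm_num) (by norm_num) (by omega)
  have hgeom := N9_geom (fun n (x : ℝ) => s.Ψ n ((x : ℂ), (0 : ℂ))) (Icc (0 : ℝ) 1) 0 key
  have hex : ∀ x : ℝ, ∃ a, x ∈ Icc (0 : ℝ) 1 →
      Tendsto (fun n => s.Ψ n ((x : ℂ), (0 : ℂ))) atTop (𝓝 a) := by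
    intro x
    by_cases hx : x ∈ Icc (0 : ℝ) 1
    · obtain ⟨a, ha⟩ := hgeom.1 x hx
      exact ⟨a, fun _ => ha⟩
    · exact ⟨0, fun h => absurd h hx⟩
  choose σ hσ using hex
  refine ⟨σ, ?_, hσ⟩
  have hu := hgeom.2 σ hσ
  refine hu.continuousOn (Eventually.frequently (Eventually.of_forall fun n => ?_))
  have hc : Continuous (fun x : ℝ => s.Ψ n ((x : ℂ), (0 : ℂ))) :=
    (A2_contDiff _ (s.mem n)).continuous.comp
      (Complex.continuous_ofReal.prodMk continuous_const)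
  exact hc.continuousOn

end LCC
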