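import Pool.Agent.LCC.GDefs

set_option linter.unusedVariables false

open Set Filter Topology
open scoped ContDiff


namespace LCC



theorem P1_span_cont (g : V2 → ℂ) (hg : g ∈ expSpan) : Continuous g := by
  refine Submodule.span_induction (p := fun g _ => Continuous g) ?_ ?_ ?_ ?_ hg
  · rintro g ⟨l, rfl⟩
    exact Complex.continuous_exp.comp l.continuous
  · exact continuous_const
  · intro x y _ _ hx hy
    exact hx.add hy
  · intro a x _ hx
    exact continuous_const.mul hx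

/-- P1. Functions in `Ap` are continuous. PROOF. Elements of `expSpan` are continuous
(`Submodule.span_induction`). Locally uniform limits of continuous functions are continuous:
e.g. for `q₀` and `ε > 0` take `R = ‖q₀‖ + 1`, `g` with error `ε/3` on the ball of radius `R`. -/
theorem P1_cont (f : V2 → ℂ) (hf : Ap f) : Continuous f := by
  rw [Metric.continuous_iff]
  intro q₀ ε hε
  obtain ⟨g, hg, hgf⟩ := hf (‖q₀‖ + 1) (ε / 4) (by positivity) (by positivity)
  obtain ⟨δ, hδ, h⟩ := (Metric.continuous_iff.1 (P1_span_cont g hg)) q₀ (ε / 4) (by positivity)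
  refine ⟨min δ 1, lt_min hδ one_pos, fun q hq => ?_⟩
  have h1 : ‖q‖ ≤ ‖q₀‖ + 1 := by
    have h5 : dist q q₀ < 1 := lt_of_lt_of_le hq (min_le_right _ _)
    rw [dist_eq_norm] at h5
    have h6 : ‖q‖ ≤ ‖q - q₀‖ + ‖q₀‖ := by
      have := norm_add_le (q - q₀) q₀
      rwa [sub_add_cancel] at this
    linarith
  have h2 := hgf q h1
  have h3 := hgf q₀ (by linarith)
  have h4 := h q (lt_of_lt_of_le hq (min_le_left _ _))
  rw [dist_eq_norm] at h4 ⊢
  have e : f q - f q₀ = (f q - g q) + (g q - g q₀) - (f q₀ - g q₀) := by ring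
  have h7 := norm_sub_le ((f q - g q) + (g q - g q₀)) (f q₀ - g q₀)
  have h8 := norm_add_le (f q - g q) (g q - g q₀)
  rw [e]
  linarith

/-- P2a. PROOF. Elements of `expSpan` are in `Ap` (take `g = f`). -/
theorem P2_span (g : V2 → ℂ) (hg : g ∈ expSpan) : Ap g := by
  intro R η hR hη
  exact ⟨g, hg, fun q _ => by rw [sub_self, norm_zero]; exact hη.le⟩

/-- P2b. -/
theorem P2_exp (l : V2 →L[ℂ] ℂ) : Ap (fun q => Complex.exp (l q)) := by
  exact P2_span _ (Submodule.subset_span ⟨l, rfl⟩)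

/-- P2c. (`exp 0 = 1`, `l = 0`.) -/
theorem P2_const (c : ℂ) : Ap (fun _ => c) := by
  refine P2_span _ ?_
  have h : (fun _ : V2 => c) = c • (fun q : V2 => Complex.exp ((0 : V2 →L[ℂ] ℂ) q)) := by
    funext q
    rw [Pi.smul_apply, zero_apply, Complex.exp_zero, smul_eq_mul, mul_one]
  rw [h]
  exact Submodule.smul_mem _ _ (Submodule.subset_span ⟨0, rfl⟩)

/-- P2d. -/
theorem P2_add (f g : V2 → ℂ) (hf : Ap f) (hg : Ap g) : Ap (fun q => f q + g q) := by
  intro R η hR hη
  obtain ⟨u, hu, hu2⟩ := hf R (η / 2) hR (by positivity)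
  obtain ⟨v, hv, hv2⟩ := hg R (η / 2) hR (by positivity)
  refine ⟨u + v, Submodule.add_mem _ hu hv, fun q hq => ?_⟩
  have h1 := hu2 q hq
  have h2 := hv2 q hq
  have h3 := norm_add_le (f q - u q) (g q - v q)
  have e : f q + g q - (u + v) q = (f q - u q) + (g q - v q) := by
    rw [Pi.add_apply]
    ring
  rw [e]
  linarith

/-- P2e. -/
theorem P2_smul (f : V2 → ℂ) (c : ℂ) (hf : Ap f) : Ap (fun q => c * f q) := by
  intro R η hR hη
  have hc : 0 < ‖c‖ + 1 := by positivity
  obtain ⟨u, hu, hu2⟩ := hf R (η / (‖c‖ + 1)) hR (by positivity)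
  refine ⟨c • u, Submodule.smul_mem _ _ hu, fun q hq => ?_⟩
  have h1 := hu2 q hq
  have e : c * f q - (c • u) q = c * (f q - u q) := by
    rw [Pi.smul_apply, smul_eq_mul]
    ring
  rw [e, norm_mul]
  have h2 : (‖c‖ + 1) * ‖f q - u q‖ ≤ η := by
    have := mul_le_mul_of_nonneg_left h1 hc.le
    rwa [mul_div_cancel₀ _ hc.ne'] at this
  have h3 : 0 ≤ ‖f q - u q‖ := norm_nonneg _
  nlinarith

/-- P2f. -/
theorem P2_sub (f g : V2 → ℂ) (hf : Ap f) (hg : Ap g) : Ap (fun q => f q - g q) := by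
  have h := P2_add f (fun q => (-1 : ℂ) * g q) hf (P2_smul g (-1) hg)
  have e : (fun q => f q - g q) = fun q => f q + (-1 : ℂ) * g q := by
    funext q
    ring
  rw [e]
  exact h

/-- P2g. Locally uniform limits of functions in `Ap` are in `Ap` (errors `η/2 + η/2`). -/
theorem P2_lim (f : V2 → ℂ)
    (h : ∀ R η : ℝ, 0 < R → 0 < η → ∃ g : V2 → ℂ, Ap g ∧ ∀ q, ‖q‖ ≤ R → ‖f q - g q‖ ≤ η) :
    Ap f := by
  intro R η hR hη
  obtain ⟨g, hg, hg2⟩ := h R (η / 2) hR (by positivity)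
  obtain ⟨u, hu, hu2⟩ := hg R (η / 2) hR (by positivity)
  refine ⟨u, hu, fun q hq => ?_⟩
  have h1 := hg2 q hq
  have h2 := hu2 q hq
  have h3 := norm_add_le (f q - g q) (g q - u q)
  rw [sub_add_sub_cancel] at h3
  linarith

end LCC
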