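import Pool.Agent.LCC.GDefs
import Pool.Agent.LCC.P1

set_option linter.unusedVariables false

open Set Filter Topology
open scoped ContDiff


namespace LCC



theorem P3_span_mul {f g : V2 → ℂ} (hf : f ∈ expSpan) (hg : g ∈ expSpan) :
    f * g ∈ expSpan := by
  have h : f * g ∈ expSpan * expSpan := Submodule.mul_mem_mul hf hg
  unfold expSpan at h ⊢
  rw [Submodule.span_mul_span] at h
  refine Submodule.span_mono ?_ h
  rintro _ ⟨_, ⟨l, rfl⟩, _, ⟨l', rfl⟩, rfl⟩
  exact ⟨l + l', by ext q; simp [Complex.exp_add]⟩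

/-- P3a. Products of functions in `Ap` are in `Ap`.
PROOF. `expSpan` is closed under products: by `Submodule.span_induction` twice, since
`exp(l q) exp(l' q) = exp((l + l') q)`. Given `R, η`, `f` and `g` are continuous by `P1_cont`, hence
bounded by some `B ≥ 1` on the closed ball of radius `R` (compact: `isCompact_closedBall`). Take
`f'` with error `η' = min 1 (η/(3B))` and `g'` with error `η'`; then
`f g - f' g' = f (g - g') + (f - f') g'` and `‖g'‖ ≤ B + 1 ≤ 2B`, so the error is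
`≤ B η' + 2 B η' ≤ η`. -/
theorem P3_mul (f g : V2 → ℂ) (hf : Ap f) (hg : Ap g) : Ap (fun q => f q * g q) := by
  intro R η hR hη
  have hcf := P1_cont f hf
  have hcg := P1_cont g hg
  have hK : IsCompact (Metric.closedBall (0 : V2) R) := isCompact_closedBall 0 R
  obtain ⟨Bf, hBf⟩ := hK.exists_bound_of_continuousOn hcf.continuousOn
  obtain ⟨Bg, hBg⟩ := hK.exists_bound_of_continuousOn hcg.continuousOn
  set B := max 1 (max Bf Bg) with hB
  have hB1 : 1 ≤ B := le_max_left _ _
  have hBf' : ∀ q : V2, ‖q‖ ≤ R → ‖f q‖ ≤ B := fun q hq =>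
    (hBf q (by simpa using hq)).trans ((le_max_left _ _).trans (le_max_right _ _))
  have hBg' : ∀ q : V2, ‖q‖ ≤ R → ‖g q‖ ≤ B := fun q hq =>
    (hBg q (by simpa using hq)).trans ((le_max_right _ _).trans (le_max_right _ _))
  set η' := min 1 (η / (3 * B)) with hη'
  have hη'0 : 0 < η' := lt_min one_pos (by positivity)
  have hη'1 : η' ≤ 1 := min_le_left _ _
  have hη'2 : 3 * B * η' ≤ η := by
    have h := min_le_right (1 : ℝ) (η / (3 * B))
    rw [le_div_iff₀ (by positivity)] at h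
    calc 3 * B * η' = η' * (3 * B) := by ring
      _ ≤ η := h
  obtain ⟨f', hf'm, hf'⟩ := hf R η' hR hη'0
  obtain ⟨g', hg'm, hg'⟩ := hg R η' hR hη'0
  refine ⟨f' * g', P3_span_mul hf'm hg'm, fun q hq => ?_⟩
  have h1 := hf' q hq
  have h2 := hg' q hq
  have h3 : ‖g' q‖ ≤ 2 * B := by
    have : ‖g' q‖ ≤ ‖g q‖ + ‖g q - g' q‖ := by
      have e : g' q = g q - (g q - g' q) := by ring
      calc ‖g' q‖ = ‖g q - (g q - g' q)‖ := by rw [← e]
        _ ≤ ‖g q‖ + ‖g q - g' q‖ := norm_sub_le _ _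
    have := hBg' q hq
    linarith
  have e : f q * g q - (f' * g') q = f q * (g q - g' q) + (f q - f' q) * g' q := by
    simp only [Pi.mul_apply]; ring
  calc ‖f q * g q - (f' * g') q‖ = ‖f q * (g q - g' q) + (f q - f' q) * g' q‖ := by rw [e]
    _ ≤ ‖f q * (g q - g' q)‖ + ‖(f q - f' q) * g' q‖ := norm_add_le _ _
    _ = ‖f q‖ * ‖g q - g' q‖ + ‖f q - f' q‖ * ‖g' q‖ := by rw [norm_mul, norm_mul]
    _ ≤ B * η' + η' * (2 * B) :=
        add_le_add (mul_le_mul (hBf' q hq) h2 (norm_nonneg _) (by positivity))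
          (mul_le_mul h1 h3 (norm_nonneg _) hη'0.le)
    _ = 3 * B * η' := by ring
    _ ≤ η := hη'2

end LCC
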