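import Pool.Agent.LCC.GDefs
import Pool.Agent.LCC.P1
import Pool.Agent.LCC.P3

set_option linter.unusedVariables false

open Set Filter Topology
open scoped ContDiff


namespace LCC



/-- P3b. Powers (induction). -/
theorem P3_pow (f : V2 → ℂ) (hf : Ap f) (n : ℕ) : Ap (fun q => f q ^ n) := by
  induction n with
  | zero => simpa using P2_const 1
  | succ n ih =>
    have h := P3_mul _ _ ih hf
    simpa [pow_succ] using h

/-- P3c. Finite products (`Finset.induction_on`). -/
theorem P3_prod {ι : Type} (s : Finset ι) (f : ι → V2 → ℂ) (hf : ∀ i ∈ s, Ap (f i)) :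
    Ap (fun q => ∏ i ∈ s, f i q) := by
  classical
  induction s using Finset.induction_on with
  | empty => simpa using P2_const 1
  | insert a s ha ih =>
    have h1 := hf a (Finset.mem_insert_self a s)
    have h2 := ih (fun i hi => hf i (Finset.mem_insert_of_mem hi))
    have h := P3_mul _ _ h1 h2
    have e : (fun q => ∏ i ∈ insert a s, f i q) = fun q => f a q * ∏ i ∈ s, f i q := by
      funext q
      rw [Finset.prod_insert ha]
    rw [e]
    exact h

theorem P3b_sum {ι : Type} (s : Finset ι) (f : ι → V2 → ℂ) (hf : ∀ i ∈ s, Ap (f i)) :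
    Ap (fun q => ∑ i ∈ s, f i q) := by
  classical
  induction s using Finset.induction_on with
  | empty => simpa using P2_const 0
  | insert a s ha ih =>
    have h1 := hf a (Finset.mem_insert_self a s)
    have h2 := ih (fun i hi => hf i (Finset.mem_insert_of_mem hi))
    have h := P2_add _ _ h1 h2
    have e : (fun q => ∑ i ∈ insert a s, f i q) = fun q => f a q + ∑ i ∈ s, f i q := by
      funext q
      rw [Finset.sum_insert ha]
    rw [e]
    exact h

/-- P3d. Polynomials of functions in `Ap` (`Polynomial.eval_eq_sum_range` and finite sums by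
induction, or `Polynomial.induction_on`). -/
theorem P3_poly (P : Polynomial ℂ) (f : V2 → ℂ) (hf : Ap f) : Ap (fun q => P.eval (f q)) := by
  have e : (fun q => P.eval (f q)) =
      fun q => ∑ i ∈ Finset.range (P.natDegree + 1), P.coeff i * f q ^ i := by
    funext q
    rw [Polynomial.eval_eq_sum_range]
  rw [e]
  exact P3b_sum _ _ (fun i _ => P2_smul _ _ (P3_pow f hf i))

end LCC
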