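import Pool.Agent.LCC.GDefs
import Pool.Agent.LCC.P1
import Pool.Agent.LCC.P3
import Pool.Agent.LCC.P3b

set_option linter.unusedVariables false

open Set Filter Topology
open scoped ContDiff


namespace LCC



theorem P4_sum {ι : Type} (s : Finset ι) (f : ι → V2 → ℂ) (hf : ∀ i ∈ s, Ap (f i)) :
    Ap (fun q => ∑ i ∈ s, f i q) := by
  classical
  induction s using Finset.induction_on with
  | empty => simpa using P2_const 0
  | insert a s ha ih =>
    have h1 := hf a (Finset.mem_insert_self a s)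
    have h2 := ih (fun i hi => hf i (Finset.mem_insert_of_mem hi))
    have h := P2_add _ _ h1 h2
    have e : (fun q => ∑ i ∈ insert a s, f i q) = fun q => f a q + ∑ i ∈ s, f i q := by
      funext q
      rw [Finset.sum_insert ha]
    rw [e]
    exact h

/-- P4. Linear functions are in `Ap`.
PROOF. For real `0 < h ≤ 1` the function `(exp(h l q) - 1)/h` is in `Ap` (P2), and for `‖q‖ ≤ R`,
`μ = ‖l‖ R + 1`, `h μ ≤ 1`: `‖(exp(h l q) - 1)/h - l q‖ = ‖exp(h l q) - 1 - h l q‖/h ≤ h μ^2`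
(`Complex.norm_exp_sub_one_sub_id_le`). Use `P2_lim`. -/
theorem P4_lin (l : V2 →L[ℂ] ℂ) : Ap (fun q => l q) := by
  refine P2_lim _ ?_
  intro R η hR hη
  set μ : ℝ := ‖l‖ * R + 1 with hμ
  have hμ1 : 1 ≤ μ := by
    have : 0 ≤ ‖l‖ * R := mul_nonneg (norm_nonneg _) hR.le
    linarith
  have hμ0 : 0 < μ := by linarith
  set h : ℝ := min (1 / μ) (η / μ ^ 2) with hh
  have hh0 : 0 < h := lt_min (by positivity) (by positivity)
  have hh1 : h * μ ≤ 1 := by
    calc h * μ ≤ (1 / μ) * μ := mul_le_mul_of_nonneg_right (min_le_left _ _) hμ0.le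
      _ = 1 := by field_simp
  have hh2 : h * μ ^ 2 ≤ η := by
    calc h * μ ^ 2 ≤ (η / μ ^ 2) * μ ^ 2 :=
          mul_le_mul_of_nonneg_right (min_le_right _ _) (by positivity)
      _ = η := by field_simp
  refine ⟨fun q => ((h : ℂ)⁻¹) * (Complex.exp (((h : ℂ) • l) q) - 1),
    P2_smul _ _ (P2_sub _ _ (P2_exp _) (P2_const 1)), ?_⟩
  intro q hq
  have hhc : (h : ℂ) ≠ 0 := by exact_mod_cast hh0.ne'
  have hlq : ‖l q‖ ≤ μ := by
    calc ‖l q‖ ≤ ‖l‖ * ‖q‖ := l.le_opNorm q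
      _ ≤ ‖l‖ * R := mul_le_mul_of_nonneg_left hq (norm_nonneg _)
      _ ≤ μ := by linarith
  have hx : ‖(h : ℂ) * l q‖ ≤ h * μ := by
    rw [norm_mul, Complex.norm_real, Real.norm_of_nonneg hh0.le]
    exact mul_le_mul_of_nonneg_left hlq hh0.le
  have hb := Complex.norm_exp_sub_one_sub_id_le (x := (h : ℂ) * l q) (hx.trans hh1)
  have e : l q - (h : ℂ)⁻¹ * (Complex.exp (((h : ℂ) • l) q) - 1)
      = -((h : ℂ)⁻¹ * (Complex.exp ((h : ℂ) * l q) - 1 - (h : ℂ) * l q)) := by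
    have : ((h : ℂ) • l) q = (h : ℂ) * l q := by simp
    rw [this]
    field_simp
    ring
  rw [e, norm_neg, norm_mul, norm_inv, Complex.norm_real, Real.norm_of_nonneg hh0.le]
  calc h⁻¹ * ‖Complex.exp ((h : ℂ) * l q) - 1 - (h : ℂ) * l q‖
      ≤ h⁻¹ * (h * μ) ^ 2 := by
        refine mul_le_mul_of_nonneg_left ?_ (inv_nonneg.mpr hh0.le)
        exact hb.trans (pow_le_pow_left₀ (norm_nonneg _) hx 2)
    _ = h * μ ^ 2 := by field_simp
    _ ≤ η := hh2

/-- P5. If `f` is in `Ap`, so is `exp f`.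
PROOF. On the closed ball of radius `R` we have `‖f‖ ≤ B`. The finite sums
`∑ k in range N, f^k / k!` are in `Ap` (P2, P3, finite sums by induction) and converge to `exp f`
uniformly where `‖f‖ ≤ B`: e.g. `Complex.exp_bound'` (`‖x‖ / (n+1) ≤ 1/2` gives
`‖exp x - ∑ m in range n, x^m/m!‖ ≤ ‖x‖^n / n! * 2`) and `B^n/n! → 0`
(`FloorSemiring.tendsto_pow_div_factorial_atTop`). Use `P2_lim`. -/
theorem P5_exp (f : V2 → ℂ) (hf : Ap f) : Ap (fun q => Complex.exp (f q)) := by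
  refine P2_lim _ ?_
  intro R η hR hη
  have hc : Continuous f := P1_cont f hf
  have hK : IsCompact (Metric.closedBall (0 : V2) R) := isCompact_closedBall _ _
  obtain ⟨B, hB⟩ := hK.exists_bound_of_continuousOn hc.continuousOn
  have hB' : ∀ q : V2, ‖q‖ ≤ R → ‖f q‖ ≤ max B 0 := by
    intro q hq
    exact (hB q (by simpa using hq)).trans (le_max_left _ _)
  set D : ℝ := max B 0 with hD
  have hD0 : 0 ≤ D := le_max_right _ _
  have ht := FloorSemiring.tendsto_pow_div_factorial_atTop D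
  have ht2 : ∀ᶠ n : ℕ in atTop, D ^ n / (n.factorial : ℝ) < η / 2 :=
    ht.eventually (gt_mem_nhds (by positivity))
  have ht3 : ∀ᶠ n : ℕ in atTop, 2 * D ≤ (n : ℝ) :=
    (tendsto_natCast_atTop_atTop (R := ℝ)).eventually (eventually_ge_atTop _)
  obtain ⟨n, hn1, hn2⟩ := (ht2.and ht3).exists
  refine ⟨fun q => ∑ m ∈ Finset.range n, (((m.factorial : ℂ))⁻¹ * f q ^ m),
    P4_sum _ _ (fun m _ => P2_smul _ _ (P3_pow f hf m)), ?_⟩
  intro q hq
  have h1 := hB' q hq
  have h2 : ‖f q‖ / ((n.succ : ℕ) : ℝ) ≤ 1 / 2 := by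
    rw [div_le_iff₀ (by positivity)]
    push_cast
    linarith
  have h3 := Complex.exp_bound' h2
  have e : (∑ m ∈ Finset.range n, (((m.factorial : ℂ))⁻¹ * f q ^ m))
      = ∑ m ∈ Finset.range n, f q ^ m / (m.factorial : ℂ) := by
    refine Finset.sum_congr rfl (fun m _ => ?_)
    rw [div_eq_mul_inv, mul_comm]
  beta_reduce
  rw [e]
  refine h3.trans ?_
  have h4 : ‖f q‖ ^ n / (n.factorial : ℝ) ≤ D ^ n / (n.factorial : ℝ) := by
    gcongr
  linarith

end LCC
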