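import Pool.Agent.LCC.GDefs
import Pool.Agent.LCC.G1
import Pool.Agent.LCC.G2
import Pool.Agent.LCC.G6
import Pool.Agent.LCC.P1

set_option linter.unusedVariables false

open Set Filter Topology
open scoped ContDiff


namespace LCC



theorem P8_span (g : V2 → ℂ) (hg : g ∈ expSpan) (u : V2) : Good (fun q => g q • u) := by
  unfold expSpan at hg
  induction hg using Submodule.span_induction with
  | mem x hx =>
    obtain ⟨l, rfl⟩ := hx
    exact G6_exp l u
  | zero =>
    have h : (fun q : V2 => (0 : V2 → ℂ) q • u) = fun _ => 0 := by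
      funext q
      rw [Pi.zero_apply, zero_smul]
    rw [h]
    exact G2_zero
  | add x y hx hy h1 h2 =>
    have h : (fun q : V2 => (x + y) q • u) = fun q : V2 => x q • u + y q • u := by
      funext q
      rw [Pi.add_apply, add_smul]
    rw [h]
    exact G1_add (fun q => x q • u) (fun q => y q • u) h1 h2
      ((P1_cont x (P2_span x hx)).smul continuous_const)
      ((P1_cont y (P2_span y hy)).smul continuous_const)
  | smul a x hx h1 =>
    have h : (fun q : V2 => (a • x) q • u) = fun q : V2 => a • (x q • u) := by
      funext q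
      rw [Pi.smul_apply, smul_assoc]
    rw [h]
    exact G2_smul (fun q => x q • u) h1 a

/-- P8. If `f` is in `Ap`, the field `f u` is good.
PROOF. By `G3_lim` it is enough to treat `g • u` with `g ∈ expSpan` (the error is multiplied by `‖u‖`:
use `η/(‖u‖+1)`). By `Submodule.span_induction`: `g = exp ∘ l` is `G6_exp`; sums: `G1_add` (elements
of `expSpan` are continuous, by `P2_span`, `P1_cont`); multiples: `G2_smul`; zero: `G2_zero`. (Use
the predicate `Good (fun q => g q • u)`; for sums the continuity comes from membership: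
`Submodule.span_induction` gives the membership of the summands.) -/
theorem P8_good (f : V2 → ℂ) (hf : Ap f) (u : V2) : Good (fun q => f q • u) := by
  refine G3_lim (fun q => f q • u) fun R η hR hη => ?_
  have hu : 0 < ‖u‖ + 1 := by positivity
  obtain ⟨g, hg, hg2⟩ := hf R (η / (‖u‖ + 1)) hR (by positivity)
  refine ⟨fun q => g q • u, P8_span g hg u, fun q hq => ?_⟩
  have h1 := hg2 q hq
  have h2 : (‖u‖ + 1) * ‖f q - g q‖ ≤ η := by
    have := mul_le_mul_of_nonneg_left h1 hu.le
    rwa [mul_div_cancel₀ _ hu.ne'] at this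
  have h3 : 0 ≤ ‖f q - g q‖ := norm_nonneg _
  change ‖f q • u - g q • u‖ ≤ η
  rw [← sub_smul, norm_smul]
  nlinarith

/-- P9. PROOF. `(f q, g q) = f q • (1,0) + g q • (0,1)`; `G1_add`, continuity from `P1_cont`. -/
theorem P9_pair (f g : V2 → ℂ) (hf : Ap f) (hg : Ap g) :
    Good (fun q => ((f q, g q) : V2)) := by
  have h : (fun q => ((f q, g q) : V2)) =
      fun q : V2 => f q • ((1, 0) : V2) + g q • ((0, 1) : V2) := by
    funext q
    ext <;> simp
  rw [h]
  exact G1_add (fun q => f q • ((1, 0) : V2)) (fun q => g q • ((0, 1) : V2)) (P8_good f hf _)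
    (P8_good g hg _) ((P1_cont f hf).smul continuous_const) ((P1_cont g hg).smul continuous_const)

end LCC
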