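import Pool.Agent.LCC.GDefs
import Pool.Agent.LCC.P1
import Pool.Agent.LCC.P3
import Pool.Agent.LCC.P4

set_option linter.unusedVariables false

open Set Filter Topology
open scoped ContDiff


namespace LCC



/-- P6. If `f` is in `Ap` and both components of `F` are in `Ap`, then `f ∘ F` is in `Ap`.
PROOF. `F` is continuous (P1), so `F` maps the closed ball of radius `R` into some closed ball of
radius `R'`. Take `g ∈ expSpan` with `‖f - g‖ ≤ η` on the ball of radius `R'`. It remains to show
that `g ∘ F` is in `Ap` (then `P2_lim`): by `Submodule.span_induction` (with P2 for sums, multiples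
and zero) it is enough to take `g = exp ∘ l`; and `l (F q) = l (1,0) * (F q).1 + l (0,1) * (F q).2` is
in `Ap` by P2, so `exp (l (F q))` is in `Ap` by `P5_exp`. -/
theorem P6_comp (f : V2 → ℂ) (hf : Ap f) (F : V2 → V2) (h1 : Ap (fun q => (F q).1))
    (h2 : Ap (fun q => (F q).2)) : Ap (fun q => f (F q)) := by
  have hspan : ∀ g ∈ expSpan, Ap (fun q => g (F q)) := by
    intro g hg
    induction hg using Submodule.span_induction with
    | mem g hg =>
      obtain ⟨l, rfl⟩ := hg
      have hl : Ap (fun q => l (F q)) := by
        have h3 := P2_add _ _ (P2_smul _ (l (1, 0)) h1) (P2_smul _ (l (0, 1)) h2)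
        have h4 : (fun q => l (F q)) =
            fun q => l (1, 0) * (F q).1 + l (0, 1) * (F q).2 := by
          funext q
          have h5 : F q = (F q).1 • ((1, 0) : V2) + (F q).2 • ((0, 1) : V2) := by
            ext <;> simp
          conv_lhs => rw [h5]
          rw [map_add, map_smul, map_smul, smul_eq_mul, smul_eq_mul]
          ring
        rw [h4]
        exact h3
      exact P5_exp _ hl
    | zero => exact P2_const 0
    | add g g' _ _ hg hg' => exact P2_add _ _ hg hg'
    | smul a g _ hg => exact P2_smul _ a hg
  have hc : Continuous F := by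
    have h3 := P1_cont _ h1
    have h4 := P1_cont _ h2
    exact h3.prodMk h4
  refine P2_lim _ (fun R η hR hη => ?_)
  obtain ⟨C, hC⟩ := (isCompact_closedBall (0 : V2) R).exists_bound_of_continuousOn hc.continuousOn
  obtain ⟨g, hg, hfg⟩ := hf (max C 1) η (lt_max_of_lt_right one_pos) hη
  refine ⟨fun q => g (F q), hspan g hg, fun q hq => hfg (F q) ?_⟩
  exact (hC q (by simpa using hq)).trans (le_max_left _ _)

end LCC
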