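import Pool.Agent.LCC.GDefs
import Pool.Agent.LCC.A1
import Pool.Agent.LCC.P1
import Pool.Agent.LCC.P3
import Pool.Agent.LCC.P4
import Pool.Agent.LCC.P6

set_option linter.unusedVariables false

open Set Filter Topology
open scoped ContDiff


namespace LCC



theorem P7_fst : Ap (fun q : V2 => q.1) := P4_lin (ContinuousLinearMap.fst ℂ ℂ ℂ)

theorem P7_snd : Ap (fun q : V2 => q.2) := P4_lin (ContinuousLinearMap.snd ℂ ℂ ℂ)

theorem P7_gen (e : Equiv.Perm V2) (he : IsGen e) :
    Ap (fun q => (e q).1) ∧ Ap (fun q => (e q).2) := by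
  rcases he with ⟨l, v, a, hv, h⟩ | ⟨l, m, v, a, hv, hm, h⟩
  · have hA : ∀ c : ℂ, Ap (fun q : V2 => c * (a * Complex.exp (l q))) := fun c =>
      P2_smul _ _ (P2_smul _ _ (P2_exp l))
    constructor
    · have h2 := P2_add _ _ P7_fst (hA v.1)
      have e2 : (fun q => (e q).1) = fun q : V2 => q.1 + v.1 * (a * Complex.exp (l q)) := by
        funext q
        rw [h q]
        simp [shearFun, mul_comm]
      rw [e2]
      exact h2
    · have h2 := P2_add _ _ P7_snd (hA v.2)
      have e2 : (fun q => (e q).2) = fun q : V2 => q.2 + v.2 * (a * Complex.exp (l q)) := by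
        funext q
        rw [h q]
        simp [shearFun, mul_comm]
      rw [e2]
      exact h2
  · have hA : ∀ c : ℂ, Ap (fun q : V2 => c * ((Complex.exp (a * Complex.exp (l q)) - 1) * m q)) :=
      fun c => P2_smul _ _ (P3_mul _ _ (P2_sub _ _ (P5_exp _ (P2_smul _ _ (P2_exp l))) (P2_const 1))
        (P4_lin m))
    constructor
    · have h2 := P2_add _ _ P7_fst (hA v.1)
      have e2 : (fun q => (e q).1) = fun q : V2 =>
          q.1 + v.1 * ((Complex.exp (a * Complex.exp (l q)) - 1) * m q) := by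
        funext q
        rw [h q]
        simp only [overFun, Prod.fst_add, Prod.smul_fst, smul_eq_mul]
        ring
      rw [e2]
      exact h2
    · have h2 := P2_add _ _ P7_snd (hA v.2)
      have e2 : (fun q => (e q).2) = fun q : V2 =>
          q.2 + v.2 * ((Complex.exp (a * Complex.exp (l q)) - 1) * m q) := by
        funext q
        rw [h q]
        simp only [overFun, Prod.snd_add, Prod.smul_snd, smul_eq_mul]
        ring
      rw [e2]
      exact h2

theorem P7_both (e : Equiv.Perm V2) (he : e ∈ Aut) :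
    (Ap (fun q => (e q).1) ∧ Ap (fun q => (e q).2)) ∧
    (Ap (fun q => (e⁻¹ q).1) ∧ Ap (fun q => (e⁻¹ q).2)) := by
  unfold Aut at he
  induction he using Subgroup.closure_induction with
  | mem x hx => exact ⟨P7_gen x hx, P7_gen x⁻¹ (A1_inv x hx)⟩
  | one =>
    refine ⟨⟨?_, ?_⟩, ⟨?_, ?_⟩⟩
    · simpa using P7_fst
    · simpa using P7_snd
    · simpa using P7_fst
    · simpa using P7_snd
  | mul x y hx hy ihx ihy =>
    obtain ⟨⟨x1, x2⟩, ⟨x3, x4⟩⟩ := ihx
    obtain ⟨⟨y1, y2⟩, ⟨y3, y4⟩⟩ := ihy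
    refine ⟨⟨?_, ?_⟩, ⟨?_, ?_⟩⟩
    · exact P6_comp _ x1 (fun q => y q) y1 y2
    · exact P6_comp _ x2 (fun q => y q) y1 y2
    · have h := P6_comp _ y3 (fun q => x⁻¹ q) x3 x4
      simpa [mul_inv_rev] using h
    · have h := P6_comp _ y4 (fun q => x⁻¹ q) x3 x4
      simpa [mul_inv_rev] using h
  | inv x hx ih =>
    refine ⟨ih.2, ?_⟩
    simpa using ih.1

/-- P7. The components of an element of `Aut` are in `Ap`.
PROOF. `Subgroup.closure_induction` with the predicate: both components of `e` and both components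
of `e⁻¹` are in `Ap`. Generators: `(shearFun l v a p).1 = p.1 + a * exp(l p) * v.1` is in `Ap` by
P2, P3, P4 (`p.1` is `ContinuousLinearMap.fst`, `p.2` is `ContinuousLinearMap.snd`);
`(overFun l m v a p).1 = p.1 + (exp(a * exp(l p)) - 1) * m p * v.1` is in `Ap` by P2, P3, P4, P5; the
inverse of a generator is a generator by `A1_inv`. `mul`: `(e₁ * e₂) p = e₁ (e₂ p)`, use `P6_comp`
(and `(e₁ * e₂)⁻¹ = e₂⁻¹ * e₁⁻¹`). `one`: coordinates. `inv`: swap. -/
theorem P7_aut (e : Equiv.Perm V2) (he : e ∈ Aut) :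
    Ap (fun q => (e q).1) ∧ Ap (fun q => (e q).2) := by
  have h1 := P7_both e he
  exact h1.1

end LCC
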