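import Pool.Agent.LCC.GDefs

set_option linter.unusedVariables false

open Set Filter Topology
open scoped ContDiff


namespace LCC



/-- The iterates. -/
noncomputable def S1_P : ℕ → Polynomial ℂ
  | 0 => Polynomial.X
  | k + 1 => 3 * S1_P k ^ 2 - 2 * S1_P k ^ 3

theorem S1_succ (k : ℕ) (u : ℂ) : (S1_P (k + 1)).eval u =
    3 * (S1_P k).eval u ^ 2 - 2 * (S1_P k).eval u ^ 3 := by
  simp [S1_P]

theorem S1_small (k : ℕ) (u : ℂ) (hu : ‖u‖ ≤ 1 / 10) :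
    ‖(S1_P k).eval u‖ ≤ (32 / 100) ^ k / 10 := by
  induction k with
  | zero => simpa [S1_P] using hu
  | succ k ih =>
    rw [S1_succ]
    set x := (S1_P k).eval u
    have hk1 : ((32 : ℝ) / 100) ^ k ≤ 1 := pow_le_one₀ (by norm_num) (by norm_num)
    have hk0 : (0 : ℝ) < (32 / 100) ^ k := by positivity
    have hx : ‖x‖ ≤ 1 / 10 := by linarith
    have hx0 := norm_nonneg x
    calc ‖3 * x ^ 2 - 2 * x ^ 3‖ ≤ ‖3 * x ^ 2‖ + ‖2 * x ^ 3‖ := norm_sub_le _ _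
      _ = 3 * ‖x‖ ^ 2 + 2 * ‖x‖ ^ 3 := by simp [norm_mul, norm_pow]
      _ = (3 * ‖x‖ + 2 * ‖x‖ ^ 2) * ‖x‖ := by ring
      _ ≤ (32 / 100) * ‖x‖ := by
          apply mul_le_mul_of_nonneg_right _ hx0
          nlinarith
      _ ≤ (32 / 100) * ((32 / 100) ^ k / 10) := by
          apply mul_le_mul_of_nonneg_left ih (by norm_num)
      _ = (32 / 100) ^ (k + 1) / 10 := by rw [pow_succ]; ring

theorem S1_symm (k : ℕ) (w : ℂ) : (S1_P k).eval (1 - w) = 1 - (S1_P k).eval w := by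
  induction k with
  | zero => simp [S1_P]
  | succ k ih => rw [S1_succ, S1_succ, ih]; ring

/-- S1. A polynomial near `0` on the disc of radius `1/10` about `0` and near `1` on the disc of
radius `1/10` about `1`.
PROOF. Let `s(u) = 3u^2 - 2u^3` and let `P_k` be its `k`-th iterate (`P_0 = X`,
`P_{k+1} = s.comp P_k` or `3 P_k^2 - 2 P_k^3`). If `‖u‖ ≤ 1/10` then `‖s(u)‖ ≤ (3‖u‖ + 2‖u‖^2) ‖u‖
≤ (32/100) ‖u‖`, so by induction `‖P_k(u)‖ ≤ (32/100)^k / 10`. Since `s(1 - w) = 1 - s(w)` we get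
`P_k(1 - w) = 1 - P_k(w)`, so the second claim follows from the first with `w = 1 - u`. -/
theorem S1_bump (η : ℝ) (hη : 0 < η) : ∃ P : Polynomial ℂ,
    (∀ u : ℂ, ‖u‖ ≤ 1 / 10 → ‖P.eval u‖ ≤ η) ∧
    ∀ u : ℂ, ‖u - 1‖ ≤ 1 / 10 → ‖P.eval u - 1‖ ≤ η := by
  obtain ⟨k, hk⟩ := exists_pow_lt_of_lt_one (show (0:ℝ) < 10 * η by positivity)
    (show (32/100:ℝ) < 1 by norm_num)
  have h0 : ∀ u : ℂ, ‖u‖ ≤ 1 / 10 → ‖(S1_P k).eval u‖ ≤ η := by
    intro u hu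
    have := S1_small k u hu
    linarith
  refine ⟨S1_P k, h0, fun u hu => ?_⟩
  have h1 := h0 (1 - u) (by rw [norm_sub_rev]; exact hu)
  have h2 := S1_symm k (1 - u)
  rw [sub_sub_cancel] at h2
  rw [h2]
  have e : (1 - (S1_P k).eval (1 - u)) - 1 = -(S1_P k).eval (1 - u) := by ring
  rw [e, norm_neg]
  exact h1

end LCC
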