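import Pool.Agent.LCC.GDefs

set_option linter.unusedVariables false

open Set Filter Topology
open scoped ContDiff


namespace LCC



theorem S2_prod_near (J : Finset ℝ) : ∀ η : ℝ, 0 < η → ∃ δ : ℝ, 0 < δ ∧ ∀ u : ℝ → ℂ,
    (∀ c ∈ J, ‖u c‖ ≤ δ) → ‖∏ c ∈ J, (1 - u c) - 1‖ ≤ η := by
  classical
  induction J using Finset.induction_on with
  | empty =>
    intro η hη
    refine ⟨1, one_pos, fun u _ => ?_⟩
    rw [Finset.prod_empty, sub_self, norm_zero]
    exact hη.le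
  | insert a J ha ih =>
    intro η hη
    obtain ⟨δ, hδ, h⟩ := ih (min (η / 3) 1) (lt_min (by positivity) one_pos)
    refine ⟨min δ (η / 3), lt_min hδ (by positivity), fun u hu => ?_⟩
    have h1 := h u fun c hc => (hu c (Finset.mem_insert_of_mem hc)).trans (min_le_left _ _)
    have h2 := (hu a (Finset.mem_insert_self a J)).trans (min_le_right _ _)
    have h3 := h1.trans (min_le_left _ _)
    have h4 := h1.trans (min_le_right _ _)
    rw [Finset.prod_insert ha]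
    set P : ℂ := ∏ c ∈ J, (1 - u c) with hP
    have h5 : ‖P‖ ≤ 2 := by
      have : P = (P - 1) + 1 := by ring
      rw [this]
      refine (norm_add_le _ _).trans ?_
      rw [norm_one]
      linarith
    have h6 : (1 - u a) * P - 1 = (P - 1) - u a * P := by ring
    rw [h6]
    refine (norm_sub_le _ _).trans ?_
    have h7 : ‖u a * P‖ ≤ (η / 3) * 2 := by
      rw [norm_mul]
      exact mul_le_mul h2 h5 (norm_nonneg _) (by positivity)
    linarith

/-- S2. A polynomial which vanishes at the points of `J` and is near `1` on the closed disc of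
radius one about `100`.
PROOF. `Q_L = ∏ c in J, (1 - ((X - 100)/(c - 100))^L)`. It vanishes at the points of `J`. For
`‖x - 100‖ ≤ 1` each `u_c = ((x - 100)/(c - 100))^L` satisfies `‖u_c‖ ≤ (1/99)^L` (as
`|c - 100| ≥ 99`). For a finite set `J` and `δ ≤ 1`, `‖u_c‖ ≤ δ` for all `c` implies
`‖∏ (1 - u_c) - 1‖ ≤ (1 + δ)^(card J) - 1` (induction on `J`), or use the continuity of
`u ↦ ∏ c in J, (1 - u c)` at `0` on `J → ℂ`; let `L → ∞`. -/
theorem S2_prod (J : Finset ℝ) (hJ : ∀ c ∈ J, 0 ≤ c ∧ c ≤ 1) (η : ℝ) (hη : 0 < η) :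
    ∃ Q : Polynomial ℂ, (∀ c ∈ J, Q.eval (c : ℂ) = 0) ∧
      ∀ x : ℂ, ‖x - 100‖ ≤ 1 → ‖Q.eval x - 1‖ ≤ η := by
  obtain ⟨δ, hδ, h⟩ := S2_prod_near J η hη
  obtain ⟨L, hL⟩ := exists_pow_lt_of_lt_one hδ (show (1 / 99 : ℝ) < 1 by norm_num)
  have hc99 : ∀ c ∈ J, 99 ≤ ‖(c : ℂ) - 100‖ := by
    intro c hc
    have h1 : ((c : ℂ) - 100) = ((c - 100 : ℝ) : ℂ) := by push_cast; ring
    rw [h1, Complex.norm_real, Real.norm_eq_abs]
    have h2 := (hJ c hc).2
    rw [abs_of_nonpos (by linarith)]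
    linarith
  refine ⟨∏ c ∈ J, (1 - ((Polynomial.X - Polynomial.C 100) *
    Polynomial.C (((c : ℂ) - 100)⁻¹)) ^ L), fun c hc => ?_, fun x hx => ?_⟩
  · rw [Polynomial.eval_prod]
    refine Finset.prod_eq_zero hc ?_
    have h1 : (c : ℂ) - 100 ≠ 0 := by
      intro h0
      have := hc99 c hc
      rw [h0, norm_zero] at this
      linarith
    simp [mul_inv_cancel₀ h1]
  · rw [Polynomial.eval_prod]
    have h1 : ∀ c ∈ J, ‖((x - 100) * ((c : ℂ) - 100)⁻¹) ^ L‖ ≤ δ := by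
      intro c hc
      rw [norm_pow, norm_mul, norm_inv]
      have h2 : ‖(c : ℂ) - 100‖⁻¹ ≤ 1 / 99 := by
        rw [one_div]
        exact inv_anti₀ (by norm_num) (hc99 c hc)
      have h3 : ‖x - 100‖ * ‖(c : ℂ) - 100‖⁻¹ ≤ 1 / 99 := by
        calc ‖x - 100‖ * ‖(c : ℂ) - 100‖⁻¹ ≤ 1 * (1 / 99) :=
              mul_le_mul hx h2 (inv_nonneg.2 (norm_nonneg _)) zero_le_one
          _ = 1 / 99 := one_mul _
      exact (pow_le_pow_left₀ (by positivity) h3 L).trans hL.le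
    have h2 := h (fun c => ((x - 100) * ((c : ℂ) - 100)⁻¹) ^ L) h1
    simpa using h2

end LCC
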