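import Pool.Agent.LCC.GDefs

set_option linter.unusedVariables false

open Set Filter Topology
open scoped ContDiff


namespace LCC



/-- S3. For the sup norm: a norming functional at `p` and a unit vector in its kernel.
PROOF. If `‖p.1‖ ≥ ‖p.2‖` then `‖p‖ = ‖p.1‖ ≠ 0`, take `l q = q.1 / p.1` and `w = (0,1)`. Otherwise
`‖p‖ = ‖p.2‖`, take `l q = q.2 / p.2`, `w = (1,0)`. (`Prod.norm_def`, `norm_fst_le`, `norm_snd_le`.) -/
theorem S3_func (p : V2) (hp : p ≠ 0) : ∃ (l : V2 →L[ℂ] ℂ) (w : V2),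
    l p = 1 ∧ (∀ q, ‖l q‖ ≤ ‖q‖ / ‖p‖) ∧ l w = 0 ∧ ‖w‖ = 1 := by
  have hn : 0 < ‖p‖ := norm_pos_iff.2 hp
  rcases le_total ‖p.2‖ ‖p.1‖ with h | h
  · have hp1 : ‖p‖ = ‖p.1‖ := by rw [Prod.norm_def]; exact max_eq_left h
    have hne : p.1 ≠ 0 := by
      rw [← norm_pos_iff, ← hp1]; exact hn
    refine ⟨(p.1)⁻¹ • ContinuousLinearMap.fst ℂ ℂ ℂ, (0, 1), ?_, fun q => ?_, ?_, ?_⟩
    · simp [hne]
    · have h1 := norm_fst_le q
      simp only [ContinuousLinearMap.smul_apply, ContinuousLinearMap.coe_fst', smul_eq_mul,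
        norm_mul, norm_inv]
      rw [← hp1, ← div_eq_inv_mul]
      gcongr
    · simp
    · simp [Prod.norm_def]
  · have hp1 : ‖p‖ = ‖p.2‖ := by rw [Prod.norm_def]; exact max_eq_right h
    have hne : p.2 ≠ 0 := by
      rw [← norm_pos_iff, ← hp1]; exact hn
    refine ⟨(p.2)⁻¹ • ContinuousLinearMap.snd ℂ ℂ ℂ, (1, 0), ?_, fun q => ?_, ?_, ?_⟩
    · simp [hne]
    · have h1 := norm_snd_le q
      simp only [ContinuousLinearMap.smul_apply, ContinuousLinearMap.coe_snd', smul_eq_mul,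
        norm_mul, norm_inv]
      rw [← hp1, ← div_eq_inv_mul]
      gcongr
    · simp
    · simp [Prod.norm_def]

end LCC
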