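import Pool.Agent.LCC.GDefs
import Pool.Agent.LCC.A2
import Pool.Agent.LCC.P1
import Pool.Agent.LCC.P3
import Pool.Agent.LCC.P3b
import Pool.Agent.LCC.P4
import Pool.Agent.LCC.P6
import Pool.Agent.LCC.P7
import Pool.Agent.LCC.S1
import Pool.Agent.LCC.S2
import Pool.Agent.LCC.S3

set_option linter.unusedVariables false

open Set Filter Topology
open scoped ContDiff


namespace LCC



theorem S4_poly (P : Polynomial ℂ) : ContDiff ℂ ∞ (fun x : ℂ => P.eval x) := by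
  have h := Polynomial.contDiff_aeval (𝕜 := ℂ) P ∞
  simpa [Polynomial.coe_aeval_eq_eval] using h

theorem S4_bound (e : Equiv.Perm V2) (he : e ∈ Aut) (R : ℝ) (Q : Polynomial ℂ) :
    ∃ B : ℝ, 1 ≤ B ∧ ∀ q : V2, ‖e q‖ ≤ R → ‖Q.eval q.1‖ ≤ B := by
  have hc : Continuous fun p : V2 => Q.eval (e⁻¹ p).1 :=
    Q.continuous.comp (continuous_fst.comp (A2_contDiff e⁻¹ (Subgroup.inv_mem _ he)).continuous)
  obtain ⟨B, hB⟩ := ((isCompact_closedBall (0 : V2) R).image hc).isBounded.exists_norm_le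
  refine ⟨max 1 B, le_max_left _ _, fun q hq => ?_⟩
  have h1 := hB (Q.eval (e⁻¹ (e q)).1) ⟨e q, by
    rw [Metric.mem_closedBall, dist_zero_right]
    exact hq, rfl⟩
  have h2 : e⁻¹ (e q) = q := e.symm_apply_apply q
  rw [h2] at h1
  exact h1.trans (le_max_right _ _)

/-- S4. The cut-off function for the contraction.
PROOF. From `Inv r e` get `p` with `10 (r+1) ≤ ‖p‖`, `‖e q - p‖ ≤ ‖p‖/10` for `‖q - pst‖ ≤ 1`. Let
`l` be the functional of `S3_func p`, `h q = l (e q)`. If `‖q - pst‖ ≤ 1`: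
`‖h q - 1‖ = ‖l (e q - p)‖ ≤ 1/10`. If `‖e q‖ ≤ r + 1`: `‖h q‖ ≤ (r+1)/‖p‖ ≤ 1/10`. Let `Q` be the
polynomial of `S2_prod J hJ (1/8)`. The set `{q | ‖e q‖ ≤ r + 1}` is compact (image of a closed
ball under the continuous map `e⁻¹`, `A2_contDiff` for `e⁻¹`), so `‖Q.eval q.1‖ ≤ B` on it for some
`B ≥ 1`. Let `P` be the polynomial of `S1_bump (min (1/20) (ε'/B))`, and
`χ q = P.eval (h q) * Q.eval q.1`. Then `χ` is in `Ap` (`h q = l(1,0) (e q).1 + l(0,1) (e q).2`,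
P2, P3, P4, P7), smooth (polynomials of smooth functions), on the polydisc
`‖χ - 1‖ ≤ ‖P - 1‖ ‖Q‖ + ‖Q - 1‖ ≤ (1/20)(9/8) + 1/8 ≤ 1/4`, on `{‖e q‖ ≤ r+1}`
`‖χ‖ ≤ (ε'/B) B`, and `χ (c, t) = 0` since `Q.eval c = 0`. -/
theorem S4_cutoff (e : Equiv.Perm V2) (he : e ∈ Aut) (r : ℝ) (hr : 0 < r) (h : Inv r e)
    (J : Finset ℝ) (hJ : ∀ c ∈ J, 0 ≤ c ∧ c ≤ 1) (ε' : ℝ) (hε' : 0 < ε') :
    ∃ χ : V2 → ℂ, Ap χ ∧ ContDiff ℂ ∞ χ ∧ (∀ q, ‖q - pst‖ ≤ 1 → ‖χ q - 1‖ ≤ 1 / 4) ∧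
      (∀ q, ‖e q‖ ≤ r + 1 → ‖χ q‖ ≤ ε') ∧ ∀ c ∈ J, ∀ t : ℂ, χ ((c : ℂ), t) = 0 := by
  obtain ⟨p, hp, hpe⟩ := h
  have hp0 : 0 < ‖p‖ := by linarith
  obtain ⟨l, w, hlp, hlq, -, -⟩ := S3_func p (norm_pos_iff.1 hp0)
  obtain ⟨Q, hQJ, hQ1⟩ := S2_prod J hJ (1 / 8) (by norm_num)
  obtain ⟨B, hB1, hB⟩ := S4_bound e he (r + 1) Q
  obtain ⟨P, hP0, hP1⟩ := S1_bump (min (1 / 20) (ε' / B)) (lt_min (by norm_num) (by positivity))
  have hA := P7_aut e he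
  have hl : Ap (fun q => l (e q)) := by
    have h1 := P2_add _ _ (P2_smul _ (l (1, 0)) hA.1) (P2_smul _ (l (0, 1)) hA.2)
    have h2 : (fun q : V2 => l (e q)) = fun q => l (1, 0) * (e q).1 + l (0, 1) * (e q).2 := by
      funext q
      have h3 : e q = (e q).1 • ((1, 0) : V2) + (e q).2 • ((0, 1) : V2) := by
        ext <;> simp
      conv_lhs => rw [h3]
      rw [map_add, map_smul, map_smul, smul_eq_mul, smul_eq_mul, mul_comm, mul_comm (e q).2]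
    rw [h2]
    exact h1
  have hs : ContDiff ℂ ∞ (fun q : V2 => l (e q)) := l.contDiff.comp (A2_contDiff e he)
  refine ⟨fun q => P.eval (l (e q)) * Q.eval q.1, ?_, ?_, ?_, ?_, ?_⟩
  · exact P3_mul _ _ (P3_poly P _ hl) (P3_poly Q _ (P4_lin (ContinuousLinearMap.fst ℂ ℂ ℂ)))
  · exact ((S4_poly P).comp hs).mul ((S4_poly Q).comp contDiff_fst)
  · intro q hq
    have h1 : ‖l (e q) - 1‖ ≤ 1 / 10 := by
      rw [← hlp, ← map_sub]
      refine (hlq _).trans ?_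
      rw [div_le_iff₀ hp0]
      have := hpe q hq
      linarith
    have h2 : ‖P.eval (l (e q)) - 1‖ ≤ 1 / 20 := (hP1 _ h1).trans (min_le_left _ _)
    have h3 : ‖q.1 - 100‖ ≤ 1 := by
      have h4 : ‖(q - pst).1‖ ≤ ‖q - pst‖ := norm_fst_le _
      exact h4.trans hq
    have h4 := hQ1 _ h3
    have h5 : ‖Q.eval q.1‖ ≤ 9 / 8 := by
      have h6 := norm_add_le (Q.eval q.1 - 1) 1
      rw [sub_add_cancel, norm_one] at h6
      linarith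
    have h6 : P.eval (l (e q)) * Q.eval q.1 - 1 = (P.eval (l (e q)) - 1) * Q.eval q.1 + (Q.eval q.1 - 1) := by ring
    show ‖P.eval (l (e q)) * Q.eval q.1 - 1‖ ≤ 1 / 4
    rw [h6]
    refine (norm_add_le _ _).trans ?_
    rw [norm_mul]
    have h7 : ‖P.eval (l (e q)) - 1‖ * ‖Q.eval q.1‖ ≤ 1 / 20 * (9 / 8) :=
      mul_le_mul h2 h5 (norm_nonneg _) (by norm_num)
    linarith
  · intro q hq
    have h1 : ‖l (e q)‖ ≤ 1 / 10 := by
      refine (hlq _).trans ?_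
      rw [div_le_iff₀ hp0]
      linarith
    have h2 : ‖P.eval (l (e q))‖ ≤ ε' / B := (hP0 _ h1).trans (min_le_right _ _)
    have h3 := hB q hq
    show ‖P.eval (l (e q)) * Q.eval q.1‖ ≤ ε'
    rw [norm_mul]
    calc ‖P.eval (l (e q))‖ * ‖Q.eval q.1‖ ≤ ε' / B * B := mul_le_mul h2 h3 (norm_nonneg _) (by positivity)
      _ = ε' := by field_simp
  · intro c hc t
    show P.eval (l (e ((c : ℂ), t))) * Q.eval (c : ℂ) = 0
    rw [hQJ c hc, mul_zero]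

end LCC
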