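import Pool.Agent.LCC.GDefs
import Pool.Agent.LCC.A2
import Pool.Agent.LCC.P1
import Pool.Agent.LCC.P3
import Pool.Agent.LCC.P4
import Pool.Agent.LCC.P8
import Pool.Agent.LCC.D1
import Pool.Agent.LCC.D2
import Pool.Agent.LCC.D3
import Pool.Agent.LCC.D5
import Pool.Agent.LCC.S4

set_option linter.unusedVariables false

open Set Filter Topology
open scoped ContDiff


namespace LCC



/-- S5. The shrinking automorphism (in the source coordinates).
PROOF. (1) `T > 0` with `exp(-(3/4) T) ≤ κ/2`. (2) `K = {q | ‖e q‖ ≤ r}`, `K⁺ = {q | ‖e q‖ ≤ r+1}`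
are compact (images of closed balls under `e⁻¹`, continuous by `A2_contDiff`); let `B ≥ 1` with
`‖q - pst‖ ≤ B` on `K⁺`. (3) There is `δ ∈ (0,1]` such that `q₀ ∈ K`, `‖q - q₀‖ ≤ δ` imply `q ∈ K⁺`
(`e` is uniformly continuous on a big closed ball). (4) Let `ε' = min δ ε / (2 T B)` and `χ` from
`S4_cutoff`; the field `V q = -(χ q) • (q - pst)` is good (`P9_pair`: its components
`-(χ q) (q.1 - 100)` and `-(χ q) q.2` are in `Ap` by P2, P3, P4) and smooth. (5) `R` so large that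
`101 ≤ R`, `‖q‖ ≤ R` on `K⁺` and `‖(c,t)‖ ≤ R - 1` for `c ∈ J`, `‖t‖ ≤ ρ` (e.g.
`R ≥ max 1 ρ + 1`). (6) `L` from `D5_lip V R`. Choose `η > 0` with `η ≤ 3/4`, `(4/3) η ≤ κ/2`,
`T η ≤ min δ ε / 2`, `T η exp(L T) ≤ min 1 ε`. (7) `D1_euler` with `a = 1`, `A = 1` gives `M` and
`S = e_M ∈ Aut`; `τ = T/M`, `M τ = T`. (8) Polydisc: `D4_contract` gives
`‖S q - pst‖ ≤ exp(-(3/4)T) + (4/3) η ≤ κ`. On `K`: `D2_small` with `δ` and the bound
`‖V‖ ≤ ε' B` on `K⁺`: displacement `≤ T (ε' B + η) ≤ min δ ε`. Lines: `D3_track` with the constant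
sequence `y k = (c, t)` (there `V = 0`): `‖S(c,t) - (c,t)‖ ≤ T η exp(L T) ≤ ε`. -/
theorem S5_shrink (e : Equiv.Perm V2) (he : e ∈ Aut) (r : ℝ) (hr : 0 < r) (h : Inv r e)
    (J : Finset ℝ) (hJ : ∀ c ∈ J, 0 ≤ c ∧ c ≤ 1) (κ ε ρ : ℝ) (hκ : 0 < κ) (hε : 0 < ε) :
    ∃ S ∈ Aut, (∀ q, ‖q - pst‖ ≤ 1 → ‖S q - pst‖ ≤ κ) ∧ (∀ q, ‖e q‖ ≤ r → ‖S q - q‖ ≤ ε) ∧
      ∀ c ∈ J, ∀ t : ℂ, ‖t‖ ≤ ρ → ‖S ((c : ℂ), t) - ((c : ℂ), t)‖ ≤ ε := by
  -- (1)
  set T : ℝ := |Real.log (κ / 2)| * (4 / 3) + 1 with hT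
  have hTpos : 0 < T := by positivity
  have hTκ : Real.exp (-(3 / 4) * T) ≤ κ / 2 := by
    have h1 : -(3 / 4) * T ≤ Real.log (κ / 2) := by
      have := neg_abs_le (Real.log (κ / 2))
      rw [hT]
      linarith
    calc Real.exp (-(3 / 4) * T) ≤ Real.exp (Real.log (κ / 2)) := Real.exp_le_exp.2 h1
      _ = κ / 2 := Real.exp_log (by positivity)
  -- (2)
  have he' : e⁻¹ ∈ Aut := Aut.inv_mem he
  have hinv : ∀ q : V2, e⁻¹ (e q) = q := fun q => Equiv.symm_apply_apply e q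
  obtain ⟨C, hC⟩ := (isCompact_closedBall (0 : V2) (r + 1)).exists_bound_of_continuousOn
    (f := fun q : V2 => e⁻¹ q) (A2_contDiff e⁻¹ he').continuous.continuousOn
  have hC' : ∀ q : V2, ‖e q‖ ≤ r + 1 → ‖q‖ ≤ |C| := by
    intro q hq
    have h1 := hC (e q) (by rwa [mem_closedBall_zero_iff])
    simp only [hinv] at h1
    exact h1.trans (le_abs_self C)
  have hpst : ‖pst‖ = 100 := by
    unfold pst
    rw [Prod.norm_def]
    simp
  set B : ℝ := |C| + 100 with hB
  have hBpos : 0 < B := by positivity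
  have hCB : ∀ q : V2, ‖e q‖ ≤ r + 1 → ‖q - pst‖ ≤ B := by
    intro q hq
    refine (norm_sub_le _ _).trans ?_
    rw [hpst, hB]
    linarith [hC' q hq]
  -- (3)
  obtain ⟨L₁, hL₁0, hL₁⟩ := D5_lip (fun q : V2 => e q) (A2_contDiff e he) (|C| + 1)
  set δ : ℝ := min 1 (1 / (L₁ + 1)) with hδ
  have hδpos : 0 < δ := lt_min one_pos (by positivity)
  have hδ1 : δ ≤ 1 := min_le_left _ _
  have hδL : L₁ * δ ≤ 1 := by
    have h1 : δ ≤ 1 / (L₁ + 1) := min_le_right _ _
    calc L₁ * δ ≤ L₁ * (1 / (L₁ + 1)) := mul_le_mul_of_nonneg_left h1 hL₁0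
      _ = L₁ / (L₁ + 1) := by ring
      _ ≤ 1 := by
        rw [div_le_one (by positivity)]
        linarith
  have hK : ∀ q₀ q : V2, ‖e q₀‖ ≤ r → ‖q - q₀‖ ≤ δ → ‖e q‖ ≤ r + 1 := by
    intro q₀ q hq₀ hq
    have h1 : ‖q₀‖ ≤ |C| := hC' q₀ (by linarith)
    have h2 : ‖q‖ ≤ |C| + 1 := by
      have := norm_add_le (q - q₀) q₀
      rw [sub_add_cancel] at this
      linarith
    have h3 := hL₁ q q₀ h2 (by linarith)
    have h4 : L₁ * ‖q - q₀‖ ≤ L₁ * δ := mul_le_mul_of_nonneg_left hq hL₁0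
    have h5 := norm_add_le (e q - e q₀) (e q₀)
    rw [sub_add_cancel] at h5
    linarith
  -- (4)
  have hmpos : 0 < min δ ε := lt_min hδpos hε
  set ε' : ℝ := min δ ε / (2 * T * B) with hε'
  have hε'pos : 0 < ε' := by positivity
  have hε'B : T * (ε' * B) = min δ ε / 2 := by
    rw [hε']
    field_simp
  obtain ⟨χ, hχA, hχs, hχ1, hχK, hχJ⟩ := S4_cutoff e he r hr h J hJ ε' hε'pos
  set V : V2 → V2 := fun q => -(χ q) • (q - pst) with hV
  have hVg : Good V := by
    have h1 : Ap (fun q : V2 => -1 * χ q) := P2_smul χ (-1) hχA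
    have h2 : Ap (fun q : V2 => q.1 - 100) :=
      P2_sub _ _ (P4_lin (ContinuousLinearMap.fst ℂ ℂ ℂ)) (P2_const 100)
    have h3 : Ap (fun q : V2 => q.2) := P4_lin (ContinuousLinearMap.snd ℂ ℂ ℂ)
    have h4 := P9_pair _ _ (P3_mul _ _ h1 h2) (P3_mul _ _ h1 h3)
    have h5 : V = fun q : V2 => ((-1 * χ q * (q.1 - 100), -1 * χ q * q.2) : V2) := by
      funext q
      simp only [hV]
      ext
      · simp [pst]
      · simp [pst]
    rw [h5]
    exact h4
  have hVs : ContDiff ℂ ∞ V := hχs.neg.smul (contDiff_id.sub contDiff_const)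
  -- (5)
  set R : ℝ := 103 + |C| + |ρ| with hR
  have hR101 : 101 ≤ R := by
    have := abs_nonneg C
    have := abs_nonneg ρ
    rw [hR]
    linarith
  have hRpos : 0 < R := by linarith
  -- (6)
  obtain ⟨L, hL0, hL⟩ := D5_lip V hVs R
  set η : ℝ := min (min (3 / 4) (3 / 8 * κ)) (min (min δ ε / (2 * T)) (min 1 ε / (T * Real.exp (L * T))))
    with hη
  have hη34 : η ≤ 3 / 4 := (min_le_left _ _).trans (min_le_left _ _)
  have hηκ : 4 / 3 * η ≤ κ / 2 := by
    have : η ≤ 3 / 8 * κ := (min_le_left _ _).trans (min_le_right _ _)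
    linarith
  have hηT : T * η ≤ min δ ε / 2 := by
    have : η ≤ min δ ε / (2 * T) := (min_le_right _ _).trans (min_le_left _ _)
    calc T * η ≤ T * (min δ ε / (2 * T)) := mul_le_mul_of_nonneg_left this hTpos.le
      _ = min δ ε / 2 := by field_simp
  have hηL : T * η * Real.exp (L * T) ≤ min 1 ε := by
    have : η ≤ min 1 ε / (T * Real.exp (L * T)) := (min_le_right _ _).trans (min_le_right _ _)
    have hE := Real.exp_pos (L * T)
    calc T * η * Real.exp (L * T) = η * (T * Real.exp (L * T)) := by ring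
      _ ≤ min 1 ε / (T * Real.exp (L * T)) * (T * Real.exp (L * T)) :=
        mul_le_mul_of_nonneg_right this (by positivity)
      _ = min 1 ε := by field_simp
  have hηpos : 0 < η := by
    have h1 : 0 < min 1 ε := lt_min one_pos hε
    have hE := Real.exp_pos (L * T)
    exact lt_min (lt_min (by norm_num) (by positivity)) (lt_min (by positivity) (by positivity))
  -- (7)
  obtain ⟨M, hM, hTM, S, hS, hx⟩ := D1_euler V hVg (fun _ => 1) 1 one_pos (fun _ => by simp) T R η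
    hTpos hRpos hηpos
  have hM' : (0 : ℝ) < M := by exact_mod_cast hM
  have hτ0 : 0 ≤ T / M := by positivity
  have hMτ : (M : ℝ) * (T / M) = T := by field_simp
  refine ⟨S, hS, fun q hq => ?_, fun q hq => ?_, fun c hc t ht => ?_⟩
  · obtain ⟨x, hx0, hxM, hstep⟩ := hx q
    have h1 := D4_contract χ x (T / M) R η M hτ0 hTM hηpos.le hη34 hR101 hstep hχ1
      (by rw [hx0]; exact hq)
    rw [hMτ, hxM] at h1
    linarith
  · obtain ⟨x, hx0, hxM, hstep⟩ := hx q
    have h0 : (M : ℝ) * (T / M) * (1 * (ε' * B) + η) ≤ min δ ε := by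
      rw [hMτ, one_mul, mul_add, hε'B]
      linarith
    have h1 := D2_small V x (fun _ => 1) (T / M) 1 R η δ (ε' * B) M hτ0 zero_le_one hηpos.le
      (by positivity) (fun _ => by simp) hstep (fun p hp => by
        rw [hx0] at hp
        have h2 := hK q p hq hp
        refine ⟨?_, ?_⟩
        · have := hC' p h2
          have := abs_nonneg ρ
          rw [hR]
          linarith
        · simp only [hV]
          rw [norm_smul, norm_neg]
          exact mul_le_mul (hχK p h2) (hCB p h2) (norm_nonneg _) hε'pos.le)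
      (h0.trans (min_le_left _ _))
    rw [hx0, hxM] at h1
    exact h1.trans (h0.trans (min_le_right _ _))
  · obtain ⟨x, hx0, hxM, hstep⟩ := hx ((c : ℂ), t)
    have hV0 : V ((c : ℂ), t) = 0 := by
      simp only [hV, hχJ c hc t, neg_zero, zero_smul]
    have hct : ‖(((c : ℂ), t) : V2)‖ ≤ R - 1 := by
      rw [Prod.norm_def]
      refine max_le ?_ ?_
      · have h1 := hJ c hc
        have h2 : ‖((c : ℝ) : ℂ)‖ = |c| := by rw [Complex.norm_real, Real.norm_eq_abs]
        simp only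
        rw [h2, abs_of_nonneg h1.1, hR]
        have := abs_nonneg C
        have := abs_nonneg ρ
        linarith
      · simp only
        have := abs_nonneg C
        have := le_abs_self ρ
        rw [hR]
        linarith
    have h0 : (‖x 0 - ((c : ℂ), t)‖ + (M : ℝ) * (T / M) * η) * Real.exp (1 * L * (M * (T / M))) ≤
        min 1 ε := by
      rw [hx0, sub_self, norm_zero, zero_add, hMτ, one_mul]
      exact hηL
    have h1 := D3_track V x (fun _ => ((c : ℂ), t)) (fun _ => 1) (T / M) 1 R L η M hτ0 zero_le_one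
      hL0 hηpos.le (fun _ => by simp) hstep (fun k _ => by rw [hV0, smul_zero, add_zero])
      (fun _ _ => hct) hL (h0.trans (min_le_left _ _))
    rw [hxM] at h1
    exact h1.trans (h0.trans (min_le_right _ _))

end LCC
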