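import Pool.Agent.LCC.GDefs

set_option linter.unusedVariables false

open Set Filter Topology
open scoped ContDiff


namespace LCC



/-- T1. There is a ray from the origin on which `g` has no zero.
PROOF. The zero set `Z` of `g` is countable: `g` is analytic on `ℂ` and not identically zero, so
each zero is isolated (`AnalyticAt.eventually_eq_zero_or_eventually_ne_zero` and
`AnalyticOnNhd.eq_of_eventuallyEq`/identity theorem), so `Z` with the induced topology is discrete
and second countable, hence countable (`countable_of_Lindelof_of_discrete` or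
`Set.Countable` from `DiscreteTopology`). For `z ∈ Z` we have `z ≠ 0`; if `z = s θ` with `s ≥ 0`,
`‖θ‖ = 1`, then `θ = z/‖z‖`. The set `{z/‖z‖ | z ∈ Z}` is countable while the unit circle
is not (e.g. `θ = exp(i x)` is injective for `x ∈ (0,1)`, and `Set.Ioo 0 1` is uncountable:
`Cardinal.not_countable_real` / `not_countable` for intervals, `Set.Countable.preimage...`; any
route is fine). Choose `θ` on the circle outside this set. -/
theorem T1_countable (g : ℂ → ℂ) (hg : Differentiable ℂ g) (h0 : g 0 ≠ 0) :
    {z : ℂ | g z = 0}.Countable := by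
  have han : AnalyticOnNhd ℂ g univ := fun z _ => hg.analyticAt z
  have hne : ∀ z, ∀ᶠ w in 𝓝[≠] z, g w ≠ 0 := by
    intro z
    rcases (hg.analyticAt z).eventually_eq_zero_or_eventually_ne_zero with h | h
    · exfalso
      have h1 : g = fun _ => 0 :=
        han.eq_of_eventuallyEq (fun w _ => analyticAt_const) h
      exact h0 (by rw [h1])
    · exact h
  have hd : DiscreteTopology {z : ℂ | g z = 0} := by
    rw [discreteTopology_subtype_iff]
    intro z hz
    rw [← disjoint_iff, Filter.disjoint_principal_right]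
    filter_upwards [hne z] with w hw
    exact hw
  have hc : Countable {z : ℂ | g z = 0} := countable_of_Lindelof_of_discrete
  exact hc.to_set

theorem T1_ray (g : ℂ → ℂ) (hg : Differentiable ℂ g) (h0 : g 0 ≠ 0) :
    ∃ θ : ℂ, ‖θ‖ = 1 ∧ ∀ s : ℝ, 0 ≤ s → g ((s : ℂ) * θ) ≠ 0 := by
  have hZ := T1_countable g hg h0
  have hI : ((fun z : ℂ => z / (‖z‖ : ℂ)) '' {z : ℂ | g z = 0}).Countable := hZ.image _
  by_contra hcon
  push Not at hcon
  have hmaps : MapsTo (fun x : ℝ => Complex.exp (x * Complex.I)) (Ioo 0 1)
      ((fun z : ℂ => z / (‖z‖ : ℂ)) '' {z : ℂ | g z = 0}) := by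
    intro x hx
    obtain ⟨s, hs, hgs⟩ := hcon (Complex.exp (x * Complex.I)) (Complex.norm_exp_ofReal_mul_I x)
    have hs0 : 0 < s := by
      rcases hs.lt_or_eq with h | h
      · exact h
      · exfalso
        rw [← h, Complex.ofReal_zero, zero_mul] at hgs
        exact h0 hgs
    refine ⟨(s : ℂ) * Complex.exp (x * Complex.I), hgs, ?_⟩
    show (s : ℂ) * Complex.exp (x * Complex.I) / (‖(s : ℂ) * Complex.exp (x * Complex.I)‖ : ℂ) =
      Complex.exp (x * Complex.I)
    rw [norm_mul, Complex.norm_exp_ofReal_mul_I, mul_one, Complex.norm_real, Real.norm_of_nonneg hs]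
    have : (s : ℂ) ≠ 0 := by exact_mod_cast hs0.ne'
    field_simp
  have hinj : InjOn (fun x : ℝ => Complex.exp (x * Complex.I)) (Ioo 0 1) := by
    intro x hx y hy hxy
    have h1 : (Complex.exp (x * Complex.I)).re = (Complex.exp (y * Complex.I)).re :=
      congrArg Complex.re hxy
    rw [Complex.exp_ofReal_mul_I_re, Complex.exp_ofReal_mul_I_re] at h1
    have hpi := Real.pi_gt_three
    exact Real.injOn_cos ⟨hx.1.le, by linarith [hx.2]⟩ ⟨hy.1.le, by linarith [hy.2]⟩ h1
  have hc : (Ioo (0 : ℝ) 1).Countable := hmaps.countable_of_injOn hinj hI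
  have hv := hc.measure_zero MeasureTheory.volume
  rw [Real.volume_Ioo] at hv
  norm_num at hv

end LCC
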