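import Pool.Agent.LCC.GDefs
import Pool.Agent.LCC.A2
import Pool.Agent.LCC.P1
import Pool.Agent.LCC.P3
import Pool.Agent.LCC.P3b
import Pool.Agent.LCC.P4
import Pool.Agent.LCC.P7
import Pool.Agent.LCC.P8
import Pool.Agent.LCC.S3
import Pool.Agent.LCC.T1

set_option linter.unusedVariables false

open Set Filter Topology
open scoped ContDiff


namespace LCC



/-- T2. The field that translates the point `e pst` to infinity along a ray.
PROOF. Let `p' = e pst`, `‖p'‖ ≥ 9 (r+1) > 0`, and `l, w₀` from `S3_func p'`. Let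
`X q = (e⁻¹ q).1`, `Q q = ∏ c in J, (X q - c)` (in `Ap` and smooth), `g z = Q (p' + z • w₀)`,
differentiable on `ℂ`, `g 0 = ∏ (100 - c) ≠ 0` because `X p' = pst.1 = 100`. Let `θ` be from `T1_ray`,
`w = θ • w₀`, `S = max R' 0 + ‖p'‖ + 1`; `‖p' + S w‖ ≥ S - ‖p'‖ ≥ R'`. Let
`a s = 1 / g ((max 0 (min s S)) θ)`: continuous in `s`, with values depending on the clamped
argument in the compact interval `[0,S]`, hence `‖a s‖ ≤ A` for some `A > 0`. Let `B ≥ 1` bound `‖Q‖` on the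
closed ball of radius `r + 1` and choose `N` with `S A (1/9)^N B ≤ ε`. The field
`V q = ((l q)^N * Q q) • w` is good (P8, P3, P4) and smooth. For `0 ≤ s ≤ S`:
`l (p' + s w) = 1`, `Q (p' + s w) = g (s θ)`, so `a s • V (p' + s w) = w`. For `‖q‖ ≤ r + 1`:
`‖l q‖ ≤ (r+1)/‖p'‖ ≤ 1/9`. Finally `X (e (c,t)) = c`, so `V (e (c,t)) = 0` for `c ∈ J`. -/
theorem T2_field (e : Equiv.Perm V2) (he : e ∈ Aut) (r : ℝ) (hr : 0 < r)
    (hp : 9 * (r + 1) ≤ ‖e pst‖) (J : Finset ℝ) (hJ : ∀ c ∈ J, 0 ≤ c ∧ c ≤ 1) (R' ε : ℝ)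
    (hε : 0 < ε) :
    ∃ (V : V2 → V2) (w : V2) (a : ℝ → ℂ) (A S : ℝ), Good V ∧ ContDiff ℂ ∞ V ∧ 0 < A ∧ 0 < S ∧
      (∀ s, ‖a s‖ ≤ A) ∧ ‖w‖ = 1 ∧
      (∀ s : ℝ, 0 ≤ s → s ≤ S → a s • V (e pst + (s : ℂ) • w) = w) ∧
      (∀ q, ‖q‖ ≤ r + 1 → S * A * ‖V q‖ ≤ ε) ∧
      (∀ c ∈ J, ∀ t : ℂ, V (e ((c : ℂ), t)) = 0) ∧ R' ≤ ‖e pst + (S : ℂ) • w‖ := by
  have he' : e⁻¹ ∈ Aut := Aut.inv_mem he
  have hinv : ∀ q : V2, e⁻¹ (e q) = q := fun q => Equiv.symm_apply_apply e q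
  have hpos : 0 < ‖e pst‖ := by nlinarith
  have hp0 : e pst ≠ 0 := norm_pos_iff.1 hpos
  obtain ⟨l, w₀, hl1, hl2, hl3, hw0⟩ := S3_func (e pst) hp0
  set Q : V2 → ℂ := fun q => ∏ c ∈ J, ((e⁻¹ q).1 - (c : ℂ)) with hQ
  have hQA : Ap Q := P3_prod J (fun (c : ℝ) (q : V2) => (e⁻¹ q).1 - (c : ℂ))
    (fun c _ => P2_sub _ _ (P7_aut e⁻¹ he').1 (P2_const _))
  have hQs : ContDiff ℂ ∞ Q := by
    rw [hQ]
    apply contDiff_prod
    intro c _
    exact (contDiff_fst.comp (A2_contDiff e⁻¹ he')).sub contDiff_const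
  set g : ℂ → ℂ := fun z => Q (e pst + z • w₀) with hg
  have hgd : Differentiable ℂ g := by
    have h1 : ContDiff ℂ ∞ g :=
      hQs.comp (contDiff_const.add (contDiff_id.smul contDiff_const))
    exact h1.differentiable (by simp)
  have hg0 : g 0 ≠ 0 := by
    simp only [hg, hQ, zero_smul, add_zero, hinv]
    rw [Finset.prod_ne_zero_iff]
    intro c hc h1
    have h2 : ((100 : ℝ) : ℂ) = ((c : ℝ) : ℂ) := by
      have h3 : pst.1 = (100 : ℂ) := rfl
      rw [h3] at h1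
      push_cast
      exact sub_eq_zero.1 h1
    have h4 : (100 : ℝ) = c := Complex.ofReal_injective h2
    have h5 := (hJ c hc).2
    linarith
  obtain ⟨θ, hθ, hθg⟩ := T1_ray g hgd hg0
  have hw : ‖θ • w₀‖ = 1 := by rw [norm_smul, hθ, hw0, mul_one]
  set S : ℝ := max R' 0 + ‖e pst‖ + 1 with hS
  have hSpos : 0 < S := by
    have := le_max_right R' 0
    positivity
  obtain ⟨C, hC⟩ := (isCompact_Icc (a := (0 : ℝ)) (b := S)).exists_bound_of_continuousOn
    (f := fun s : ℝ => (g ((s : ℂ) * θ))⁻¹) (by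
      refine ContinuousOn.inv₀ ?_ (fun s hs => hθg s hs.1)
      exact (hgd.continuous.comp (Complex.continuous_ofReal.mul continuous_const)).continuousOn)
  set A : ℝ := max C 1 with hA
  have hApos : 0 < A := lt_of_lt_of_le one_pos (le_max_right _ _)
  obtain ⟨B₀, hB₀⟩ := (isCompact_closedBall (0 : V2) (r + 1)).exists_bound_of_continuousOn
    (f := Q) hQs.continuous.continuousOn
  set B : ℝ := max B₀ 1 with hB
  have hBpos : 0 < B := lt_of_lt_of_le one_pos (le_max_right _ _)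
  obtain ⟨N, hN⟩ := exists_pow_lt_of_lt_one (show 0 < ε / (S * A * B) by positivity)
    (show (1 / 9 : ℝ) < 1 by norm_num)
  have hN' : S * A * ((1 / 9) ^ N * B) ≤ ε := by
    rw [lt_div_iff₀ (by positivity)] at hN
    calc S * A * ((1 / 9) ^ N * B) = (1 / 9) ^ N * (S * A * B) := by ring
      _ ≤ ε := hN.le
  refine ⟨fun q => ((l q) ^ N * Q q) • (θ • w₀), θ • w₀,
    fun s => (g (((max 0 (min s S) : ℝ) : ℂ) * θ))⁻¹, A, S, ?_, ?_, hApos, hSpos, ?_, hw, ?_, ?_,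
    ?_, ?_⟩
  · exact P8_good _ (P3_mul _ _ (P3_pow _ (P4_lin l) N) hQA) _
  · exact ((l.contDiff.pow N).mul hQs).smul contDiff_const
  · intro s
    refine (hC _ ⟨le_max_left _ _, ?_⟩).trans (le_max_left _ _)
    exact max_le hSpos.le (min_le_right _ _)
  · intro s hs0 hsS
    have h1 : max 0 (min s S) = s := by rw [min_eq_left hsS, max_eq_right hs0]
    have h2 : l (e pst + (s : ℂ) • θ • w₀) = 1 := by
      rw [map_add, map_smul, map_smul, hl3, smul_zero, smul_zero, add_zero, hl1]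
    have h3 : Q (e pst + (s : ℂ) • θ • w₀) = g ((s : ℂ) * θ) := by
      simp only [hg, smul_smul]
    have h4 := hθg s hs0
    simp only [h1, h2, h3, one_pow, one_mul]
    rw [smul_smul, inv_mul_cancel₀ h4, one_smul]
  · intro q hq
    have h1 : ‖l q‖ ≤ 1 / 9 := by
      refine (hl2 q).trans ?_
      rw [div_le_div_iff₀ hpos (by norm_num)]
      linarith
    have h2 : ‖Q q‖ ≤ B := (hB₀ q (by rwa [mem_closedBall_zero_iff])).trans (le_max_left _ _)
    have h3 : ‖((l q) ^ N * Q q) • (θ • w₀)‖ ≤ (1 / 9) ^ N * B := by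
      rw [norm_smul, hw, mul_one, norm_mul, norm_pow]
      exact mul_le_mul (pow_le_pow_left₀ (norm_nonneg _) h1 N) h2 (norm_nonneg _) (by positivity)
    exact (mul_le_mul_of_nonneg_left h3 (by positivity)).trans hN'
  · intro c hc t
    have h1 : Q (e ((c : ℂ), t)) = 0 := by
      simp only [hQ, hinv]
      exact Finset.prod_eq_zero hc (sub_self _)
    simp only [h1, mul_zero, zero_smul]
  · have h1 : ‖(S : ℂ) • θ • w₀‖ = S := by
      rw [norm_smul, hw, mul_one, Complex.norm_real, Real.norm_eq_abs, abs_of_pos hSpos]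
    have h2 : ‖(S : ℂ) • θ • w₀‖ ≤ ‖e pst + (S : ℂ) • θ • w₀‖ + ‖e pst‖ := by
      have := norm_sub_le (e pst + (S : ℂ) • θ • w₀) (e pst)
      rwa [add_sub_cancel_left] at this
    have h3 := le_max_left R' 0
    rw [h1] at h2
    linarith

end LCC
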