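import Pool.Agent.LCC.GDefs
import Pool.Agent.LCC.A2
import Pool.Agent.LCC.D1
import Pool.Agent.LCC.D2
import Pool.Agent.LCC.D3
import Pool.Agent.LCC.D5
import Pool.Agent.LCC.T2

set_option linter.unusedVariables false

open Set Filter Topology
open scoped ContDiff


namespace LCC



theorem T3_bound (f : V2 → V2) (hf : Continuous f) (R : ℝ) :
    ∃ B : ℝ, ∀ q : V2, ‖q‖ ≤ R → ‖f q‖ ≤ B := by
  obtain ⟨B, hB⟩ := ((isCompact_closedBall (0 : V2) R).image hf).isBounded.exists_norm_le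
  refine ⟨B, fun q hq => hB _ ⟨q, ?_, rfl⟩⟩
  rw [Metric.mem_closedBall, dist_zero_right]
  exact hq

/-- T3. The translating automorphism (in the image coordinates).
PROOF. Take `V, w, a, A, S` from `T2_field` with `ε₀ = min ε 1 / 2`. Let `p' = e pst`,
`p'' = p' + S • w`. Let `R` be so large that `R ≥ r + 1`, `R ≥ ‖p'‖ + S + 2`, and
`‖e (c,t)‖ ≤ R - 1` for `c ∈ J`, `‖t‖ ≤ ρ` (compactness/continuity of `e`, `A2_contDiff`). Let `L` be
from `D5_lip V R`; choose `η, κ > 0` with `(κ + S η) exp(A L S) ≤ min 1 ε` and `S η ≤ ε₀`.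
`D1_euler` with `T = S` gives `M`, `Φ = e_M`; `τ = S/M`, `b k = a (k τ)`.
(a) `‖q - p'‖ ≤ κ`: `D3_track` with `y k = p' + (k τ) • w` (an exact orbit because
`a(kτ) • V (p' + kτ w) = w` for `k < M`, `kτ ≤ S`), so `‖Φ q - p''‖ ≤ (κ + S η) exp(A L S) ≤ 1`.
(b) `‖q‖ ≤ r`: `D2_small` with `δ = 1` and `ε' = ε₀/(S A)`: displacement
`≤ S (A ε' + η) = ε₀ + S η ≤ min ε 1`. (c) `y k = e (c,t)` constant, where `V = 0`: `D3_track` gives
`‖Φ (e(c,t)) - e(c,t)‖ ≤ S η exp(A L S) ≤ ε`. -/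
theorem T3_translate (e : Equiv.Perm V2) (he : e ∈ Aut) (r : ℝ) (hr : 0 < r)
    (hp : 9 * (r + 1) ≤ ‖e pst‖) (J : Finset ℝ) (hJ : ∀ c ∈ J, 0 ≤ c ∧ c ≤ 1) (R' ε ρ : ℝ)
    (hε : 0 < ε) :
    ∃ κ : ℝ, 0 < κ ∧ ∃ Φ ∈ Aut, ∃ p'' : V2, R' ≤ ‖p''‖ ∧
      (∀ q, ‖q - e pst‖ ≤ κ → ‖Φ q - p''‖ ≤ 1) ∧ (∀ q, ‖q‖ ≤ r → ‖Φ q - q‖ ≤ ε) ∧
      ∀ c ∈ J, ∀ t : ℂ, ‖t‖ ≤ ρ → ‖Φ (e ((c : ℂ), t)) - e ((c : ℂ), t)‖ ≤ ε := by
  set m : ℝ := min 1 ε with hm
  have hm0 : 0 < m := lt_min one_pos hε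
  have hm1 : m ≤ 1 := min_le_left _ _
  have hmε : m ≤ ε := min_le_right _ _
  obtain ⟨V, w, a, A, S, hV, hVs, hA, hS, ha, hw, hflow, hVr, hVJ, hR'⟩ :=
    T2_field e he r hr hp J hJ R' (m / 2) (by positivity)
  obtain ⟨B, hB⟩ := T3_bound (fun q => e q) (A2_contDiff e he).continuous (max 1 |ρ|)
  set R : ℝ := max (max (r + 1) (‖e pst‖ + S + 2)) (B + 1) with hR
  have hR1 : r + 1 ≤ R := (le_max_left _ _).trans (le_max_left _ _)
  have hR2 : ‖e pst‖ + S + 2 ≤ R := (le_max_right _ _).trans (le_max_left _ _)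
  have hR3 : B + 1 ≤ R := le_max_right _ _
  have hR0 : 0 < R := by linarith
  obtain ⟨L, hL0, hL⟩ := D5_lip V hVs R
  set E : ℝ := Real.exp (A * L * S) with hE
  have hE1 : 1 ≤ E := Real.one_le_exp (by positivity)
  have hE0 : 0 < E := by linarith
  set κ : ℝ := m / (2 * E) with hκ
  set η : ℝ := m / (2 * S * E) with hη
  have hκ0 : 0 < κ := by positivity
  have hη0 : 0 < η := by positivity
  have hSη : S * η = m / (2 * E) := by
    rw [hη]
    field_simp
  have hsum : (κ + S * η) * E = m := by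
    rw [hSη, hκ]
    field_simp
    ring
  have hSη' : S * η ≤ m / 2 := by
    rw [hSη]
    apply div_le_div_of_nonneg_left hm0.le (by norm_num)
    linarith
  obtain ⟨M, hM, hM1, Φ, hΦ, hx⟩ := D1_euler V hV a A hA ha S R η hS hR0 hη0
  have hMr : (0 : ℝ) < M := by exact_mod_cast hM
  set τ : ℝ := S / M with hτ
  have hτ0 : 0 < τ := by positivity
  have hMτ : (M : ℝ) * τ = S := by
    rw [hτ]
    field_simp
  have hexp : Real.exp (A * L * (M * τ)) = E := by rw [hMτ]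
  refine ⟨κ, hκ0, Φ, hΦ, e pst + (S : ℂ) • w, hR', ?_, ?_, ?_⟩
  · intro q hq
    obtain ⟨x, hx0, hxM, hxk⟩ := hx q
    have hle : (‖x 0 - (e pst + (((0 : ℕ) * τ : ℝ) : ℂ) • w)‖ + M * τ * η) * Real.exp (A * L * (M * τ)) ≤ m := by
      rw [hexp, hMτ, hx0]
      have : e pst + (((0 : ℕ) * τ : ℝ) : ℂ) • w = e pst := by
        simp
      rw [this, ← hsum]
      apply mul_le_mul_of_nonneg_right _ hE0.le
      linarith
    have h := D3_track V x (fun k => e pst + ((k * τ : ℝ) : ℂ) • w) (fun k => a (k * τ)) τ A R L η M hτ0.le hA.le hL0 hη0.le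
      (fun k => ha _) hxk (fun k hk => by
        have hk1 : (k : ℝ) ≤ M := by exact_mod_cast hk.le
        have h1 := hflow (k * τ) (by positivity) (by
          rw [← hMτ]
          exact mul_le_mul_of_nonneg_right hk1 hτ0.le)
        show e pst + (((k + 1 : ℕ) * τ : ℝ) : ℂ) • w = e pst + ((k * τ : ℝ) : ℂ) • w +
          ((τ : ℂ) * a (k * τ)) • V (e pst + ((k * τ : ℝ) : ℂ) • w)
        rw [mul_smul, h1, add_assoc, ← add_smul]
        congr 2
        push_cast
        ring) (fun k hk => by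
        have hk1 : (k : ℝ) ≤ M := by exact_mod_cast hk
        show ‖e pst + ((k * τ : ℝ) : ℂ) • w‖ ≤ R - 1
        have h2 : ‖((k * τ : ℝ) : ℂ) • w‖ ≤ S := by
          rw [norm_smul, hw, mul_one, Complex.norm_real, Real.norm_of_nonneg (by positivity), ← hMτ]
          exact mul_le_mul_of_nonneg_right hk1 hτ0.le
        have h3 := norm_add_le (e pst) (((k * τ : ℝ) : ℂ) • w)
        linarith) hL (hle.trans hm1)
    rw [hxM] at h
    have h4 : (e pst + (((M : ℕ) * τ : ℝ) : ℂ) • w) = e pst + (S : ℂ) • w := by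
      rw [hMτ]
    have h5 := h.trans (hle.trans hm1)
    rw [← h4]
    exact h5
  · intro q hq
    obtain ⟨x, hx0, hxM, hxk⟩ := hx q
    have h1 : (M : ℝ) * τ * (A * (m / 2 / (S * A)) + η) ≤ m := by
      rw [hMτ]
      have : S * (A * (m / 2 / (S * A)) + η) = m / 2 + S * η := by
        field_simp
      rw [this]
      linarith
    have h := D2_small V x (fun k => a (k * τ)) τ A R η 1 (m / 2 / (S * A)) M hτ0.le hA.le hη0.le (by positivity)
      (fun k => ha _) hxk (fun q' hq' => by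
        rw [hx0] at hq'
        have h2 : ‖q'‖ ≤ r + 1 := by
          have h3 := norm_add_le (q' - q) q
          rw [sub_add_cancel] at h3
          linarith
        refine ⟨h2.trans hR1, ?_⟩
        rw [le_div_iff₀ (by positivity)]
        have h3 := hVr q' h2
        linarith) (h1.trans hm1)
    rw [hxM, hx0] at h
    exact h.trans (h1.trans hmε)
  · intro c hc t ht
    obtain ⟨x, hx0, hxM, hxk⟩ := hx (e ((c : ℂ), t))
    have hle : (‖x 0 - e ((c : ℂ), t)‖ + M * τ * η) * Real.exp (A * L * (M * τ)) ≤ m := by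
      rw [hexp, hMτ, hx0, sub_self, norm_zero, zero_add, ← hsum]
      apply mul_le_mul_of_nonneg_right _ hE0.le
      linarith
    have h := D3_track V x (fun _ => e ((c : ℂ), t)) (fun k => a (k * τ)) τ A R L η M hτ0.le hA.le hL0 hη0.le
      (fun k => ha _) hxk (fun k hk => by
        show e ((c : ℂ), t) = e ((c : ℂ), t) + ((τ : ℂ) * a (k * τ)) • V (e ((c : ℂ), t))
        rw [hVJ c hc t, smul_zero, add_zero]) (fun k hk => by
        have h3 : ‖((c : ℂ), t)‖ ≤ max 1 |ρ| := by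
          rw [Prod.norm_def]
          apply max_le_max
          · rw [Complex.norm_real, Real.norm_of_nonneg (hJ c hc).1]
            exact (hJ c hc).2
          · exact ht.trans (le_abs_self ρ)
        have h4 := hB _ h3
        show ‖e ((c : ℂ), t)‖ ≤ R - 1
        have h5 : ‖e ((c : ℂ), t)‖ ≤ B := h4
        linarith) hL (hle.trans hm1)
    rw [hxM] at h
    exact h.trans (hle.trans hmε)

end LCC
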