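import Pool.Agent.LCC.GDefs
import Pool.Agent.LCC.A2
import Pool.Agent.LCC.S5
import Pool.Agent.LCC.T3

set_option linter.unusedVariables false

open Set Filter Topology
open scoped ContDiff


namespace LCC



theorem U1_bound (f : V2 → V2) (hf : Continuous f) (R : ℝ) :
    ∃ B : ℝ, ∀ q : V2, ‖q‖ ≤ R → ‖f q‖ ≤ B := by
  obtain ⟨B, hB⟩ := ((isCompact_closedBall (0 : V2) R).image hf).isBounded.exists_norm_le
  refine ⟨B, fun q hq => hB _ ⟨q, ?_, rfl⟩⟩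
  rw [Metric.mem_closedBall, dist_zero_right]
  exact hq

theorem U1_unif (f : V2 → V2) (hf : Continuous f) (R ε : ℝ) (hε : 0 < ε) :
    ∃ δ : ℝ, 0 < δ ∧ δ ≤ 1 ∧ ∀ q q' : V2, ‖q‖ ≤ R → ‖q'‖ ≤ R → ‖q' - q‖ ≤ δ → ‖f q' - f q‖ ≤ ε := by
  have h1 := (isCompact_closedBall (0 : V2) R).uniformContinuousOn_of_continuous hf.continuousOn
  rw [Metric.uniformContinuousOn_iff] at h1
  obtain ⟨δ, hδ, h2⟩ := h1 ε hε
  refine ⟨min (δ / 2) 1, by positivity, min_le_right _ _, fun q q' hq hq' hqq => ?_⟩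
  have h3 := h2 q' (by rw [Metric.mem_closedBall, dist_zero_right]; exact hq') q
    (by rw [Metric.mem_closedBall, dist_zero_right]; exact hq) (by
      rw [dist_eq_norm]
      have := hqq.trans (min_le_left _ _)
      linarith)
  rw [dist_eq_norm] at h3
  exact h3.le

/-- U1. The inductive step.
PROOF. `Inv r e` gives `p`, `10 (r+1) ≤ ‖p‖`, `‖e pst - p‖ ≤ ‖p‖/10`, so `‖e pst‖ ≥ (9/10)‖p‖ ≥
9 (r+1)`. `T3_translate` with `R'' = max (10 (r'+1)) 10`, `ε/2`, `ρ` gives `κ₁, Φ, p''`. `e` is continuous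
at `pst`: `κ > 0` with `‖q - pst‖ ≤ κ → ‖e q - e pst‖ ≤ κ₁`. The map `Φ ∘ e` is uniformly
continuous on a closed ball of radius `R` containing the `1`-neighbourhoods of `{q | ‖e q‖ ≤ r}`
(compact) and of the points `(c,t)`, `c ∈ J`, `‖t‖ ≤ ρ`: `δ ∈ (0,1]` with
`‖Φ (e q) - Φ (e q')‖ ≤ ε/2` for `‖q - q'‖ ≤ δ` there. `S5_shrink` with `κ`, `δ`, `ρ` gives `S`.
`e' = Φ * e * S`. `Inv r' e'` with `p''` (`‖e' q - p''‖ ≤ 1 ≤ ‖p''‖/10`). For `‖q‖ ≤ r`,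
`u = e⁻¹ q`: `‖Φ(e(S u)) - Φ(e u)‖ ≤ ε/2`, `‖Φ(e u) - e u‖ ≤ ε/2`, `e u = q`. For `u = (c,t)` the
same. -/
theorem U1_step (e : Equiv.Perm V2) (he : e ∈ Aut) (r r' : ℝ) (hr : 0 < r) (h : Inv r e)
    (J : Finset ℝ) (hJ : ∀ c ∈ J, 0 ≤ c ∧ c ≤ 1) (ε ρ : ℝ) (hε : 0 < ε) :
    ∃ e' ∈ Aut, Inv r' e' ∧ (∀ q, ‖q‖ ≤ r → ‖e' (e⁻¹ q) - q‖ ≤ ε) ∧
      ∀ c ∈ J, ∀ t : ℂ, ‖t‖ ≤ ρ → ‖e' ((c : ℂ), t) - e ((c : ℂ), t)‖ ≤ ε := by
  have hinv := h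
  obtain ⟨p, hp, hpe⟩ := hinv
  have hpst : 9 * (r + 1) ≤ ‖e pst‖ := by
    have h1 := hpe pst (by rw [sub_self, norm_zero]; exact zero_le_one)
    have h2 := norm_sub_norm_le p (e pst)
    rw [norm_sub_rev] at h2
    linarith
  obtain ⟨κ₁, hκ₁, Φ, hΦ, p'', hp'', hΦ1, hΦ2, hΦ3⟩ :=
    T3_translate e he r hr hpst J hJ (max (10 * (r' + 1)) 10) (ε / 2) ρ (by positivity)
  have hec : Continuous fun q => e q := (A2_contDiff e he).continuous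
  have hΦc : Continuous fun q => Φ q := (A2_contDiff Φ hΦ).continuous
  have heic : Continuous fun q => e⁻¹ q := (A2_contDiff e⁻¹ (Subgroup.inv_mem _ he)).continuous
  obtain ⟨κ, hκ, hκe⟩ : ∃ κ : ℝ, 0 < κ ∧ ∀ q, ‖q - pst‖ ≤ κ → ‖e q - e pst‖ ≤ κ₁ := by
    have h1 := hec.continuousAt (x := pst)
    rw [Metric.continuousAt_iff] at h1
    obtain ⟨κ, hκ, h2⟩ := h1 κ₁ hκ₁
    refine ⟨κ / 2, by positivity, fun q hq => ?_⟩
    have h3 := h2 (x := q) (by rw [dist_eq_norm]; linarith)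
    rw [dist_eq_norm] at h3
    exact h3.le
  obtain ⟨B, hB⟩ := U1_bound (fun q => e⁻¹ q) heic r
  obtain ⟨δ, hδ, hδ1, hδu⟩ := U1_unif (fun q => Φ (e q)) (hΦc.comp hec) (max B (max 1 |ρ|) + 1) (ε / 2) (by positivity)
  obtain ⟨S, hS, hS1, hS2, hS3⟩ := S5_shrink e he r hr h J hJ κ δ ρ hκ hδ
  have key : ∀ u : V2, ‖u‖ ≤ max B (max 1 |ρ|) → ‖S u - u‖ ≤ δ → ‖Φ (e (S u)) - Φ (e u)‖ ≤ ε / 2 := by
    intro u hu hSu
    refine hδu u (S u) (by linarith) ?_ hSu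
    have h1 := norm_add_le (S u - u) u
    rw [sub_add_cancel] at h1
    linarith
  refine ⟨Φ * e * S, Subgroup.mul_mem _ (Subgroup.mul_mem _ hΦ he) hS, ⟨p'', (le_max_left _ _).trans hp'', fun q hq => ?_⟩,
    fun q hq => ?_, fun c hc t ht => ?_⟩
  · have h1 := hΦ1 (e (S q)) (hκe (S q) (hS1 q hq))
    have h2 : (10 : ℝ) ≤ ‖p''‖ := (le_max_right _ _).trans hp''
    show ‖Φ (e (S q)) - p''‖ ≤ ‖p''‖ / 10
    linarith
  · have h0 : e (e⁻¹ q) = q := e.apply_symm_apply q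
    have h1 := key (e⁻¹ q) ((hB q hq).trans (le_max_left _ _)) (hS2 _ (by rw [h0]; exact hq))
    have h2 := hΦ2 q hq
    show ‖Φ (e (S (e⁻¹ q))) - q‖ ≤ ε
    have h3 : Φ (e (S (e⁻¹ q))) - q = (Φ (e (S (e⁻¹ q))) - Φ (e (e⁻¹ q))) + (Φ q - q) := by
      rw [h0]
      abel
    rw [h3]
    have h4 := norm_add_le (Φ (e (S (e⁻¹ q))) - Φ (e (e⁻¹ q))) (Φ q - q)
    linarith
  · have h3 : ‖((c : ℂ), t)‖ ≤ max 1 |ρ| := by
      rw [Prod.norm_def]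
      apply max_le_max
      · rw [Complex.norm_real, Real.norm_of_nonneg (hJ c hc).1]
        exact (hJ c hc).2
      · exact ht.trans (le_abs_self ρ)
    have h1 := key ((c : ℂ), t) (h3.trans (le_max_right _ _)) (hS3 c hc t ht)
    have h2 := hΦ3 c hc t ht
    show ‖Φ (e (S ((c : ℂ), t))) - e ((c : ℂ), t)‖ ≤ ε
    have h5 : Φ (e (S ((c : ℂ), t))) - e ((c : ℂ), t) = (Φ (e (S ((c : ℂ), t))) - Φ (e ((c : ℂ), t))) +
        (Φ (e ((c : ℂ), t)) - e ((c : ℂ), t)) := by abel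
    rw [h5]
    have h4 := norm_add_le (Φ (e (S ((c : ℂ), t))) - Φ (e ((c : ℂ), t))) (Φ (e ((c : ℂ), t)) - e ((c : ℂ), t))
    linarith

end LCC
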