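import Pool.Agent.LCC.GDefs
import Pool.Agent.LCC.A2
import Pool.Agent.LCC.U1

set_option linter.unusedVariables false

open Set Filter Topology
open scoped ContDiff


namespace LCC



theorem U2_unif (f : V2 → V2) (hf : Continuous f) (R ε : ℝ) (hε : 0 < ε) :
    ∃ δ : ℝ, 0 < δ ∧ ∀ p q : V2, ‖p‖ ≤ R → ‖q‖ ≤ R → ‖p - q‖ ≤ δ → ‖f p - f q‖ ≤ ε := by
  have h1 := (isCompact_closedBall (0 : V2) R).uniformContinuousOn_of_continuous hf.continuousOn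
  rw [Metric.uniformContinuousOn_iff] at h1
  obtain ⟨δ, hδ, h2⟩ := h1 ε hε
  refine ⟨δ / 2, by positivity, fun p q hp hq hpq => ?_⟩
  have h3 := h2 p (by rw [Metric.mem_closedBall, dist_zero_right]; exact hp) q
    (by rw [Metric.mem_closedBall, dist_zero_right]; exact hq) (by
      rw [dist_eq_norm]
      linarith)
  rw [dist_eq_norm] at h3
  exact h3.le

/-- The state number `n` of the recursion. -/
def U2_S (n : ℕ) : Type := {e : Equiv.Perm V2 // e ∈ Aut ∧ Inv ((n : ℝ) + 3) e}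

theorem U2_step (c : ℕ → ℝ) (hc : ∀ j, 0 ≤ c j ∧ c j ≤ 1) (n : ℕ) (s : U2_S n) :
    ∃ x : ℝ × U2_S (n + 1), 0 < x.1 ∧ x.1 ≤ (1 / 2) ^ (n + 2) ∧
      (∀ p q : V2, ‖p‖ ≤ n + 3 → ‖q‖ ≤ n + 3 → ‖p - q‖ ≤ x.1 → ‖(s.1)⁻¹ p - (s.1)⁻¹ q‖ ≤ (1 / 2) ^ n) ∧
      (∀ q : V2, ‖q‖ ≤ n + 3 → ‖x.2.1 ((s.1)⁻¹ q) - q‖ ≤ x.1) ∧
      ∀ j : ℕ, j ≤ n + 1 → ∀ t : ℂ, ‖t‖ ≤ n + 1 → ‖x.2.1 ((c j : ℂ), t) - s.1 ((c j : ℂ), t)‖ ≤ x.1 := by
  obtain ⟨e, he, hinv⟩ := s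
  obtain ⟨δ, hδ, hu⟩ := U2_unif (fun q => e⁻¹ q) (A2_contDiff e⁻¹ (Subgroup.inv_mem _ he)).continuous (n + 3)
    ((1 / 2) ^ n) (by positivity)
  have hε : 0 < min δ ((1 / 2 : ℝ) ^ (n + 2)) := lt_min hδ (by positivity)
  obtain ⟨e', he', hinv', h1, h2⟩ := U1_step e he ((n : ℝ) + 3) (((n + 1 : ℕ) : ℝ) + 3) (by positivity) hinv
    ((Finset.range (n + 2)).image c) (fun x hx => by
      obtain ⟨j, -, rfl⟩ := Finset.mem_image.1 hx
      exact hc j) (min δ ((1 / 2) ^ (n + 2))) (n + 1) hε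
  refine ⟨⟨min δ ((1 / 2) ^ (n + 2)), ⟨e', he', hinv'⟩⟩, hε, min_le_right _ _, fun p q hp hq hpq => ?_, h1, ?_⟩
  · exact hu p q hp hq (hpq.trans (min_le_left _ _))
  · intro j hj t ht
    exact h2 (c j) (Finset.mem_image.2 ⟨j, Finset.mem_range.2 (by omega), rfl⟩) t ht

theorem U2_zero : (1 : Equiv.Perm V2) ∈ Aut ∧ Inv (((0 : ℕ) : ℝ) + 3) (1 : Equiv.Perm V2) := by
  have h : ‖pst‖ = 100 := by
    rw [pst, Prod.norm_def]
    simp
  refine ⟨Subgroup.one_mem _, pst, ?_, fun q hq => ?_⟩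
  · rw [h]
    norm_num
  · rw [h]
    show ‖q - pst‖ ≤ 100 / 10
    linarith

/-- U2. Existence of the sequence.
PROOF. `Inv 3 1` holds with `p = pst` (`‖pst‖ = 100 ≥ 40`, `1 ≤ 10`). Given `Ψ n ∈ Aut` with
`Inv (n+3) (Ψ n)`: `(Ψ n)⁻¹` is continuous (`A2_contDiff`), so uniformly continuous on the compact
closed ball of radius `n + 3`: choose `ε n ∈ (0, (1/2)^(n+2)]` with the property `unif`. Then
`U1_step` with `r = n + 3`, `r' = n + 4`, `J = (Finset.range (n+2)).image c`, `ρ = n + 1`, `ε = ε n`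
gives `Ψ (n+1)`. Do the recursion on the subtype `{e // e ∈ Aut ∧ Inv (n+3) e}` (a family depending on
`n`, `Nat.rec` with `Classical.choose`), or on pairs `(e, ε)`. -/
theorem U2_seq (c : ℕ → ℝ) (hc : ∀ j, 0 ≤ c j ∧ c j ≤ 1) : Nonempty (PSeq c) := by
  choose F hF using U2_step c hc
  let s : (n : ℕ) → U2_S n := fun n => Nat.rec (motive := U2_S) ⟨1, U2_zero⟩ (fun n s => (F n s).2) n
  have hs : ∀ n, s (n + 1) = (F n (s n)).2 := fun _ => rfl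
  exact ⟨{
    Ψ := fun n => (s n).1
    ε := fun n => (F n (s n)).1
    zero := rfl
    mem := fun n => (s n).2.1
    inv := fun n => (s n).2.2
    pos := fun n => (hF n (s n)).1
    le := fun n => (hF n (s n)).2.1
    unif := fun n p q hp hq hpq => (hF n (s n)).2.2.1 p q hp hq hpq
    near := fun n q hq => (hF n (s n)).2.2.2.1 q hq
    line := fun n j hj t ht => (hF n (s n)).2.2.2.2 j hj t ht }⟩

end LCC
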