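import Pool.Agent.LCC.GDefs
import Pool.Agent.LCC.U2
import Pool.Agent.LCC.N4
import Pool.Agent.LCC.N5
import Pool.Agent.LCC.N7
import Pool.Agent.LCC.N8
import Pool.Agent.LCC.N9

set_option linter.unusedVariables false

open Set Filter Topology
open scoped ContDiff


namespace LCC



/-- N10. The map needed in the domain block.
PROOF. Let `c : ℕ → ℝ` be a sequence with values in `[0,1]`, dense in `[0,1]` (e.g. from
`TopologicalSpace.exists_dense_seq (Icc (0:ℝ) 1)` / `denseSeq`), `s` from `U2_seq`, `G` from `N4_limit`,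
`X q = (G q).1`, `Y q = (G q).2`, `g j = γ` from `N8_curve`, `σ` from `N9_section`. Injectivity: N7
(`fderiv ℂ X q ξ = (fderiv ℂ G q ξ).1`). If `‖X q - 100‖ ≤ 1` and `‖Y q‖ ≤ 1` then
`‖G q - pst‖ ≤ 1`, against N6. `X (g j t) = c j`, `Y (g j t) = t`, `X (σ x) = x`, `Y (σ x) = 0`: N8a.
`σ (c j) = g j 0`: uniqueness of limits of `Ψ n (c j, 0)`. -/
theorem N10_map : ∃ (X Y : V2 → ℂ) (c : ℕ → ℝ) (g : ℕ → ℂ → V2) (σ : ℝ → V2),
    ContDiff ℂ ∞ X ∧ ContDiff ℂ ∞ Y ∧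
    (∀ q ξ, fderiv ℂ X q ξ = 0 → fderiv ℂ Y q ξ = 0 → ξ = 0) ∧
    (∀ q, ‖X q - 100‖ ≤ 1 → 1 < ‖Y q‖) ∧
    (∀ j, 0 ≤ c j ∧ c j ≤ 1) ∧ (∀ x ∈ Icc (0 : ℝ) 1, ∀ δ > 0, ∃ j, |c j - x| < δ) ∧
    (∀ j, ContDiff ℂ ∞ (g j)) ∧ (∀ j t, X (g j t) = (c j : ℂ)) ∧ (∀ j t, Y (g j t) = t) ∧
    ContinuousOn σ (Icc 0 1) ∧ (∀ x ∈ Icc (0 : ℝ) 1, X (σ x) = (x : ℂ) ∧ Y (σ x) = 0) ∧
    ∀ j, σ (c j) = g j 0 := by
  have : Nonempty (Icc (0 : ℝ) 1) := ⟨⟨0, by norm_num, by norm_num⟩⟩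
  obtain ⟨u, hu⟩ := TopologicalSpace.exists_dense_seq (Icc (0 : ℝ) 1)
  have hc : ∀ j, 0 ≤ (fun j => (u j : ℝ)) j ∧ (fun j => (u j : ℝ)) j ≤ 1 := fun j => (u j).2
  obtain ⟨s⟩ := U2_seq (fun j => (u j : ℝ)) hc
  obtain ⟨G, hGs, hG⟩ := N4_limit _ s
  choose g hg1 hg2 using N8_curve _ s
  obtain ⟨σ, hσ1, hσ2⟩ := N9_section _ s
  have hd : Differentiable ℂ G := hGs.differentiable (by simp)
  have e1 : ∀ j t, G (g j t) = (((u j : ℝ) : ℂ), t) := fun j t =>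
    N8_point _ s G hGs hG _ _ (hg2 j t)
  have e2 : ∀ x ∈ Icc (0 : ℝ) 1, G (σ x) = ((x : ℂ), (0 : ℂ)) := fun x hx =>
    N8_point _ s G hGs hG _ _ (hσ2 x hx)
  refine ⟨fun q => (G q).1, fun q => (G q).2, fun j => (u j : ℝ), g, σ, hGs.fst, hGs.snd,
    ?_, ?_, hc, ?_, hg1, ?_, ?_, hσ1, ?_, ?_⟩
  · intro q ξ h1 h2
    apply N7_inj _ s G hGs hG q ξ
    have hf1 : HasFDerivAt (fun q => (G q).1)
        ((ContinuousLinearMap.fst ℂ ℂ ℂ).comp (fderiv ℂ G q)) q := (hd q).hasFDerivAt.fst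
    have hf2 : HasFDerivAt (fun q => (G q).2)
        ((ContinuousLinearMap.snd ℂ ℂ ℂ).comp (fderiv ℂ G q)) q := (hd q).hasFDerivAt.snd
    rw [hf1.fderiv] at h1
    rw [hf2.fderiv] at h2
    exact Prod.ext h1 h2
  · intro q hq
    by_contra hlt
    push Not at hlt
    have h1 := N6_miss _ s G hG q
    have h2 : ‖G q - pst‖ ≤ 1 := by
      rw [Prod.norm_def]
      refine max_le ?_ ?_
      · simpa [pst] using hq
      · simpa [pst] using hlt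
    linarith
  · intro x hx δ hδ
    obtain ⟨j, hj⟩ := hu.exists_dist_lt (⟨x, hx⟩ : Icc (0 : ℝ) 1) hδ
    refine ⟨j, ?_⟩
    rw [Subtype.dist_eq, Real.dist_eq, abs_sub_comm] at hj
    exact hj
  · intro j t
    show (G (g j t)).1 = _
    rw [e1]
  · intro j t
    show (G (g j t)).2 = _
    rw [e1]
  · intro x hx
    constructor
    · show (G (σ x)).1 = _
      rw [e2 x hx]
    · show (G (σ x)).2 = _
      rw [e2 x hx]
  · intro j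
    exact tendsto_nhds_unique (hσ2 _ (u j).2) (hg2 j 0)

end LCC
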